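import Pool.Agent.Helper14.ER.Ratio

/-!
# Order of log L: binary words without fourth powers
-/

set_option autoImplicit false

namespace Pool.Agent.Helper14.ER

open Pool.Agent.Helper14.SK Pool.Agent.Helper18.SK

theorem shift_pow {α : Type} (l : α) (z : List α) (E : ℕ) :
    l :: (List.replicate E (z ++ [l])).flatten = (List.replicate E (l :: z)).flatten ++ [l] := by
  induction E with
  | zero => rfl
  | succ E ih =>
    rw [List.replicate_succ, List.flatten_cons, List.replicate_succ, List.flatten_cons]
    rw [List.append_assoc, List.append_assoc, ← ih]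
    simp

/-- The words with a new power are a little fewer over two letters. -/
theorem card_step_bin {E : ℕ} (hE : 2 ≤ E) (t : ℕ) :
    (G (Fin 2) E t).card * 2 ≤ (G (Fin 2) E (t + 1)).card +
      ∑ p ∈ (Finset.range (t + 1)).filter (fun p => E * (p + 1) ≤ t + 1),
        (if E * (p + 1) = t + 1 then (G (Fin 2) E (t + 1 - (E - 1) * (p + 1))).card
          else (G (Fin 2) E (t - (E - 1) * (p + 1))).card) := by
  classical
  set I : Finset (List (Fin 2)) :=
    (G (Fin 2) E t ×ˢ (Finset.univ : Finset (Fin 2))).image fun p => p.1 ++ [p.2] with hI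
  have hIc : I.card = (G (Fin 2) E t).card * 2 := by
    rw [hI, Finset.card_image_of_injective, Finset.card_product, Finset.card_univ, Fintype.card_fin]
    rintro ⟨v, c⟩ ⟨v', c'⟩ h
    simp only at h
    obtain ⟨h1, h2⟩ := List.append_inj' h rfl
    simp only [List.cons.injEq, and_true] at h2
    rw [h1, h2]
  let Bad : ℕ → Finset (List (Fin 2)) := fun p =>
    I.filter fun v => ∃ z : List (Fin 2), z.length = p + 1 ∧ (List.replicate E z).flatten <:+ v
  have hIl : ∀ v ∈ I, v.length = t + 1 := by
    intro v hv
    rw [hI, Finset.mem_image] at hv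
    obtain ⟨⟨w, c⟩, hw, rfl⟩ := hv
    rw [Finset.mem_product] at hw
    rw [List.length_append, ((mem_G (by omega) t w).1 hw.1).2]
    rfl
  have hcover : I ⊆ G (Fin 2) E (t + 1) ∪
      ((Finset.range (t + 1)).filter (fun p => E * (p + 1) ≤ t + 1)).biUnion Bad := by
    intro v hv
    rw [Finset.mem_union]
    by_cases hf : PFree E v
    · left
      rw [mem_G (by omega)]
      exact ⟨hf, hIl v hv⟩
    · right
      have hv' := hv
      rw [hI, Finset.mem_image] at hv'
      obtain ⟨⟨w, c⟩, hw, hwv⟩ := hv'
      rw [Finset.mem_product] at hw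
      simp only at hwv
      have hwf := ((mem_G (by omega) t w).1 hw.1).1
      unfold PFree at hf
      push Not at hf
      obtain ⟨z, hz, hzv⟩ := hf
      have hsuf : (List.replicate E z).flatten <:+ v := by
        rw [← hwv, List.infix_concat_iff] at hzv
        rcases hzv with h | h
        · rw [← hwv]
          exact h
        · exact absurd h (hwf z hz)
      have hzl : 1 ≤ z.length := List.length_pos_iff.2 hz
      have hl1 := hsuf.length_le
      rw [hIl v hv] at hl1
      simp only [List.length_flatten, List.map_replicate, List.sum_replicate, smul_eq_mul] at hl1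
      have hl2 : z.length ≤ E * z.length := Nat.le_mul_of_pos_left _ (by omega)
      rw [Finset.mem_biUnion]
      refine ⟨z.length - 1, ?_, ?_⟩
      · rw [Finset.mem_filter, Finset.mem_range]
        rw [show z.length - 1 + 1 = z.length by omega]
        exact ⟨by omega, hl1⟩
      · simp only [Bad, Finset.mem_filter]
        exact ⟨hv, z, by omega, hsuf⟩
  have hBad : ∀ p ∈ (Finset.range (t + 1)).filter (fun p => E * (p + 1) ≤ t + 1),
      (Bad p).card ≤
        (if E * (p + 1) = t + 1 then (G (Fin 2) E (t + 1 - (E - 1) * (p + 1))).card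
          else (G (Fin 2) E (t - (E - 1) * (p + 1))).card) := by
    intro p hp
    rw [Finset.mem_filter] at hp
    have hEp := hp.2
    obtain ⟨E', rfl⟩ : ∃ E', E = E' + 2 := ⟨E - 2, by omega⟩
    rw [show E' + 2 - 1 = E' + 1 by omega]
    have e0 : (E' + 2) * (p + 1) = (E' + 1) * (p + 1) + (p + 1) := by ring
    have e1 : 1 ≤ (E' + 1) * (p + 1) := Nat.one_le_iff_ne_zero.2 (by positivity)
    have hspl : ∀ v ∈ Bad p, ∃ v' z : List (Fin 2), z.length = p + 1 ∧
        v = v' ++ (List.replicate (E' + 2) z).flatten ∧
        v.take (t + 1 - (E' + 1) * (p + 1)) = v' ++ z ∧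
        v'.length = t + 1 - (E' + 2) * (p + 1) := by
      intro v hv
      simp only [Bad, Finset.mem_filter] at hv
      obtain ⟨hvI, z, hzl, v', hv'⟩ := hv
      have hvl := hIl v hvI
      have hl : v'.length + (E' + 2) * (p + 1) = t + 1 := by
        rw [← hvl, ← hv']
        simp [hzl]
      refine ⟨v', z, hzl, hv'.symm, ?_, by omega⟩
      rw [← hv', List.replicate_succ, List.flatten_cons, ← List.append_assoc, List.take_left']
      rw [List.length_append, hzl]
      omega
    have htake : ∀ M : ℕ, M ≤ t → ∀ v ∈ Bad p, v.take M ∈ G (Fin 2) (E' + 2) M := by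
      intro M hM v hv
      have hvI : v ∈ I := by
        simp only [Bad, Finset.mem_filter] at hv
        exact hv.1
      have hvl := hIl v hvI
      rw [hI, Finset.mem_image] at hvI
      obtain ⟨⟨w, c⟩, hw, hwv⟩ := hvI
      rw [Finset.mem_product] at hw
      simp only at hwv
      obtain ⟨hwf, hwl⟩ := (mem_G (by omega) t w).1 hw.1
      rw [mem_G (by omega)]
      constructor
      · refine hwf.sub ?_
        rw [← hwv, List.take_append_of_le_length (by omega)]
        exact (List.take_prefix _ _).isInfix
      · rw [List.length_take]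
        omega
    by_cases ceq : (E' + 2) * (p + 1) = t + 1
    · rw [if_pos ceq]
      refine Finset.card_le_card_of_injOn (fun v => v.take (t + 1 - (E' + 1) * (p + 1))) ?_ ?_
      · intro v hv
        exact htake _ (by omega) v hv
      · intro v1 h1 v2 h2 h12
        simp only at h12
        obtain ⟨a1, z1, l1, f1, g1, k1⟩ := hspl v1 h1
        obtain ⟨a2, z2, l2, f2, g2, k2⟩ := hspl v2 h2
        rw [g1, g2] at h12
        obtain ⟨h3, h4⟩ := List.append_inj h12 (by omega)
        rw [f1, f2, h3, h4]
    · rw [if_neg ceq]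
      have hspl2 : ∀ v ∈ Bad p, ∃ (u : List (Fin 2)) (l : Fin 2) (z : List (Fin 2)) (c : Fin 2),
          z.length = p ∧ c ≠ l ∧ v = (u ++ [l]) ++ (List.replicate (E' + 2) (z ++ [c])).flatten ∧
          v.take (t - (E' + 1) * (p + 1)) = (u ++ [l]) ++ z ∧
          (u ++ [l]).length = t + 1 - (E' + 2) * (p + 1) := by
        intro v hv
        obtain ⟨v', z, h1, h2, h3, h4⟩ := hspl v hv
        have hv'0 : v' ≠ [] := by
          rintro rfl
          rw [List.length_nil] at h4
          omega
        have hz0 : z ≠ [] := by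
          rintro rfl
          rw [List.length_nil] at h1
          omega
        have e2 := List.dropLast_append_getLast hv'0
        have e3 := List.dropLast_append_getLast hz0
        set u := v'.dropLast
        set l := v'.getLast hv'0
        set z' := z.dropLast
        set c := z.getLast hz0
        have hz' : z'.length = p := by
          have := congrArg List.length e3
          rw [List.length_append, List.length_singleton, h1] at this
          omega
        refine ⟨u, l, z', c, hz', ?_, ?_, ?_, ?_⟩
        · intro hcl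
          have hvI : v ∈ I := by
            simp only [Bad, Finset.mem_filter] at hv
            exact hv.1
          rw [hI, Finset.mem_image] at hvI
          obtain ⟨⟨w, c0⟩, hw, hwv⟩ := hvI
          rw [Finset.mem_product] at hw
          simp only at hwv
          obtain ⟨hwf, hwl⟩ := (mem_G (by omega) t w).1 hw.1
          have h5 : v = (u ++ (List.replicate (E' + 2) (l :: z')).flatten) ++ [l] := by
            rw [h2, ← e2, ← e3, hcl, List.append_assoc, List.append_assoc, ← shift_pow]
            simp
          rw [← hwv] at h5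
          obtain ⟨h6, -⟩ := List.append_inj' h5 rfl
          refine hwf (l :: z') (by simp) ⟨u, [], ?_⟩
          rw [h6]
          simp
        · rw [h2, e2, e3]
        · have h5 : (v.take (t + 1 - (E' + 1) * (p + 1))).take (t - (E' + 1) * (p + 1)) =
              (v' ++ z).take (t - (E' + 1) * (p + 1)) := by rw [h3]
          rw [List.take_take, min_eq_left (by omega)] at h5
          rw [h5, ← e2, ← e3, ← List.append_assoc, List.take_left']
          rw [List.length_append, hz', e2, h4]
          omega
        · rw [e2]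
          exact h4
      refine Finset.card_le_card_of_injOn (fun v => v.take (t - (E' + 1) * (p + 1))) ?_ ?_
      · intro v hv
        exact htake _ (by omega) v hv
      · intro v1 h1 v2 h2 h12
        simp only at h12
        obtain ⟨a1, l1, z1, c1, f1, g1, k1, m1, n1⟩ := hspl2 v1 h1
        obtain ⟨a2, l2, z2, c2, f2, g2, k2, m2, n2⟩ := hspl2 v2 h2
        rw [m1, m2] at h12
        obtain ⟨h3, h4⟩ := List.append_inj h12 (by omega)
        obtain ⟨h5, h6⟩ := List.append_inj' h3 rfl
        simp only [List.cons.injEq, and_true] at h6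
        have h7 : c1 = c2 := by
          subst h6
          omega
        rw [k1, k2, h3, h4, h7]
  calc (G (Fin 2) E t).card * 2 = I.card := hIc.symm
    _ ≤ (G (Fin 2) E (t + 1) ∪
      ((Finset.range (t + 1)).filter (fun p => E * (p + 1) ≤ t + 1)).biUnion Bad).card :=
        Finset.card_le_card hcover
    _ ≤ (G (Fin 2) E (t + 1)).card +
        (((Finset.range (t + 1)).filter (fun p => E * (p + 1) ≤ t + 1)).biUnion Bad).card :=
        Finset.card_union_le _ _
    _ ≤ _ := by
        refine Nat.add_le_add_left (Finset.card_biUnion_le.trans ?_) _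
        exact Finset.sum_le_sum hBad

theorem geo_fin (r : ℝ) (N : ℕ) :
    (∑ p ∈ Finset.range N, r ^ (p + 1)) * (1 - r) = r - r ^ (N + 1) := by
  induction N with
  | zero => simp
  | succ N ih =>
    rw [Finset.sum_range_succ, add_mul, ih]
    ring

/-- The ratio for binary words without fourth powers. -/
theorem ratio_four (t : ℕ) :
    (7 / 4 : ℝ) * (G (Fin 2) 4 t).card ≤ (G (Fin 2) 4 (t + 1)).card := by
  induction t using Nat.strong_induction_on with
  | _ t ih =>
  have hst := card_step_bin (E := 4) (by norm_num) t
  simp only [Nat.reduceSub] at hst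
  have hf : (Finset.range (t + 1)).filter (fun p => 4 * (p + 1) ≤ t + 1) =
      Finset.range ((t + 1) / 4) := by
    ext p
    rw [Finset.mem_filter, Finset.mem_range, Finset.mem_range]
    omega
  rw [hf] at hst
  set A := ((G (Fin 2) 4 t).card : ℝ) with hA
  have hA0 : 0 ≤ A := by positivity
  have hback : ∀ j ≤ t, ((G (Fin 2) 4 (t - j)).card : ℝ) ≤ (4 / 7) ^ j * A := by
    intro j
    induction j with
    | zero => intro _; simp [hA]
    | succ j jh =>
      intro hj
      have h1 := jh (by omega)
      have h2 := ih (t - (j + 1)) (by omega)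
      rw [show t - (j + 1) + 1 = t - j by omega] at h2
      calc ((G (Fin 2) 4 (t - (j + 1))).card : ℝ)
          = 4 / 7 * (7 / 4 * (G (Fin 2) 4 (t - (j + 1))).card) := by ring
        _ ≤ 4 / 7 * ((4 / 7) ^ j * A) := by linarith
        _ = _ := by ring
  set r : ℝ := (4 / 7) ^ 3 with hr
  have hterm : ∀ p, 4 * (p + 1) < t + 1 →
      ((G (Fin 2) 4 (t - 3 * (p + 1))).card : ℝ) ≤ r ^ (p + 1) * A := by
    intro p hp
    have := hback (3 * (p + 1)) (by omega)
    rw [pow_mul] at this
    exact this
  have hterm2 : ∀ p, 4 * (p + 1) = t + 1 →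
      ((G (Fin 2) 4 (t + 1 - 3 * (p + 1))).card : ℝ) ≤ 7 / 4 * (r ^ (p + 1) * A) := by
    intro p hp
    have := hback (3 * (p + 1) - 1) (by omega)
    rw [show t - (3 * (p + 1) - 1) = t + 1 - 3 * (p + 1) by omega] at this
    refine this.trans (le_of_eq ?_)
    have h1 : r ^ (p + 1) = (4 / 7) ^ (3 * (p + 1) - 1) * (4 / 7) := by
      rw [hr, ← pow_mul, ← pow_succ]
      congr 1
    rw [h1]
    ring
  have hst' : A * 2 ≤ ((G (Fin 2) 4 (t + 1)).card : ℝ) +
      ((∑ p ∈ Finset.range ((t + 1) / 4),
        (if 4 * (p + 1) = t + 1 then (G (Fin 2) 4 (t + 1 - 3 * (p + 1))).card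
          else (G (Fin 2) 4 (t - 3 * (p + 1))).card) : ℕ) : ℝ) := by
    rw [hA]
    exact_mod_cast hst
  by_cases ceq : 4 * ((t + 1) / 4) = t + 1
  · obtain ⟨M, hM⟩ : ∃ M, (t + 1) / 4 = M + 1 := ⟨(t + 1) / 4 - 1, by omega⟩
    rw [hM] at ceq hst'
    rw [Finset.sum_range_succ, if_pos ceq] at hst'
    rcases Nat.eq_zero_or_pos M with h0 | h0
    · -- `t = 3`
      subst h0
      have ht : t = 3 := by omega
      subst ht
      rw [Finset.range_zero, Finset.sum_empty] at hst'
      have h2 : ∀ s, s < 3 → 2 * (G (Fin 2) 4 s).card ≤ (G (Fin 2) 4 (s + 1)).card := by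
        intro s hs
        have h3 := card_step_bin (E := 4) (by norm_num) s
        have h4 : (Finset.range (s + 1)).filter (fun p => 4 * (p + 1) ≤ s + 1) = ∅ := by
          rw [Finset.filter_eq_empty_iff]
          intro p _
          omega
        rw [h4, Finset.sum_empty] at h3
        omega
      have g0 : (G (Fin 2) 4 0).card = 1 := by simp [G]
      have g1 := h2 0 (by norm_num)
      have g2 := h2 1 (by norm_num)
      have g3 := h2 2 (by norm_num)
      norm_num at g1 g2 g3 hst'
      have g4 : 8 ≤ (G (Fin 2) 4 3).card := by omega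
      have g5 : (8 : ℝ) ≤ A := by
        rw [hA]
        exact_mod_cast g4
      have g6 : (G (Fin 2) 4 1).card ≤ 2 := by
        have h3 : G (Fin 2) 4 1 ⊆ (Finset.univ : Finset (Fin 2)).image (fun c => [c]) := by
          intro w hw
          rw [mem_G (by norm_num), List.length_eq_one_iff] at hw
          obtain ⟨-, c, rfl⟩ := hw
          exact Finset.mem_image_of_mem _ (Finset.mem_univ c)
        refine (Finset.card_le_card h3).trans (Finset.card_image_le.trans ?_)
        rw [Finset.card_univ, Fintype.card_fin]
      have g7 : ((G (Fin 2) 4 1).card : ℝ) ≤ 2 := by exact_mod_cast g6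
      linarith
    · -- the general case
      have h1 : ((∑ p ∈ Finset.range M,
          (if 4 * (p + 1) = t + 1 then (G (Fin 2) 4 (t + 1 - 3 * (p + 1))).card
          else (G (Fin 2) 4 (t - 3 * (p + 1))).card) : ℕ) : ℝ) ≤
          (∑ p ∈ Finset.range M, r ^ (p + 1)) * A := by
        rw [Nat.cast_sum, Finset.sum_mul]
        refine Finset.sum_le_sum fun p hp => ?_
        rw [Finset.mem_range] at hp
        rw [if_neg (by omega)]
        exact hterm p (by omega)
      have h2 := hterm2 M ceq
      have h3 := geo_fin r M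
      have h4 : r ^ (M + 1) ≤ r ^ 2 := pow_le_pow_of_le_one (by positivity) (by
        rw [hr]; norm_num) (by omega)
      have h5 : 0 ≤ r ^ (M + 1) := by positivity
      have h6 : (∑ p ∈ Finset.range M, r ^ (p + 1)) + 7 / 4 * r ^ (M + 1) ≤ 1 / 4 := by
        have h7 : (∑ p ∈ Finset.range M, r ^ (p + 1)) = (r - r ^ (M + 1)) / (1 - r) := by
          rw [eq_div_iff (by rw [hr]; norm_num)]
          exact h3
        rw [h7]
        rw [hr] at h4 h5 ⊢
        norm_num at h4 h5 ⊢
        linarith
      have h8 := mul_le_mul_of_nonneg_right h6 hA0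
      rw [add_mul, mul_assoc] at h8
      rw [Nat.cast_add] at hst'
      have h9 := add_le_add h1 h2
      have h10 := hst'.trans (add_le_add_right (h9.trans h8) _)
      linarith
  · have h1 : ((∑ p ∈ Finset.range ((t + 1) / 4),
        (if 4 * (p + 1) = t + 1 then (G (Fin 2) 4 (t + 1 - 3 * (p + 1))).card
        else (G (Fin 2) 4 (t - 3 * (p + 1))).card) : ℕ) : ℝ) ≤
        (∑ p ∈ Finset.range ((t + 1) / 4), r ^ (p + 1)) * A := by
      rw [Nat.cast_sum, Finset.sum_mul]
      refine Finset.sum_le_sum fun p hp => ?_
      rw [Finset.mem_range] at hp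
      rw [if_neg (by omega)]
      exact hterm p (by omega)
    have h3 := geo_fin r ((t + 1) / 4)
    have h5 : 0 ≤ r ^ ((t + 1) / 4 + 1) := by positivity
    have h6 : (∑ p ∈ Finset.range ((t + 1) / 4), r ^ (p + 1)) ≤ 1 / 4 := by
      have h7 : (∑ p ∈ Finset.range ((t + 1) / 4), r ^ (p + 1)) =
          (r - r ^ ((t + 1) / 4 + 1)) / (1 - r) := by
        rw [eq_div_iff (by rw [hr]; norm_num)]
        exact h3
      rw [h7, div_le_iff₀ (by rw [hr]; norm_num)]
      have h9 : r - 0 ≤ 1 / 4 * (1 - r) := by
        rw [hr]
        norm_num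
      linarith
    have h8 := mul_le_mul_of_nonneg_right h6 hA0
    linarith

end Pool.Agent.Helper14.ER
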