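import Pool.Agent.Helper14.ER.Marked

/-!
# Exact rate for strongly k-abelian powers: counting the words that fit between two markers
-/

set_option autoImplicit false

namespace Pool.Agent.Helper14.ER

open Pool.Agent.Helper14.SK Pool.Agent.Helper18.SK

theorem per_shift {β : Type} (f : ℕ → β) (M p : ℕ) (h : ∀ j, j + p < M → f j = f (j + p)) :
    ∀ c j, j + c * p < M → f j = f (j + c * p) := by
  intro c
  induction c with
  | zero => intro j _; simp
  | succ c ih =>
    intro j hj
    have e : (c + 1) * p = c * p + p := by ring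
    rw [e] at hj ⊢
    rw [ih j (by omega), h (j + c * p) (by omega)]
    congr 1
    omega

theorem per_mod {β : Type} (f : ℕ → β) (M p : ℕ)
    (h : ∀ j, j + p < M → f j = f (j + p)) (t : ℕ) (ht : t < M) : f t = f (t % p) := by
  have h1 := per_shift f M p h (t / p) (t % p) (by
    have := Nat.mod_add_div t p
    rw [mul_comm] at this
    omega)
  rw [h1]
  congr 1
  have := Nat.mod_add_div t p
  rw [mul_comm] at this
  omega

section

variable {α : Type} [DecidableEq α] [Fintype α]

/-- A power of period `p` starts `i` letters before `y` in `T y`. -/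
def LB (T : List α) (n p i : ℕ) (y : List α) : Prop :=
  i ≤ n * p ∧ n * p ≤ i + y.length ∧
    ∀ j, j + p < n * p →
      (T.drop (T.length - i) ++ y)[j]? = (T.drop (T.length - i) ++ y)[j + p]?

omit [DecidableEq α] [Fintype α] in
theorem LB_inj {T : List α} {n p i d : ℕ} (hn : 1 ≤ n) (hp : 0 < p) (hi : i ≤ T.length)
    (hd : (i ≤ p ∧ d = (n - 1) * p) ∨ (p ≤ i ∧ d + i = n * p)) {y1 y2 : List α}
    (h1 : LB T n p i y1) (h2 : LB T n p i y2) (h : y1.drop d = y2.drop d) : y1 = y2 := by
  obtain ⟨n, rfl⟩ : ∃ n', n = n' + 1 := ⟨n - 1, by omega⟩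
  rw [Nat.add_sub_cancel] at hd
  set S := T.drop (T.length - i) with hS
  have hSl : S.length = i := by
    rw [hS, List.length_drop]
    omega
  have e0 : (n + 1) * p = n * p + p := by ring
  have hout : ∀ t, t < i ∨ i + d ≤ t → (S ++ y1)[t]? = (S ++ y2)[t]? := by
    intro t ht
    rcases ht with ht | ht
    · rw [List.getElem?_append_left (by omega), List.getElem?_append_left (by omega)]
    · rw [List.getElem?_append_right (by omega), List.getElem?_append_right (by omega)]
      have h3 := congrArg (fun l => l[t - i - d]?) h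
      beta_reduce at h3
      rw [List.getElem?_drop, List.getElem?_drop] at h3
      rw [hSl]
      rwa [show d + (t - i - d) = t - i by omega] at h3
  have hall : ∀ t, t < (n + 1) * p → (S ++ y1)[t]? = (S ++ y2)[t]? := by
    intro t ht
    have hr := Nat.mod_lt t hp
    rw [per_mod (fun t => (S ++ y1)[t]?) _ p h1.2.2 t ht,
      per_mod (fun t => (S ++ y2)[t]?) _ p h2.2.2 t ht]
    rcases hd with ⟨hd1, hd2⟩ | ⟨hd1, hd2⟩
    · by_cases c : t % p < i
      · exact hout _ (Or.inl c)
      · have h3 := per_shift (fun t => (S ++ y1)[t]?) _ p h1.2.2 n (t % p) (by omega)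
        have h4 := per_shift (fun t => (S ++ y2)[t]?) _ p h2.2.2 n (t % p) (by omega)
        beta_reduce at h3 h4
        rw [h3, h4]
        exact hout _ (Or.inr (by omega))
    · exact hout _ (Or.inl (by omega))
  apply List.ext_getElem?
  intro j
  have h3 : (S ++ y1)[i + j]? = (S ++ y2)[i + j]? := by
    by_cases c : i + j < (n + 1) * p
    · exact hall _ c
    · apply hout
      right
      rcases hd with ⟨hd1, hd2⟩ | ⟨hd1, hd2⟩ <;> omega
  rw [List.getElem?_append_right (by omega), List.getElem?_append_right (by omega), hSl,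
    show i + j - i = j by omega] at h3
  exact h3

open Classical in
theorem card_LB {T : List α} {n p i d : ℕ} (hn : 1 ≤ n) (hp : 0 < p) (hi : i ≤ T.length)
    (hd : (i ≤ p ∧ d = (n - 1) * p) ∨ (p ≤ i ∧ d + i = n * p)) {N : ℕ} {x : ℝ}
    (hrec : ∀ j ≤ N, ((G α n (N - j)).card : ℝ) ≤ x ^ j * (G α n N).card) (hx : 0 ≤ x) :
    (((G α n N).filter (LB T n p i)).card : ℝ) ≤ x ^ d * (G α n N).card := by
  by_cases hdN : d ≤ N
  · refine le_trans ?_ (hrec d hdN)
    norm_cast
    refine Finset.card_le_card_of_injOn (fun y => y.drop d) ?_ ?_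
    · intro y hy
      rw [Finset.mem_coe, Finset.mem_filter, mem_G hn] at hy
      rw [Finset.mem_coe]
      simp only
      rw [mem_G hn]
      refine ⟨hy.1.1.sub (List.drop_suffix _ _).isInfix, ?_⟩
      rw [List.length_drop, hy.1.2]
    · intro y1 h1 y2 h2 h
      rw [Finset.mem_coe, Finset.mem_filter] at h1 h2
      exact LB_inj hn hp hi hd h1.2 h2.2 h
  · rw [Finset.filter_false_of_mem]
    · simp only [Finset.card_empty, Nat.cast_zero]
      positivity
    · intro y hy h
      rw [mem_G hn] at hy
      have h1 := h.2.1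
      rw [hy.2] at h1
      obtain ⟨n, rfl⟩ : ∃ n', n = n' + 1 := ⟨n - 1, by omega⟩
      rw [Nat.add_sub_cancel] at hd
      have e0 : (n + 1) * p = n * p + p := by ring
      rcases hd with ⟨hd1, hd2⟩ | ⟨hd1, hd2⟩ <;> omega

theorem sum_one {r : ℝ} (h0 : 0 ≤ r) (h1 : r < 1) (N : ℕ) :
    ∑ q ∈ Finset.range N, (((q + 1 : ℕ) : ℝ) * r ^ (q + 1)) ≤ r / (1 - r) ^ 2 := by
  have h2 := hasSum_coe_mul_geometric_of_norm_lt_one (r := r) (by
    rw [Real.norm_eq_abs, abs_lt]
    constructor <;> linarith)
  have h3 := sum_le_hasSum (Finset.range (N + 1)) (fun i _ => by positivity) h2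
  rw [Finset.sum_range_succ'] at h3
  simpa using h3

theorem sum_two {y : ℝ} (h0 : 0 ≤ y) (h1 : y < 1) (N : ℕ) :
    ∑ q ∈ Finset.range N, ((q : ℝ) * y ^ (q + 1)) ≤ y ^ 2 / (1 - y) ^ 2 := by
  have h2 := hasSum_coe_mul_geometric_of_norm_lt_one (r := y) (by
    rw [Real.norm_eq_abs, abs_lt]
    constructor <;> linarith)
  have h3 := sum_le_hasSum (Finset.range N) (fun i _ => by positivity) h2
  calc ∑ q ∈ Finset.range N, ((q : ℝ) * y ^ (q + 1))
      = y * ∑ q ∈ Finset.range N, ((q : ℝ) * y ^ q) := by
        rw [Finset.mul_sum]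
        exact Finset.sum_congr rfl fun q _ => by ring
    _ ≤ y * (y / (1 - y) ^ 2) := mul_le_mul_of_nonneg_left h3 h0
    _ = y ^ 2 / (1 - y) ^ 2 := by ring

/-- The share of the words that do not fit on one side. -/
noncomputable def F (n : ℕ) (x : ℝ) : ℝ :=
  x ^ (n - 1) / (1 - x ^ (n - 1)) ^ 2 + x * ((x ^ (n - 2)) ^ 2 / (1 - x ^ (n - 2)) ^ 2)

open Classical in
theorem left_card {n : ℕ} (hn : 3 ≤ n) (T : List α) (e : Bool)
    (hsuf : ∀ p i, 0 < p → p < i → i ≤ T.length →
      (∀ j, T.length - i ≤ j → j + p < T.length → T[j]? = T[j + p]?) →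
        i < 2 * p ∨ (e = true ∧ p = 1 ∧ i = 2)) {N : ℕ} {x : ℝ} (hx : 0 < x) (hx1 : x < 1)
    (hrec : ∀ j ≤ N, ((G α n (N - j)).card : ℝ) ≤ x ^ j * (G α n N).card) :
    (((G α n N).filter (fun y => ∃ p i, 0 < p ∧ 0 < i ∧ i ≤ T.length ∧ LB T n p i y)).card : ℝ) ≤
      (F n x + if e = true then x ^ (n - 2) else 0) * (G α n N).card := by
  obtain ⟨n, rfl⟩ : ∃ n', n = n' + 3 := ⟨n - 3, by omega⟩
  rw [F, show n + 3 - 1 = n + 2 by omega, show n + 3 - 2 = n + 1 by omega]
  set A := ((G α (n + 3) N).card : ℝ) with hA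
  have hA0 : 0 ≤ A := by positivity
  set r := x ^ (n + 2) with hr
  set y0 := x ^ (n + 1) with hy0
  have hr0 : 0 ≤ r := by positivity
  have hy00 : 0 ≤ y0 := by positivity
  have hr1 : r < 1 := pow_lt_one₀ hx.le hx1 (by omega)
  have hy1 : y0 < 1 := pow_lt_one₀ hx.le hx1 (by omega)
  let D : ℕ → ℕ → Finset (List α) := fun p i => (G α (n + 3) N).filter (LB T (n + 3) p i)
  set U1 := (Finset.range N).biUnion (fun q => ((Finset.Icc 1 (q + 1)).filter
    (fun i => i ≤ T.length)).biUnion (fun i => D (q + 1) i)) with hU1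
  set U2 := (Finset.range N).biUnion (fun q => ((Finset.Ioo (q + 1) (2 * (q + 1))).filter
    (fun i => i ≤ T.length)).biUnion (fun i => D (q + 1) i)) with hU2
  set U3 : Finset (List α) := if e = true ∧ 2 ≤ T.length then D 1 2 else ∅ with hU3
  have hcov : (G α (n + 3) N).filter (fun y => ∃ p i, 0 < p ∧ 0 < i ∧ i ≤ T.length ∧
      LB T (n + 3) p i y) ⊆ U1 ∪ U2 ∪ U3 := by
    intro y hy
    rw [Finset.mem_filter] at hy
    obtain ⟨hyG, p, i, hp, hi, hiT, hLB⟩ := hy
    have hyl := ((mem_G (by omega) N y).1 hyG).2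
    have h1 := hLB.2.1
    have h10 := hLB.1
    rw [hyl] at h1
    have hD : y ∈ D p i := by
      simp only [D]
      rw [Finset.mem_filter]
      exact ⟨hyG, hLB⟩
    have e0 : (n + 3) * p = n * p + 3 * p := by ring
    rw [Finset.mem_union, Finset.mem_union]
    by_cases c1 : i ≤ p
    · left; left
      rw [hU1, Finset.mem_biUnion]
      refine ⟨p - 1, Finset.mem_range.2 (by omega), ?_⟩
      rw [Finset.mem_biUnion]
      refine ⟨i, ?_, ?_⟩
      · rw [Finset.mem_filter, Finset.mem_Icc]
        exact ⟨⟨by omega, by omega⟩, hiT⟩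
      · rw [show p - 1 + 1 = p by omega]
        exact hD
    · rcases hsuf p i hp (by omega) hiT (by
        intro j hj1 hj2
        have h2 := hLB.2.2 (j - (T.length - i)) (by omega)
        rw [List.getElem?_append_left (by rw [List.length_drop]; omega),
          List.getElem?_append_left (by rw [List.length_drop]; omega), List.getElem?_drop,
          List.getElem?_drop] at h2
        rw [show T.length - i + (j - (T.length - i)) = j by omega,
          show T.length - i + (j - (T.length - i) + p) = j + p by omega] at h2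
        exact h2) with h2 | ⟨h2, h3, h4⟩
      · left; right
        rw [hU2, Finset.mem_biUnion]
        refine ⟨p - 1, Finset.mem_range.2 (by omega), ?_⟩
        rw [Finset.mem_biUnion]
        refine ⟨i, ?_, ?_⟩
        · rw [Finset.mem_filter, Finset.mem_Ioo]
          exact ⟨⟨by omega, by omega⟩, hiT⟩
        · rw [show p - 1 + 1 = p by omega]
          exact hD
      · right
        rw [hU3, if_pos ⟨h2, by omega⟩]
        rw [h3, h4] at hD
        exact hD
  have hDcard : ∀ p i d, 0 < p → i ≤ T.length →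
      ((i ≤ p ∧ d = (n + 2) * p) ∨ (p ≤ i ∧ d + i = (n + 3) * p)) →
      ((D p i).card : ℝ) ≤ x ^ d * A := by
    intro p i d hp hi hd
    exact card_LB (by omega) hp hi (by
      rw [show n + 3 - 1 = n + 2 by omega]
      exact hd) hrec hx.le
  have b1 : (U1.card : ℝ) ≤ r / (1 - r) ^ 2 * A := by
    have h1 : U1.card ≤ ∑ q ∈ Finset.range N, ∑ i ∈ (Finset.Icc 1 (q + 1)).filter
        (fun i => i ≤ T.length), (D (q + 1) i).card :=
      Finset.card_biUnion_le.trans (Finset.sum_le_sum fun q _ => Finset.card_biUnion_le)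
    calc (U1.card : ℝ)
        ≤ ∑ q ∈ Finset.range N, ∑ i ∈ (Finset.Icc 1 (q + 1)).filter
          (fun i => i ≤ T.length), ((D (q + 1) i).card : ℝ) := by exact_mod_cast h1
      _ ≤ ∑ q ∈ Finset.range N, (((q + 1 : ℕ) : ℝ) * r ^ (q + 1)) * A := by
          refine Finset.sum_le_sum fun q _ => ?_
          calc ∑ i ∈ (Finset.Icc 1 (q + 1)).filter (fun i => i ≤ T.length),
                ((D (q + 1) i).card : ℝ)
              ≤ ∑ i ∈ (Finset.Icc 1 (q + 1)).filter (fun i => i ≤ T.length),
                r ^ (q + 1) * A := by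
                refine Finset.sum_le_sum fun i hi => ?_
                rw [Finset.mem_filter, Finset.mem_Icc] at hi
                have h2 := hDcard (q + 1) i ((n + 2) * (q + 1)) (by omega) hi.2
                  (Or.inl ⟨hi.1.2, rfl⟩)
                rw [pow_mul, ← hr] at h2
                exact h2
            _ = (((Finset.Icc 1 (q + 1)).filter (fun i => i ≤ T.length)).card : ℝ) *
                (r ^ (q + 1) * A) := by
                rw [Finset.sum_const, nsmul_eq_mul]
            _ ≤ ((q + 1 : ℕ) : ℝ) * (r ^ (q + 1) * A) := by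
                refine mul_le_mul_of_nonneg_right ?_ (by positivity)
                have h3 := Finset.card_filter_le (Finset.Icc 1 (q + 1)) (fun i => i ≤ T.length)
                rw [Nat.card_Icc] at h3
                exact_mod_cast (by omega : ((Finset.Icc 1 (q + 1)).filter
                  (fun i => i ≤ T.length)).card ≤ q + 1)
            _ = _ := by ring
      _ = (∑ q ∈ Finset.range N, (((q + 1 : ℕ) : ℝ) * r ^ (q + 1))) * A := by
          rw [Finset.sum_mul]
      _ ≤ r / (1 - r) ^ 2 * A := mul_le_mul_of_nonneg_right (sum_one hr0 hr1 N) hA0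
  have b2 : (U2.card : ℝ) ≤ x * (y0 ^ 2 / (1 - y0) ^ 2) * A := by
    have h1 : U2.card ≤ ∑ q ∈ Finset.range N, ∑ i ∈ (Finset.Ioo (q + 1) (2 * (q + 1))).filter
        (fun i => i ≤ T.length), (D (q + 1) i).card :=
      Finset.card_biUnion_le.trans (Finset.sum_le_sum fun q _ => Finset.card_biUnion_le)
    calc (U2.card : ℝ)
        ≤ ∑ q ∈ Finset.range N, ∑ i ∈ (Finset.Ioo (q + 1) (2 * (q + 1))).filter
          (fun i => i ≤ T.length), ((D (q + 1) i).card : ℝ) := by exact_mod_cast h1
      _ ≤ ∑ q ∈ Finset.range N, ((q : ℝ) * y0 ^ (q + 1)) * (x * A) := by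
          refine Finset.sum_le_sum fun q _ => ?_
          calc ∑ i ∈ (Finset.Ioo (q + 1) (2 * (q + 1))).filter (fun i => i ≤ T.length),
                ((D (q + 1) i).card : ℝ)
              ≤ ∑ i ∈ (Finset.Ioo (q + 1) (2 * (q + 1))).filter (fun i => i ≤ T.length),
                y0 ^ (q + 1) * (x * A) := by
                refine Finset.sum_le_sum fun i hi => ?_
                rw [Finset.mem_filter, Finset.mem_Ioo] at hi
                have e0 : (n + 3) * (q + 1) = (n + 1) * (q + 1) + 2 * (q + 1) := by ring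
                have h2 := hDcard (q + 1) i ((n + 3) * (q + 1) - i) (by omega) hi.2
                  (Or.inr ⟨by omega, by omega⟩)
                refine h2.trans ?_
                calc x ^ ((n + 3) * (q + 1) - i) * A ≤ x ^ ((n + 1) * (q + 1) + 1) * A := by
                      refine mul_le_mul_of_nonneg_right ?_ hA0
                      exact pow_le_pow_of_le_one hx.le hx1.le (by omega)
                  _ = y0 ^ (q + 1) * (x * A) := by
                      rw [hy0, ← pow_mul, pow_succ]
                      ring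
            _ = (((Finset.Ioo (q + 1) (2 * (q + 1))).filter (fun i => i ≤ T.length)).card : ℝ) *
                (y0 ^ (q + 1) * (x * A)) := by
                rw [Finset.sum_const, nsmul_eq_mul]
            _ ≤ (q : ℝ) * (y0 ^ (q + 1) * (x * A)) := by
                refine mul_le_mul_of_nonneg_right ?_ (by positivity)
                have h3 := Finset.card_filter_le (Finset.Ioo (q + 1) (2 * (q + 1)))
                  (fun i => i ≤ T.length)
                rw [Nat.card_Ioo] at h3
                exact_mod_cast (by omega : ((Finset.Ioo (q + 1) (2 * (q + 1))).filter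
                  (fun i => i ≤ T.length)).card ≤ q)
            _ = _ := by ring
      _ = (∑ q ∈ Finset.range N, ((q : ℝ) * y0 ^ (q + 1))) * (x * A) := by
          rw [Finset.sum_mul]
      _ ≤ y0 ^ 2 / (1 - y0) ^ 2 * (x * A) :=
          mul_le_mul_of_nonneg_right (sum_two hy00 hy1 N) (by positivity)
      _ = _ := by ring
  have b3 : (U3.card : ℝ) ≤ (if e = true then y0 else 0) * A := by
    rw [hU3]
    by_cases he : e = true
    · by_cases hT : 2 ≤ T.length
      · rw [if_pos ⟨he, hT⟩, if_pos he]
        have h2 := hDcard 1 2 (n + 1) (by omega) hT (Or.inr ⟨by omega, by omega⟩)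
        exact h2
      · rw [if_neg (by tauto), if_pos he]
        simp only [Finset.card_empty, Nat.cast_zero]
        positivity
    · rw [if_neg (by tauto), if_neg he]
      simp
  calc (((G α (n + 3) N).filter (fun y => ∃ p i, 0 < p ∧ 0 < i ∧ i ≤ T.length ∧
      LB T (n + 3) p i y)).card : ℝ) ≤ ((U1 ∪ U2 ∪ U3).card : ℝ) := by
        exact_mod_cast Finset.card_le_card hcov
    _ ≤ (U1.card : ℝ) + U2.card + U3.card := by
        have h1 := Finset.card_union_le (U1 ∪ U2) U3
        have h2 := Finset.card_union_le U1 U2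
        exact_mod_cast (by omega : (U1 ∪ U2 ∪ U3).card ≤ U1.card + U2.card + U3.card)
    _ ≤ _ := by
        rw [add_mul, add_mul]
        linarith

end

end Pool.Agent.Helper14.ER
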