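import Pool.Agent.Helper47.ER.Goals
import Mathlib

/-!
# Project ER (MP_5b9a11_al), packet DMU: rank and dimension
-/

set_option autoImplicit false
set_option linter.unusedSectionVars false

namespace Pool.Agent.Helper14.ER.DMU

open Pool.Agent.Helper47.ER
open Pool.Agent.Helper47.EP (dm rs)

/-- the dimension is the rank of the matrix of the left multiplication -/
theorem dm_rank (F : Type) [Field F] (B : Type) [Group B] [Fintype B] [DecidableEq B]
    (x : MonoidAlgebra F B) : dm x = (Matrix.of fun (a b : B) => x.coeff (a * b⁻¹)).rank := by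
  have h : (Matrix.of fun (a b : B) => x.coeff (a * b⁻¹)) =
      LinearMap.toMatrix (MonoidAlgebra.basis B F) (MonoidAlgebra.basis B F)
        (LinearMap.mulLeft F x) := by
    ext a b
    rw [Matrix.of_apply, LinearMap.toMatrix_apply, MonoidAlgebra.basis_apply,
      LinearMap.mulLeft_apply]
    change x.coeff (a * b⁻¹) = (x * MonoidAlgebra.single b 1).coeff a
    rw [MonoidAlgebra.coeff_mul_single_eq_coeff_mul (m₂ := a * b⁻¹), mul_one]
    intro m' _
    exact ⟨fun h => by rw [← h, mul_inv_cancel_right], fun h => by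
      rw [h, inv_mul_cancel_right]⟩
  rw [h, Matrix.rank_eq_finrank_range_toLin _ (MonoidAlgebra.basis B F)
    (MonoidAlgebra.basis B F), Matrix.toLin_toMatrix]
  rfl

theorem t (hTRA : S_TRA) : S_DMU := by
  classical
  intro F _ L _ _ _ σ x
  let B : Subgroup L :=
    { carrier := {g | σ g = g}
      mul_mem' := fun {a b} (ha : σ a = a) (hb : σ b = b) => by
        show σ (a * b) = a * b
        rw [map_mul, ha, hb]
      one_mem' := map_one σ
      inv_mem' := fun {a} (ha : σ a = a) => by
        show σ a⁻¹ = a⁻¹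
        rw [map_inv, ha] }
  have hrs : ∀ g, (rs {g | σ g = g} x).coeff g = if σ g = g then x.coeff g else 0 := by
    intro g
    unfold rs
    rw [MonoidAlgebra.coeff_ofCoeff]
    rw [Finsupp.filter_apply]
    by_cases h : σ g = g
    · rw [if_pos h, if_pos]
      exact h
    · rw [if_neg h, if_neg]
      exact h
  obtain ⟨x', h1, -, h3⟩ := hTRA F B L B.subtype B.subtype_injective (rs {g | σ g = g} x) (by
    intro g hg
    rw [hrs] at hg
    by_cases h : σ g = g
    · exact ⟨⟨g, h⟩, rfl⟩
    · rw [if_neg h] at hg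
      exact absurd rfl hg)
  have hcard : Nat.card {g // σ g = g} = Nat.card B := rfl
  rw [hcard, h3, mul_comm]
  congr 1
  have : Fintype B := Fintype.ofFinite B
  rw [dm_rank]
  let e : {g // σ g = g} ≃ B := Equiv.refl _
  rw [← Matrix.rank_submatrix _ e e]
  congr 1
  ext a b
  rw [Matrix.submatrix_apply, Matrix.of_apply, Matrix.of_apply, h1, hrs]
  have h4 : B.subtype (e a * (e b)⁻¹) = a.1 * b.1⁻¹ := rfl
  rw [h4, if_pos]
  rw [map_mul, map_inv, a.2, b.2]

end Pool.Agent.Helper14.ER.DMU
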