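import Pool.Agent.Helper14.ER.MarkB

/-!
# Exact rate for strongly k-abelian powers: markers over two letters
-/

set_option autoImplicit false

namespace Pool.Agent.Helper14.ER

open Pool.Agent.Helper14.SK Pool.Agent.Helper18.SK

/-- The codes of the marker `a a b^c S a^c b b a b`, where `S` is a reversed beginning of the
Thue–Morse word. -/
def gA (c s j : ℕ) : ℕ :=
  if j < 2 then 0 else if j < 2 + c then 1 else
    if j < 2 + c + s then tm (s + 1 - (j - (2 + c))) else if j < 2 + c + s + c then 0 else
      if j = 2 + c + s + c + 2 then 0 else 1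

theorem gA_lt (c s j : ℕ) : gA c s j < 2 := by
  unfold gA
  have := tm_lt (s + 1 - (j - (2 + c)))
  split_ifs <;> omega

theorem tm_two : tm 2 = 1 := rfl
theorem tm_three' : tm 3 = 0 := rfl
theorem tm_four : tm 4 = 1 := rfl

section

variable {c s : ℕ}

theorem A0 {j : ℕ} (h : j < 2) : gA c s j = 0 := by
  unfold gA
  rw [if_pos h]

theorem A1 {j : ℕ} (h1 : 2 ≤ j) (h2 : j < 2 + c) : gA c s j = 1 := by
  unfold gA
  rw [if_neg (by omega), if_pos h2]

theorem A2 {j : ℕ} (h1 : 2 + c ≤ j) (h2 : j < 2 + c + s) :
    gA c s j = tm (s + 1 - (j - (2 + c))) := by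
  unfold gA
  rw [if_neg (by omega), if_neg (by omega), if_pos h2]

theorem A3 {j : ℕ} (h1 : 2 + c + s ≤ j) (h2 : j < 2 + c + s + c) : gA c s j = 0 := by
  unfold gA
  rw [if_neg (by omega), if_neg (by omega), if_neg (by omega), if_pos h2]

theorem A4 : gA c s (2 + c + s + c) = 1 := by
  unfold gA
  rw [if_neg (by omega), if_neg (by omega), if_neg (by omega), if_neg (by omega),
    if_neg (by omega)]

theorem A5 : gA c s (2 + c + s + c + 1) = 1 := by
  unfold gA
  rw [if_neg (by omega), if_neg (by omega), if_neg (by omega), if_neg (by omega),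
    if_neg (by omega)]

theorem A6 : gA c s (2 + c + s + c + 2) = 0 := by
  unfold gA
  rw [if_neg (by omega), if_neg (by omega), if_neg (by omega), if_neg (by omega),
    if_pos (by omega)]

theorem A7 : gA c s (2 + c + s + c + 3) = 1 := by
  unfold gA
  rw [if_neg (by omega), if_neg (by omega), if_neg (by omega), if_neg (by omega),
    if_neg (by omega)]

theorem Asf (hs : 4 ≤ s) (h0 : tm (s + 1) = 0) : gA c s (2 + c) = 0 := by
  rw [A2 le_rfl (by omega), Nat.sub_self, Nat.sub_zero, h0]

theorem As1 (hs : 4 ≤ s) : gA c s (2 + c + s - 1) = 1 := by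
  rw [A2 (by omega) (by omega), show s + 1 - (2 + c + s - 1 - (2 + c)) = 2 by omega]
  rfl

theorem As2 (hs : 4 ≤ s) : gA c s (2 + c + s - 2) = 0 := by
  rw [A2 (by omega) (by omega), show s + 1 - (2 + c + s - 2 - (2 + c)) = 3 by omega]
  rfl

theorem As3 (hs : 4 ≤ s) : gA c s (2 + c + s - 3) = 1 := by
  rw [A2 (by omega) (by omega), show s + 1 - (2 + c + s - 3 - (2 + c)) = 4 by omega]
  rfl

theorem Athree {t : ℕ} (h1 : 2 + c ≤ t) (h2 : t + 2 < 2 + c + s) :
    ¬ (gA c s t = gA c s (t + 1) ∧ gA c s (t + 1) = gA c s (t + 2)) := by
  rintro ⟨e1, e2⟩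
  rw [A2 (by omega) (by omega), A2 (by omega) (by omega)] at e1 e2
  refine tm_three (s + 1 - (t + 2 - (2 + c))) ⟨?_, ?_⟩
  · rw [← e2]
    congr 1
    omega
  · rw [show s + 1 - (t + 2 - (2 + c)) + 1 = s + 1 - (t + 1 - (2 + c)) by omega, ← e1]
    congr 1
    omega

theorem Aover {t p : ℕ} (hp : 1 ≤ p) (h1 : 2 + c ≤ t) (h2 : t + 2 * p < 2 + c + s) :
    ¬ ∀ j ≤ p, gA c s (t + j) = gA c s (t + j + p) := by
  intro h
  refine tm_no_overlap p hp (s + 1 - (t + 2 * p - (2 + c))) fun j hj => ?_
  have h3 := h (p - j) (by omega)
  rw [A2 (by omega) (by omega), A2 (by omega) (by omega)] at h3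
  rw [show s + 1 - (t + 2 * p - (2 + c)) + j = s + 1 - (t + (p - j) + p - (2 + c)) by omega, ← h3]
  congr 1
  omega

/-- A block of ones of length `c` is the first one. -/
theorem Aones (hc : 4 ≤ c) (hs : 4 ≤ s) (h0 : tm (s + 1) = 0) {t : ℕ} (h1 : 3 ≤ t)
    (h2 : t + c ≤ 2 + c + s + (c + 4)) : ¬ ∀ j < c, gA c s (t + j) = 1 := by
  intro h
  by_cases k1 : t ≤ 2 + c
  · have h3 := h (2 + c - t) (by omega)
    rw [show t + (2 + c - t) = 2 + c by omega, Asf hs h0] at h3
    omega
  by_cases k2 : t + 2 < 2 + c + s
  · apply Athree (c := c) (s := s) (t := t) (by omega) k2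
    have h3 := h 0 (by omega)
    have h4 := h 1 (by omega)
    have h5 := h 2 (by omega)
    rw [add_zero] at h3
    constructor <;> omega
  by_cases k3 : t ≤ 2 + c + s
  · have h3 := h (2 + c + s - t) (by omega)
    rw [A3 (by omega) (by omega)] at h3
    omega
  by_cases k4 : t < 2 + c + s + c
  · have h3 := h 0 (by omega)
    rw [A3 (by omega) (by omega)] at h3
    omega
  · by_cases k5 : t = 2 + c + s + c
    · have h3 := h 2 (by omega)
      rw [k5, A6] at h3
      omega
    · omega

/-- A block of zeros of length `c` is the last one. -/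
theorem Azeros (hc : 4 ≤ c) (hs : 4 ≤ s) {t : ℕ} (h1 : t < 2 + c + s) :
    ¬ ∀ j < c, gA c s (t + j) = 0 := by
  intro h
  by_cases k1 : t < 2
  · have h3 := h 2 (by omega)
    rw [A1 (by omega) (by omega)] at h3
    omega
  by_cases k2 : t < 2 + c
  · have h3 := h 0 (by omega)
    rw [A1 (by omega) (by omega)] at h3
    omega
  by_cases k3 : t + 2 < 2 + c + s
  · apply Athree (c := c) (s := s) (t := t) (by omega) k3
    have h3 := h 0 (by omega)
    have h4 := h 1 (by omega)
    have h5 := h 2 (by omega)
    rw [add_zero] at h3
    constructor <;> omega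
  · have h3 := h (2 + c + s - 1 - t) (by omega)
    rw [show t + (2 + c + s - 1 - t) = 2 + c + s - 1 by omega, As1 hs] at h3
    omega

end

theorem markerA {α : Type} (a b : α) (hab : a ≠ b) (c s : ℕ) (hc : 4 ≤ c) (hs : 4 ≤ s)
    (h0 : tm (s + 1) = 0) :
    ∃ T1 T2 : List α, Marker (c + 1) true T1 T2 ∧ T1.length = 2 + c + s ∧ T2.length = c + 4 := by
  let φ : ℕ → α := fun i => if i = 0 then a else b
  have hφ : ∀ i j, i < 2 → j < 2 → φ i = φ j → i = j := by
    intro i j hi hj h
    simp only [φ] at h
    interval_cases i <;> interval_cases j <;> simp_all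
  set Z := 2 + c + s with hZ
  have hlt := gA_lt c s
  have v0 : gA c s 0 = 0 := A0 (by omega)
  have v1 : gA c s 1 = 0 := A0 (by omega)
  have v2 : gA c s 2 = 1 := A1 (by omega) (by omega)
  have v3 : gA c s 3 = 1 := A1 (by omega) (by omega)
  have v4 : gA c s 4 = 1 := A1 (by omega) (by omega)
  have w0 := Asf (c := c) hs h0
  have w1 : gA c s (Z - 1) = 1 := As1 hs
  have w2 : gA c s (Z - 2) = 0 := As2 hs
  have w3 : gA c s (Z - 3) = 1 := As3 hs
  have z0 : gA c s Z = 0 := A3 (by omega) (by omega)
  have z1 : gA c s (Z + 1) = 0 := A3 (by omega) (by omega)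
  have z2 : gA c s (Z + 2) = 0 := A3 (by omega) (by omega)
  have y0 : gA c s (Z + c) = 1 := A4
  have y1 : gA c s (Z + c + 1) = 1 := A5
  have y2 : gA c s (Z + c + 2) = 0 := A6
  have y3 : gA c s (Z + c + 3) = 1 := A7
  refine ⟨_, _, marker_of (n := c + 1) (e := true) (gA c s) Z (c + 4) φ
    (fun i j h => hφ _ _ (hlt i) (hlt j) h) ?_ ?_ ?_ (by omega) (by omega) ?_ ?_ ?_,
    by simp, by simp⟩
  · -- `T1` against itself
    intro q hq0 hq h
    by_cases k1 : q = 1
    · subst k1
      have := h 1 (by omega) (by omega)
      rw [v1, show 1 + 1 = 2 from rfl, v2] at this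
      omega
    by_cases k2 : q < 2 + c
    · have := h 0 (by omega) (by omega)
      rw [add_zero, v0, A1 (by omega) k2] at this
      omega
    by_cases k3 : q = Z - 1
    · have := h 0 (by omega) (by omega)
      rw [add_zero, v0, k3, w1] at this
      omega
    by_cases k4 : q = Z - 2
    · have := h 1 (by omega) (by omega)
      rw [v1, k4, show Z - 2 + 1 = Z - 1 by omega, w1] at this
      omega
    by_cases k5 : q = Z - 3
    · have := h 0 (by omega) (by omega)
      rw [add_zero, v0, k5, w3] at this
      omega
    by_cases k6 : q = Z - 4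
    · have := h 2 (by omega) (by omega)
      rw [v2, k6, show Z - 4 + 2 = Z - 2 by omega, w2] at this
      omega
    have h2 := h 2 (by omega) (by omega)
    have h3 := h 3 (by omega) (by omega)
    have h4 := h 4 (by omega) (by omega)
    rw [v2] at h2
    rw [v3] at h3
    rw [v4] at h4
    apply Athree (c := c) (s := s) (t := q + 2) (by omega) (by omega)
    rw [show q + 2 + 1 = q + 3 by omega, show q + 2 + 2 = q + 4 by omega]
    constructor <;> omega
  · -- `T2` inside `T1`
    intro q hq h
    by_cases k0 : q = 0
    · subst k0
      have := h 2 (by omega) (by omega)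
      rw [z2, show 0 + 2 = 2 from rfl, v2] at this
      omega
    by_cases k1 : q = 1
    · subst k1
      have := h 1 (by omega) (by omega)
      rw [z1, show 1 + 1 = 2 from rfl, v2] at this
      omega
    by_cases k2 : q < 2 + c
    · have := h 0 (by omega) (by omega)
      rw [add_zero, add_zero, z0, A1 (by omega) k2] at this
      omega
    by_cases k3 : q = Z - 1
    · have := h 0 (by omega) (by omega)
      rw [add_zero, add_zero, z0, k3, w1] at this
      omega
    by_cases k4 : q = Z - 2
    · have := h 1 (by omega) (by omega)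
      rw [z1, k4, show Z - 2 + 1 = Z - 1 by omega, w1] at this
      omega
    have h2 := h 0 (by omega) (by omega)
    have h3 := h 1 (by omega) (by omega)
    have h4 := h 2 (by omega) (by omega)
    rw [add_zero, add_zero, z0] at h2
    rw [z1] at h3
    rw [z2] at h4
    apply Athree (c := c) (s := s) (t := q) (by omega) (by omega)
    constructor <;> omega
  · -- `T1` inside `T2`
    intro q hq h
    by_cases k0 : q + 2 < c
    · have := h 2 (by omega) (by omega)
      rw [v2, A3 (by omega) (by omega)] at this
      omega
    by_cases k1 : q + 2 = c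
    · have := h 4 (by omega) (by omega)
      rw [v4, show Z + (q + 4) = Z + c + 2 by omega, y2] at this
      omega
    by_cases k2 : q + 1 = c
    · have := h 1 (by omega) (by omega)
      rw [v1, show Z + (q + 1) = Z + c by omega, y0] at this
      omega
    by_cases k3 : q = c
    · have := h 0 (by omega) (by omega)
      rw [v0, show Z + (q + 0) = Z + c by omega, y0] at this
      omega
    by_cases k4 : q = c + 1
    · have := h 0 (by omega) (by omega)
      rw [v0, show Z + (q + 0) = Z + c + 1 by omega, y1] at this
      omega
    by_cases k5 : q = c + 2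
    · have := h 1 (by omega) (by omega)
      rw [v1, show Z + (q + 1) = Z + c + 3 by omega, y3] at this
      omega
    · have := h 0 (by omega) (by omega)
      rw [v0, show Z + (q + 0) = Z + c + 3 by omega, y3] at this
      omega
  · -- no powers
    intro p q hp hq h
    have e0 : (c + 1) * p = c * p + p := by ring
    have hcp : c ≤ c * p := Nat.le_mul_of_pos_right _ hp
    have h4p : 4 * p ≤ c * p := Nat.mul_le_mul_right _ hc
    -- period one
    by_cases hp1 : p = 1
    · subst hp1
      rw [mul_one] at h hq
      -- the interval has `c + 1` letters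
      by_cases k1 : q ≤ 1
      · have := h 1 (by omega) (by omega)
        rw [v1, show 1 + 1 = 2 from rfl, v2] at this
        omega
      by_cases k2 : q < 2 + c
      · have := h (1 + c) (by omega) (by omega)
        rw [A1 (by omega) (by omega), show 1 + c + 1 = 2 + c by omega, w0] at this
        omega
      by_cases k3 : q + 2 < Z
      · have h5 := h q (by omega) (by omega)
        have h6 := h (q + 1) (by omega) (by omega)
        exact Athree (c := c) (s := s) (t := q) (by omega) k3 ⟨h5, h6⟩
      by_cases k4 : q < Z
      · have := h (Z - 1) (by omega) (by omega)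
        rw [w1, show Z - 1 + 1 = Z by omega, z0] at this
        omega
      · have := h (Z + c - 1) (by omega) (by omega)
        rw [A3 (by omega) (by omega), show Z + c - 1 + 1 = Z + c by omega, y0] at this
        omega
    have hp2 : 2 ≤ p := by omega
    have hc2 : c * 2 ≤ c * p := Nat.mul_le_mul_left _ hp2
    have hcp' : c + p ≤ c * p := by
      obtain ⟨p', rfl⟩ : ∃ p', p = p' + 1 := ⟨p - 1, by omega⟩
      have e1 : c * (p' + 1) = c * p' + c := by ring
      have h5 : 4 * p' ≤ c * p' := Nat.mul_le_mul_right _ hc
      omega
    -- the block of ones is not inside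
    have hA : ¬ (q ≤ 2 ∧ 2 + c ≤ q + (c + 1) * p) := by
      rintro ⟨h1, h2⟩
      apply Aones hc hs h0 (t := 2 + p) (by omega) (by omega)
      intro j hj
      have := h (2 + j) (by omega) (by omega)
      rw [A1 (by omega) (by omega)] at this
      rw [this]
      congr 1
      omega
    -- the block of zeros is not inside
    have hB : ¬ (q ≤ Z ∧ Z + c ≤ q + (c + 1) * p) := by
      rintro ⟨h1, h2⟩
      by_cases k1 : q + p ≤ Z
      · apply Azeros hc hs (t := Z - p) (by omega)
        intro j hj
        have := h (Z - p + j) (by omega) (by omega)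
        rw [this]
        exact A3 (by omega) (by omega)
      · have := h (Z + c - p) (by omega) (by omega)
        by_cases k2 : p ≤ c
        · rw [A3 (by omega) (by omega), show Z + c - p + p = Z + c by omega, y0] at this
          omega
        · omega
    have k1 : 3 ≤ q := by
      by_contra hcon
      omega
    have k2 : q + (c + 1) * p < Z + c := by
      by_contra hcon
      omega
    -- few ones at the beginning
    have hq1 : c ≤ q := by
      by_contra hcon
      have h5 := h q le_rfl (by omega)
      have h6 := h (q + 1) (by omega) (by omega)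
      have h7 := h (q + 2) (by omega) (by omega)
      rw [A1 (by omega) (by omega)] at h5 h6 h7
      have hpe : 2 + c < q + p := by
        by_contra hcon2
        have h8 := h (2 + c - p) (by omega) (by omega)
        rw [show 2 + c - p + p = 2 + c by omega, w0, A1 (by omega) (by omega)] at h8
        omega
      by_cases k3 : q + p + 2 < Z
      · apply Athree (c := c) (s := s) (t := q + p) (by omega) k3
        rw [show q + 1 + p = q + p + 1 by omega] at h6
        rw [show q + 2 + p = q + p + 2 by omega] at h7
        constructor <;> omega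
      · by_cases k4 : q + p ≤ Z
        · have k5 : q + p = Z ∨ q + 1 + p = Z ∨ q + 2 + p = Z := by omega
          rcases k5 with k5 | k5 | k5
          · rw [k5, z0] at h5
            omega
          · rw [k5, z0] at h6
            omega
          · rw [k5, z0] at h7
            omega
        · rw [A3 (j := q + p) (by omega) (by omega)] at h5
          omega
    -- few zeros at the end
    have hq2 : q + (c + 1) * p ≤ Z + 2 := by
      by_contra hcon
      have h5 := h (q + (c + 1) * p - 1 - p) (by omega) (by omega)
      have h6 := h (q + (c + 1) * p - 2 - p) (by omega) (by omega)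
      have h7 := h (q + (c + 1) * p - 3 - p) (by omega) (by omega)
      rw [A3 (j := q + (c + 1) * p - 1 - p + p) (by omega) (by omega)] at h5
      rw [A3 (j := q + (c + 1) * p - 2 - p + p) (by omega) (by omega)] at h6
      rw [A3 (j := q + (c + 1) * p - 3 - p + p) (by omega) (by omega)] at h7
      have hpe : q + (c + 1) * p < Z + p := by
        by_contra hcon2
        have h8 := h (Z - 1) (by omega) (by omega)
        rw [w1, A3 (by omega) (by omega)] at h8
        omega
      by_cases k3 : q + (c + 1) * p - 3 - p < 2 + c
      · rw [A1 (by omega) k3] at h7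
        omega
      · apply Athree (c := c) (s := s) (t := q + (c + 1) * p - 3 - p) (by omega) (by omega)
        rw [show q + (c + 1) * p - 3 - p + 1 = q + (c + 1) * p - 2 - p by omega,
          show q + (c + 1) * p - 3 - p + 2 = q + (c + 1) * p - 1 - p by omega]
        constructor <;> omega
    -- an overlap
    by_cases k3 : q < 2 + c
    · apply Aover (c := c) (s := s) (t := 2 + c) (p := p) hp le_rfl (by omega)
      intro j hj
      exact h (2 + c + j) (by omega) (by omega)
    · apply Aover (c := c) (s := s) (t := q) (p := p) hp (by omega) (by omega)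
      intro j hj
      exact h (q + j) (by omega) (by omega)
  · -- ends
    intro p i hp hpi hi h
    by_contra hcon
    push Not at hcon
    by_cases k1 : p = 1
    · subst k1
      have := h (Z + c + 2) (by omega) (by omega)
      rw [y2, show Z + c + 2 + 1 = Z + c + 3 by omega, y3] at this
      omega
    by_cases k2 : p = 2
    · subst k2
      have := h (Z + c) (by omega) (by omega)
      rw [y0, y2] at this
      omega
    by_cases k3 : p = 3
    · subst k3
      have := h (Z + c - 2) (by omega) (by omega)
      rw [A3 (by omega) (by omega), show Z + c - 2 + 3 = Z + c + 1 by omega, y1] at this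
      omega
    by_cases k4 : p ≤ c
    · have := h (Z + c - p) (by omega) (by omega)
      rw [A3 (by omega) (by omega), show Z + c - p + p = Z + c by omega, y0] at this
      omega
    by_cases k5 : p = c + 1
    · have := h (Z + c + 1 - p) (by omega) (by omega)
      rw [A3 (by omega) (by omega), show Z + c + 1 - p + p = Z + c + 1 by omega, y1] at this
      omega
    by_cases k6 : p = c + 2
    · have := h (Z + c + 3 - p) (by omega) (by omega)
      rw [A3 (by omega) (by omega), show Z + c + 3 - p + p = Z + c + 3 by omega, y3] at this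
      omega
    by_cases k7 : p = c + 3
    · have := h (Z + c + 3 - p) (by omega) (by omega)
      rw [A3 (by omega) (by omega), show Z + c + 3 - p + p = Z + c + 3 by omega, y3] at this
      omega
    apply Azeros hc hs (t := Z - p) (by omega)
    intro j hj
    have := h (Z - p + j) (by omega) (by omega)
    rw [this]
    exact A3 (by omega) (by omega)
  · -- beginnings
    intro p i hp hpi hi h
    by_contra hcon
    push Not at hcon
    obtain ⟨hcon1, hcon2⟩ := hcon
    by_cases k1 : p = 1
    · subst k1
      have hi2 := hcon2 rfl rfl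
      have := h 1 (by omega)
      rw [v1, show 1 + 1 = 2 from rfl, v2] at this
      omega
    by_cases k2 : p < 2 + c
    · have := h 0 (by omega)
      rw [v0, zero_add, A1 (by omega) k2] at this
      omega
    apply Aones hc hs h0 (t := 2 + p) (by omega) (by omega)
    intro j hj
    have := h (2 + j) (by omega)
    rw [A1 (by omega) (by omega)] at this
    rw [this]
    congr 1
    omega

end Pool.Agent.Helper14.ER
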