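import Pool.Agent.Helper14.ER.Rate
import Pool.Agent.Helper14.ER.MarkA

/-!
# Exact rate for strongly k-abelian powers: final statements
-/

set_option autoImplicit false

namespace Pool.Agent.Helper14.ER

open Pool.Agent.Helper14.SK Pool.Agent.Helper18.SK Filter Topology

theorem card_le_pow {α : Type} [DecidableEq α] [Fintype α] {n : ℕ} (hn : 1 ≤ n) (j : ℕ) :
    (G α n j).card ≤ (G α n 1).card ^ j := by
  induction j with
  | zero => simp [G]
  | succ j ih =>
    rw [pow_succ]
    exact (card_add hn j 1).trans (Nat.mul_le_mul_right _ ih)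

theorem card_one_le {α : Type} [DecidableEq α] [Fintype α] {n : ℕ} (hn : 1 ≤ n) :
    (G α n 1).card ≤ Fintype.card α := by
  have h1 : G α n 1 ⊆ (Finset.univ : Finset α).image (fun a => [a]) := by
    intro w hw
    rw [mem_G hn] at hw
    obtain ⟨a, rfl⟩ := List.length_eq_one_iff.1 hw.2
    exact Finset.mem_image.2 ⟨a, Finset.mem_univ _, rfl⟩
  exact (Finset.card_le_card h1).trans (Finset.card_image_le.trans (by rw [Finset.card_univ]))

theorem pFree_mono {α : Type} {E n : ℕ} (h : E ≤ n) {w : List α} (hw : PFree E w) : PFree n w := by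
  intro z hz hi
  refine hw z hz (List.IsInfix.trans ?_ hi)
  obtain ⟨d, rfl⟩ : ∃ d, n = E + d := ⟨n - E, by omega⟩
  rw [List.replicate_add, List.flatten_append]
  exact ⟨[], (List.replicate d z).flatten, by simp⟩

theorem F_le {n : ℕ} {x r y : ℝ} (hx : 0 ≤ x) (hr : x ^ (n - 1) ≤ r) (hy : x ^ (n - 2) ≤ y)
    (hr1 : r < 1) (hy1 : y < 1) : F n x ≤ r / (1 - r) ^ 2 + x * (y ^ 2 / (1 - y) ^ 2) := by
  unfold F
  have h1 : 0 ≤ x ^ (n - 1) := by positivity
  have h2 : 0 ≤ x ^ (n - 2) := by positivity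
  refine add_le_add ?_ (mul_le_mul_of_nonneg_left ?_ hx)
  · exact div_le_div₀ (h1.trans hr) hr (by nlinarith) (by nlinarith)
  · exact div_le_div₀ (by positivity) (by nlinarith) (by nlinarith) (by nlinarith)

/-- A lower bound for the number of power-free words. -/
theorem beta_ok' (m E : ℕ) (h : (3 ≤ m ∧ 3 ≤ E) ∨ (2 ≤ m ∧ 5 ≤ E)) :
    (1 : ℝ) ≤ (m : ℝ) - 2 / (m : ℝ) ^ (E - 2) ∧
      ((m : ℝ) - 2 / (m : ℝ) ^ (E - 2)) ^ E ≤
        (m : ℝ) * (((m : ℝ) - 2 / (m : ℝ) ^ (E - 2)) ^ (E - 1) - 1) := by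
  rcases h with ⟨hm, hE⟩ | ⟨hm, hE⟩
  swap
  · exact beta_ok m E hm hE
  obtain ⟨e, rfl⟩ : ∃ e, E = e + 2 := ⟨E - 2, by omega⟩
  rw [show e + 2 - 2 = e by omega, show e + 2 - 1 = e + 1 by omega]
  have hm' : (3 : ℝ) ≤ m := by exact_mod_cast hm
  have hm0 : (0 : ℝ) < m := by linarith
  set M : ℝ := (m : ℝ) with hM
  have hpow : (4 : ℝ) * ((e : ℝ) + 1) ≤ M ^ (e + 1) := by
    have h1 : ∀ j : ℕ, (4 : ℝ) * ((j : ℝ) + 1 + 1) ≤ 3 ^ (j + 1 + 1) := by
      intro j
      induction j with
      | zero => norm_num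
      | succ j ih =>
        push_cast
        rw [pow_succ]
        have : (0 : ℝ) ≤ j := by positivity
        linarith
    have h2 := h1 (e - 1)
    rw [show e - 1 + 1 + 1 = e + 1 by omega] at h2
    rw [Nat.cast_sub (by omega)] at h2
    push_cast at h2
    calc (4 : ℝ) * ((e : ℝ) + 1) = 4 * ((e : ℝ) - 1 + 1 + 1) := by ring
      _ ≤ 3 ^ (e + 1) := h2
      _ ≤ M ^ (e + 1) := pow_le_pow_left₀ (by norm_num) hm' _
  set X := M ^ (e + 1) with hX
  have hX0 : 0 < X := by positivity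
  have hXe : M ^ e * M = X := by rw [hX, pow_succ]
  have hMe0 : 0 < M ^ e := by positivity
  have hβ : M - 2 / M ^ e = M * (1 - 2 / X) := by
    rw [← hXe]
    field_simp
  have he3 : (1 : ℝ) ≤ e := by exact_mod_cast (by omega : 1 ≤ e)
  have hX16 : 8 ≤ X := by linarith
  have hx : 2 / X ≤ 1 / 4 := by
    rw [div_le_div_iff₀ hX0 (by norm_num)]
    linarith
  rw [hβ]
  set x := 2 / X with hxdef
  have hx0 : 0 < x := by positivity
  constructor
  · nlinarith
  · have hb : (1 : ℝ) / 2 ≤ (1 - x) ^ (e + 1) := by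
      have h1 := one_add_mul_le_pow (a := -x) (by linarith) (e + 1)
      have h2 : ((e + 1 : ℕ) : ℝ) * x ≤ 1 / 2 := by
        rw [hxdef]
        push_cast
        rw [mul_div_assoc', div_le_div_iff₀ hX0 (by norm_num)]
        linarith
      have h3 : (1 : ℝ) + -x = 1 - x := by ring
      rw [h3] at h1
      linarith
    have h5 : (M * (1 - x)) ^ (e + 1) = X * (1 - x) ^ (e + 1) := by
      rw [hX, mul_pow]
    have h4 : (M * (1 - x)) ^ (e + 2) = M * (1 - x) * (X * (1 - x) ^ (e + 1)) := by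
      rw [← h5]
      ring
    rw [h4, h5]
    have hxX : x * X = 2 := by
      rw [hxdef]
      field_simp
    set Y := X * (1 - x) ^ (e + 1) with hY
    have h6 : 1 ≤ x * Y := by
      have : x * Y = (x * X) * (1 - x) ^ (e + 1) := by
        rw [hY]
        ring
      rw [this, hxX]
      linarith
    nlinarith

/-- A lower bound for the growth rate. -/
theorem grow_le {α : Type} [DecidableEq α] [Fintype α] {n : ℕ} {lam : ℝ}
    (hup : ∀ μ > lam, ∃ C : ℝ, 1 ≤ C ∧ ∀ j : ℕ, ((G α n j).card : ℝ) ≤ C * Real.exp (μ * j))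
    (β : ℝ) (hβ : 1 ≤ β) (hj : ∀ j : ℕ, β ^ j ≤ ((G α n j).card : ℝ)) : Real.log β ≤ lam := by
  by_contra hc
  push Not at hc
  obtain ⟨μ, hμ1, hμ2⟩ := exists_between hc
  obtain ⟨C, hC1, hC⟩ := hup μ hμ1
  -- `β ^ j ≤ C exp (μ j)` for all `j`
  have h1 : ∀ j : ℕ, (j : ℝ) * (Real.log β - μ) ≤ Real.log C := by
    intro j
    have h2 := (hj j).trans (hC j)
    have h3 := Real.log_le_log (by positivity) h2
    rw [Real.log_pow, Real.log_mul (by linarith) (Real.exp_pos _).ne', Real.log_exp] at h3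
    linarith
  obtain ⟨j, hj⟩ := exists_nat_gt (Real.log C / (Real.log β - μ))
  rw [div_lt_iff₀ (by linarith)] at hj
  exact absurd (h1 j) (not_le.2 hj)

/-- The lower bound for the rate, for the two cases. -/
theorem lower_fin (m n : ℕ) (h : (3 ≤ m ∧ 3 ≤ n) ∨ (m = 2 ∧ 5 ≤ n)) {lam : ℝ}
    (hlow : ∀ j : ℕ, Real.exp (lam * j) ≤ (G (Fin m) n j).card)
    (hup : ∀ μ > lam, ∃ C : ℝ, 1 ≤ C ∧ ∀ j : ℕ,
      ((G (Fin m) n j).card : ℝ) ≤ C * Real.exp (μ * j)) (δ : ℝ) (hδ : 0 < δ) :
    ∀ᶠ k : ℕ in atTop, ∃ (w : List (Fin m)) (Y : ℕ), Avoids k n w ∧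
      (n - 1) ^ Y ≤ w.length + 1 ∧ 1 ≤ Y ∧ (1 - δ) * lam * k ≤ Real.log Y := by
  have hgrow := grow_le hup
  rcases h with ⟨hm, hn⟩ | ⟨rfl, hn⟩
  · have hβ : ∀ j : ℕ, (5 / 2 : ℝ) ^ j ≤ ((G (Fin m) n j).card : ℝ) := by
      intro j
      have h1 := pow_le_card (α := Fin m) (E := 3) (by norm_num) (β := 5 / 2) (by norm_num) (by
        rw [Fintype.card_fin]
        have : (3 : ℝ) ≤ m := by exact_mod_cast hm
        norm_num
        linarith) j
      refine h1.trans ?_
      norm_cast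
      refine Finset.card_le_card fun w hw => ?_
      rw [mem_G (by norm_num)] at hw
      rw [mem_G (by omega)]
      exact ⟨pFree_mono hn hw.1, hw.2⟩
    have hlog := hgrow (5 / 2) (by norm_num) hβ
    refine lower_rate (e := false) (x := 20 / 49) hn (by norm_num) (by norm_num) ?_ hlow hup ?_ ?_
      δ hδ
    · have hF := F_le (n := n) (x := 20 / 49) (r := (20 / 49) ^ 2) (y := (20 / 49) ^ 1)
        (by norm_num) (pow_le_pow_of_le_one (by norm_num) (by norm_num) (by omega))
        (pow_le_pow_of_le_one (by norm_num) (by norm_num) (by omega)) (by norm_num) (by norm_num)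
      rw [if_neg (by simp)]
      norm_num at hF
      linarith
    · have h1 : Real.log (20 / 49) = - Real.log (49 / 20) := by
        rw [← Real.log_inv]
        norm_num
      have h2 : Real.log (49 / 20) < Real.log (5 / 2) :=
        Real.log_lt_log (by norm_num) (by norm_num)
      linarith
    · refine ⟨8, fun s => ?_⟩
      have hab : (⟨0, by omega⟩ : Fin m) ≠ ⟨1, by omega⟩ := by simp
      have hac : (⟨0, by omega⟩ : Fin m) ≠ ⟨2, by omega⟩ := by simp
      have hbc : (⟨1, by omega⟩ : Fin m) ≠ ⟨2, by omega⟩ := by simp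
      obtain ⟨T1, T2, h1, h2, h3⟩ := markerB _ _ _ hab hac hbc hn (s + 2) (by omega)
      refine ⟨T1, T2, h1, by omega, ?_⟩
      rw [List.length_append]
      omega
  · have hβ : ∀ j : ℕ, (7 / 4 : ℝ) ^ j ≤ ((G (Fin 2) n j).card : ℝ) := by
      intro j
      have h1 := pow_le_card (α := Fin 2) (E := 5) (by norm_num) (β := 7 / 4) (by norm_num) (by
        rw [Fintype.card_fin]
        norm_num) j
      refine h1.trans ?_
      norm_cast
      refine Finset.card_le_card fun w hw => ?_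
      rw [mem_G (by norm_num)] at hw
      rw [mem_G (by omega)]
      exact ⟨pFree_mono hn hw.1, hw.2⟩
    have hlog := hgrow (7 / 4) (by norm_num) hβ
    refine lower_rate (e := true) (x := 10 / 17) (by omega) (by norm_num) (by norm_num) ?_ hlow hup
      ?_ ?_ δ hδ
    · have h1 : ((10 : ℝ) / 17) ^ (n - 2) ≤ (10 / 17) ^ 3 :=
        pow_le_pow_of_le_one (by norm_num) (by norm_num) (by omega)
      have hF := F_le (n := n) (x := 10 / 17) (r := (10 / 17) ^ 4) (y := (10 / 17) ^ 3)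
        (by norm_num) (pow_le_pow_of_le_one (by norm_num) (by norm_num) (by omega)) h1
        (by norm_num) (by norm_num)
      rw [if_pos rfl]
      norm_num at hF h1
      linarith
    · have h1 : Real.log (10 / 17) = - Real.log (17 / 10) := by
        rw [← Real.log_inv]
        norm_num
      have h2 : Real.log (17 / 10) < Real.log (7 / 4) :=
        Real.log_lt_log (by norm_num) (by norm_num)
      linarith
    · refine ⟨2 * n + 12, fun s => ?_⟩
      have hab : (⟨0, by omega⟩ : Fin 2) ≠ ⟨1, by omega⟩ := by simp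
      -- a length with the right last letter
      obtain ⟨s', hs1, hs2, hs3⟩ : ∃ s', s + 4 ≤ s' ∧ s' ≤ s + 8 ∧ tm (s' + 1) = 0 := by
        have h1 := tm_even ((s + 6) / 2)
        have h2 := tm_odd ((s + 6) / 2)
        have h3 := tm_lt ((s + 6) / 2)
        by_cases h4 : tm ((s + 6) / 2) = 0
        · refine ⟨2 * ((s + 6) / 2) - 1, by omega, by omega, ?_⟩
          rw [show 2 * ((s + 6) / 2) - 1 + 1 = 2 * ((s + 6) / 2) by omega, h1, h4]
        · refine ⟨2 * ((s + 6) / 2), by omega, by omega, ?_⟩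
          rw [h2]
          omega
      obtain ⟨T1, T2, h1, h2, h3⟩ := markerA _ _ hab (n - 1) s' (by omega) (by omega) hs3
      rw [show n - 1 + 1 = n by omega] at h1
      refine ⟨T1, T2, h1, by omega, ?_⟩
      rw [List.length_append]
      omega

end Pool.Agent.Helper14.ER
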