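import Pool.Agent.Helper14.ER.Cnt

/-!
# Exact rate for strongly k-abelian powers: the number of words that fit between two markers
-/

set_option autoImplicit false

namespace Pool.Agent.Helper14.ER

open Pool.Agent.Helper14.SK Pool.Agent.Helper18.SK

section

variable {α : Type}

/-- `y` has period `p`. -/
def Per (p : ℕ) (y : List α) : Prop := ∀ j, j + p < y.length → y[j]? = y[j + p]?

theorem Per.inj {p : ℕ} (hp : 0 < p) {y1 y2 : List α} (h1 : Per p y1) (h2 : Per p y2)
    (hl : y1.length = y2.length) (h : y1.take p = y2.take p) : y1 = y2 := by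
  apply List.ext_getElem?
  intro j
  by_cases hj : j < y1.length
  · rw [per_mod (fun t => y1[t]?) _ p h1 j hj, per_mod (fun t => y2[t]?) _ p h2 j (by omega)]
    have h3 := congrArg (fun l => l[j % p]?) h
    beta_reduce at h3
    rw [List.getElem?_take, List.getElem?_take, if_pos (Nat.mod_lt _ hp),
      if_pos (Nat.mod_lt _ hp)] at h3
    exact h3
  · rw [List.getElem?_eq_none (by omega), List.getElem?_eq_none (by omega)]

variable [DecidableEq α] [Fintype α]

open Classical in
theorem per_card {n : ℕ} (hn : 1 ≤ n) {p N : ℕ} (hp : 0 < p) (hpN : p ≤ N) :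
    ((G α n N).filter (Per p)).card ≤ (G α n p).card := by
  refine Finset.card_le_card_of_injOn (fun y => y.take p) ?_ ?_
  · intro y hy
    rw [Finset.mem_coe, Finset.mem_filter, mem_G hn] at hy
    rw [Finset.mem_coe]
    simp only
    rw [mem_G hn]
    refine ⟨hy.1.1.sub (List.take_prefix _ _).isInfix, ?_⟩
    rw [List.length_take, hy.1.2]
    omega
  · intro y1 h1 y2 h2 h
    rw [Finset.mem_coe, Finset.mem_filter, mem_G hn] at h1 h2
    exact h1.2.inj hp h2.2 (by rw [h1.1.2, h2.1.2]) h

open Classical in
theorem in_card {n : ℕ} (hn : 1 ≤ n) {C B : ℝ} (hB : 1 ≤ B)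
    (hA : ∀ j, ((G α n j).card : ℝ) ≤ C * B ^ j) (T1 : List α) (N : ℕ) :
    (((G α n N).filter (fun y => T1 <:+: y)).card : ℝ) ≤
      (N + 1) * C ^ 2 * B ^ (N - T1.length) := by
  have hC : 0 ≤ C := by
    have := hA 0
    rw [pow_zero, mul_one] at this
    exact le_trans (by positivity) this
  by_cases hT : T1.length ≤ N
  · have hcov : (G α n N).filter (fun y => T1 <:+: y) ⊆
        (Finset.range (N - T1.length + 1)).biUnion (fun j =>
          ((G α n j) ×ˢ (G α n (N - T1.length - j))).image (fun st => st.1 ++ T1 ++ st.2)) := by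
      intro y hy
      rw [Finset.mem_filter, mem_G hn] at hy
      obtain ⟨⟨hy1, hy2⟩, s, t, hst⟩ := hy
      have hl := congrArg List.length hst
      rw [List.length_append, List.length_append] at hl
      rw [Finset.mem_biUnion]
      refine ⟨s.length, Finset.mem_range.2 (by omega), ?_⟩
      rw [Finset.mem_image]
      refine ⟨(s, t), ?_, hst⟩
      rw [Finset.mem_product, mem_G hn, mem_G hn]
      refine ⟨⟨hy1.sub ?_, rfl⟩, hy1.sub ?_, by simp only; omega⟩
      · exact ⟨[], T1 ++ t, by rw [← hst]; simp⟩
      · exact ⟨s ++ T1, [], by rw [← hst]; simp⟩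
    have h1 : ((G α n N).filter (fun y => T1 <:+: y)).card ≤
        ∑ j ∈ Finset.range (N - T1.length + 1), (G α n j).card * (G α n (N - T1.length - j)).card := by
      refine (Finset.card_le_card hcov).trans (Finset.card_biUnion_le.trans ?_)
      refine Finset.sum_le_sum fun j _ => ?_
      refine Finset.card_image_le.trans ?_
      rw [Finset.card_product]
    calc (((G α n N).filter (fun y => T1 <:+: y)).card : ℝ)
        ≤ ∑ j ∈ Finset.range (N - T1.length + 1),
          ((G α n j).card : ℝ) * ((G α n (N - T1.length - j)).card : ℝ) := by exact_mod_cast h1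
      _ ≤ ∑ j ∈ Finset.range (N - T1.length + 1), C ^ 2 * B ^ (N - T1.length) := by
          refine Finset.sum_le_sum fun j hj => ?_
          rw [Finset.mem_range] at hj
          calc ((G α n j).card : ℝ) * ((G α n (N - T1.length - j)).card : ℝ)
              ≤ (C * B ^ j) * (C * B ^ (N - T1.length - j)) :=
                mul_le_mul (hA _) (hA _) (by positivity) (by positivity)
            _ = C ^ 2 * (B ^ j * B ^ (N - T1.length - j)) := by ring
            _ = C ^ 2 * B ^ (N - T1.length) := by
                rw [← pow_add]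
                congr 2
                omega
      _ = ((N - T1.length + 1 : ℕ) : ℝ) * (C ^ 2 * B ^ (N - T1.length)) := by
          rw [Finset.sum_const, nsmul_eq_mul, Finset.card_range]
      _ ≤ ((N : ℝ) + 1) * (C ^ 2 * B ^ (N - T1.length)) := by
          refine mul_le_mul_of_nonneg_right ?_ (by positivity)
          exact_mod_cast (by omega : N - T1.length + 1 ≤ N + 1)
      _ = _ := by ring
  · rw [Finset.filter_false_of_mem]
    · simp only [Finset.card_empty, Nat.cast_zero]
      positivity
    · intro y hy h
      rw [mem_G hn] at hy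
      have := h.length_le
      omega

omit [DecidableEq α] [Fintype α] in
theorem PFree.rev {n : ℕ} {y : List α} (h : PFree n y) : PFree n y.reverse := by
  intro z hz hi
  refine h z.reverse (by simpa using hz) ?_
  have h1 : (List.replicate n z.reverse).flatten = ((List.replicate n z).flatten).reverse := by
    rw [List.reverse_flatten, List.map_replicate, List.reverse_replicate]
  rw [h1]
  have h2 := List.reverse_infix.2 hi
  rwa [List.reverse_reverse] at h2

open Classical in
theorem cover {n : ℕ} (hn : 3 ≤ n) {e : Bool} {T1 T2 : List α} (hM : Marker n e T1 T2) (N : ℕ) :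
    G α n N ⊆
      (G α n N).filter (fun y => ¬ T1 <:+: y ∧ PFree n ((T1 ++ T2) ++ y ++ (T1 ++ T2))) ∪
      ((G α n N).filter (fun y => T1 <:+: y) ∪
      ((G α n N).filter (fun y => ∃ p i, 0 < p ∧ 0 < i ∧ i ≤ (T1 ++ T2).length ∧
        LB (T1 ++ T2) n p i y) ∪
      ((G α n N).filter (fun y => ∃ p i, 0 < p ∧ 0 < i ∧ i ≤ (T1 ++ T2).reverse.length ∧
        LB (T1 ++ T2).reverse n p i y.reverse) ∪
      (Finset.Icc 1 ((2 * (T1 ++ T2).length + N) / n)).biUnion
        (fun p => (G α n N).filter (Per p))))) := by
  set T := T1 ++ T2 with hT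
  set τ := T.length with hτ
  intro y hy
  have hy' := hy
  rw [mem_G (by omega)] at hy'
  obtain ⟨hyf, hyl⟩ := hy'
  rw [Finset.mem_union, Finset.mem_union, Finset.mem_union, Finset.mem_union, Finset.mem_filter,
    Finset.mem_filter, Finset.mem_filter, Finset.mem_filter]
  by_cases c0 : T1 <:+: y
  · exact Or.inr (Or.inl ⟨hy, c0⟩)
  by_cases c1 : PFree n (T ++ y ++ T)
  · exact Or.inl ⟨hy, c0, c1⟩
  right; right
  unfold PFree at c1
  push Not at c1
  obtain ⟨z, hz, hinf⟩ := c1
  have hzl : 1 ≤ z.length := List.length_pos_iff.2 hz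
  obtain ⟨q, hq⟩ := at_of_infix hinf
  set u := (List.replicate n z).flatten with hu
  have hul : u.length = n * z.length := pow_length z n
  have hq1 := hq.1
  rw [List.length_append, List.length_append, ← hτ, hyl, hul] at hq1
  have hnz : 3 * z.length ≤ n * z.length := Nat.mul_le_mul_right _ hn
  by_cases a1 : q + n * z.length ≤ τ
  · exfalso
    rw [List.append_assoc] at hq
    exact hM.pf z hz (hq.left (by rw [hul]; exact a1)).inw
  by_cases a2 : τ + N ≤ q
  · exfalso
    exact hM.pf z hz (hq.right (by rw [List.length_append, hyl]; exact a2)).inw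
  by_cases a3 : τ ≤ q ∧ q + n * z.length ≤ τ + N
  · exfalso
    have h1 := hq.left (by rw [List.length_append, hul, hyl]; exact a3.2)
    exact hyf z hz (h1.right a3.1).inw
  have hper := hq.per
  have hXl : ∀ j, j < τ → (T ++ y ++ T)[j]? = T[j]? := by
    intro j hj
    rw [List.append_assoc, List.getElem?_append_left hj]
  have hXm : ∀ j, j < N → (T ++ y ++ T)[τ + j]? = y[j]? := by
    intro j hj
    rw [List.append_assoc, List.getElem?_append_right (by omega),
      List.getElem?_append_left (by omega)]
    congr 1
    omega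
  have hXr : ∀ j, j < τ → (T ++ y ++ T)[τ + N + j]? = T[j]? := by
    intro j hj
    rw [List.getElem?_append_right (by rw [List.length_append]; omega), List.length_append]
    congr 1
    omega
  by_cases a4 : q + n * z.length ≤ τ + N
  · -- on the left
    left
    refine ⟨hy, z.length, τ - q, hzl, by omega, by omega, by omega, by omega, ?_⟩
    intro j hj
    have key : ∀ i, i < n * z.length →
        (T.drop (T.length - (τ - q)) ++ y)[i]? = (T ++ y ++ T)[q + i]? := by
      intro i hi
      by_cases b1 : i < τ - q
      · rw [List.getElem?_append_left (by rw [List.length_drop]; omega), List.getElem?_drop,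
          hXl _ (by omega)]
        congr 1
        omega
      · rw [List.getElem?_append_right (by rw [List.length_drop]; omega), List.length_drop,
          show q + i = τ + (q + i - τ) by omega, hXm _ (by omega)]
        congr 1
        omega
    rw [key _ (by omega), key _ hj, hper (q + j) (by omega) (by omega)]
    congr 1
    omega
  right
  by_cases a5 : τ ≤ q
  · -- on the right
    left
    set i0 := q + n * z.length - (τ + N) with hi0
    refine ⟨hy, z.length, i0, hzl, by omega, by rw [List.length_reverse]; omega,
      by omega, by rw [List.length_reverse]; omega, ?_⟩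
    intro j hj
    have key : ∀ i, i < n * z.length →
        (T.reverse.drop (T.reverse.length - i0) ++ y.reverse)[i]? =
          (T ++ y ++ T)[q + n * z.length - 1 - i]? := by
      intro i hi
      by_cases b1 : i < i0
      · rw [List.getElem?_append_left (by rw [List.length_drop, List.length_reverse]; omega),
          List.getElem?_drop, List.length_reverse, List.getElem?_reverse (by omega),
          show q + n * z.length - 1 - i = τ + N + (i0 - 1 - i) by omega, hXr _ (by omega)]
        congr 1
        omega
      · rw [List.getElem?_append_right (by rw [List.length_drop, List.length_reverse]; omega),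
          List.length_drop, List.length_reverse, List.getElem?_reverse (by omega),
          show q + n * z.length - 1 - i = τ + (q + n * z.length - 1 - i - τ) by omega,
          hXm _ (by omega)]
        congr 1
        omega
    rw [key _ (by omega), key _ hj]
    have h1 := hper (q + n * z.length - 1 - (j + z.length)) (by omega) (by omega)
    rw [h1]
    congr 1
    omega
  · -- on both sides
    right
    rw [Finset.mem_biUnion]
    refine ⟨z.length, ?_, ?_⟩
    · rw [Finset.mem_Icc]
      refine ⟨hzl, ?_⟩
      rw [Nat.le_div_iff_mul_le (by omega), mul_comm]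
      omega
    · rw [Finset.mem_filter]
      refine ⟨hy, ?_⟩
      intro j hj
      rw [hyl] at hj
      rw [← hXm _ (by omega), ← hXm _ hj, hper (τ + j) (by omega) (by omega)]
      congr 1
      omega

open Classical in
theorem good_card {n : ℕ} (hn : 3 ≤ n) {e : Bool} {T1 T2 : List α} (hM : Marker n e T1 T2)
    {N : ℕ} {x : ℝ} (hx : 0 < x) (hx1 : x < 1)
    (hrec : ∀ j ≤ N, ((G α n (N - j)).card : ℝ) ≤ x ^ j * (G α n N).card)
    {C B : ℝ} (hB : 1 ≤ B) (hA : ∀ j, ((G α n j).card : ℝ) ≤ C * B ^ j) {P : ℕ}
    (hP : (2 * (T1 ++ T2).length + N) / n ≤ P) (hPN : P ≤ N) :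
    ((G α n N).card : ℝ) ≤
      ((G α n N).filter (fun y => ¬ T1 <:+: y ∧
        PFree n ((T1 ++ T2) ++ y ++ (T1 ++ T2)))).card +
      (2 * F n x + if e = true then x ^ (n - 2) else 0) * (G α n N).card +
      (N + 1) * C ^ 2 * B ^ (N - T1.length) + N * C * B ^ P := by
  have hC : 0 ≤ C := by
    have := hA 0
    rw [pow_zero, mul_one] at this
    exact le_trans (by positivity) this
  have h0 := Finset.card_le_card (cover hn hM N)
  set S1 := (G α n N).filter (fun y => ¬ T1 <:+: y ∧ PFree n ((T1 ++ T2) ++ y ++ (T1 ++ T2)))
    with hS1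
  set S2 := (G α n N).filter (fun y => T1 <:+: y) with hS2
  set S3 := (G α n N).filter (fun y => ∃ p i, 0 < p ∧ 0 < i ∧ i ≤ (T1 ++ T2).length ∧
        LB (T1 ++ T2) n p i y) with hS3
  set S4 := (G α n N).filter (fun y => ∃ p i, 0 < p ∧ 0 < i ∧ i ≤ (T1 ++ T2).reverse.length ∧
        LB (T1 ++ T2).reverse n p i y.reverse) with hS4
  set S5 := (Finset.Icc 1 ((2 * (T1 ++ T2).length + N) / n)).biUnion
        (fun p => (G α n N).filter (Per p)) with hS5
  have h1 : (G α n N).card ≤ S1.card + (S2.card + (S3.card + (S4.card + S5.card))) := by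
    refine h0.trans ?_
    have a1 := Finset.card_union_le S1 (S2 ∪ (S3 ∪ (S4 ∪ S5)))
    have a2 := Finset.card_union_le S2 (S3 ∪ (S4 ∪ S5))
    have a3 := Finset.card_union_le S3 (S4 ∪ S5)
    have a4 := Finset.card_union_le S4 S5
    omega
  have h1' : ((G α n N).card : ℝ) ≤ S1.card + (S2.card + (S3.card + (S4.card + S5.card))) := by
    exact_mod_cast h1
  have h2 : (S2.card : ℝ) ≤ (N + 1) * C ^ 2 * B ^ (N - T1.length) := in_card (by omega) hB hA T1 N
  have h3 : (S3.card : ℝ) ≤ F n x * (G α n N).card := by
    have h := left_card (N := N) hn (T1 ++ T2) false (by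
      intro p i hp hpi hi hj
      exact Or.inl (hM.suf p i hp hpi hi hj)) hx hx1 hrec
    rwa [if_neg (by simp), add_zero] at h
  have h4 : (S4.card : ℝ) ≤ (F n x + if e = true then x ^ (n - 2) else 0) * (G α n N).card := by
    have h := left_card (N := N) hn (T1 ++ T2).reverse e (by
      intro p i hp hpi hi hj
      rw [List.length_reverse] at hi hj
      refine hM.pre p i hp hpi hi ?_
      intro j hjp
      have h5 := hj ((T1 ++ T2).length - 1 - (j + p)) (by omega) (by omega)
      rw [List.getElem?_reverse (by omega), List.getElem?_reverse (by omega)] at h5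
      rw [show (T1 ++ T2).length - 1 - ((T1 ++ T2).length - 1 - (j + p) + p) = j by omega,
        show (T1 ++ T2).length - 1 - ((T1 ++ T2).length - 1 - (j + p)) = j + p by omega] at h5
      exact h5.symm) hx hx1 hrec
    refine le_trans ?_ h
    norm_cast
    refine Finset.card_le_card_of_injOn (fun y => y.reverse) ?_ ?_
    · intro y hy
      rw [hS4, Finset.mem_coe, Finset.mem_filter, mem_G (by omega)] at hy
      rw [Finset.mem_coe, Finset.mem_filter, mem_G (by omega)]
      refine ⟨⟨PFree.rev hy.1.1, ?_⟩, hy.2⟩
      rw [List.length_reverse]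
      exact hy.1.2
    · intro y1 _ y2 _ h
      exact List.reverse_injective h
  have h5 : (S5.card : ℝ) ≤ N * C * B ^ P := by
    have h6 : S5.card ≤ ∑ p ∈ Finset.Icc 1 ((2 * (T1 ++ T2).length + N) / n),
        ((G α n N).filter (Per p)).card := Finset.card_biUnion_le
    calc (S5.card : ℝ) ≤ ∑ p ∈ Finset.Icc 1 ((2 * (T1 ++ T2).length + N) / n),
          (((G α n N).filter (Per p)).card : ℝ) := by exact_mod_cast h6
      _ ≤ ∑ p ∈ Finset.Icc 1 ((2 * (T1 ++ T2).length + N) / n), C * B ^ P := by
          refine Finset.sum_le_sum fun p hp => ?_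
          rw [Finset.mem_Icc] at hp
          have h7 := per_card (α := α) (n := n) (by omega) (p := p) (N := N) (by omega) (by omega)
          calc (((G α n N).filter (Per p)).card : ℝ) ≤ ((G α n p).card : ℝ) := by exact_mod_cast h7
            _ ≤ C * B ^ p := hA p
            _ ≤ C * B ^ P :=
                mul_le_mul_of_nonneg_left (pow_le_pow_right₀ hB (by omega)) hC
      _ = (((2 * (T1 ++ T2).length + N) / n : ℕ) : ℝ) * (C * B ^ P) := by
          rw [Finset.sum_const, nsmul_eq_mul, Nat.card_Icc, Nat.add_sub_cancel]
      _ ≤ (N : ℝ) * (C * B ^ P) := by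
          refine mul_le_mul_of_nonneg_right ?_ (by positivity)
          exact_mod_cast (by omega : (2 * (T1 ++ T2).length + N) / n ≤ N)
      _ = _ := by ring
  rw [two_mul]
  linarith

end

end Pool.Agent.Helper14.ER
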