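import Pool.Agent.Helper14.ER.Good

/-!
# Order of log L: long words from words of length `k` separated by a marker
-/

set_option autoImplicit false

namespace Pool.Agent.Helper14.ER

open Pool.Agent.Helper14.SK Pool.Agent.Helper18.SK

/-! ### Occurrences and positions -/

section

variable {α : Type}

theorem at_zero_iff {x w : List α} : At x w 0 ↔ x <+: w := by
  constructor
  · intro h
    have h1 : w.take x.length = x := by
      apply List.ext_getElem?
      intro j
      rw [List.getElem?_take]
      split_ifs with hj
      · rw [← h.2 j hj, Nat.zero_add]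
      · rw [List.getElem?_eq_none (by omega)]
    rw [← h1]
    exact List.take_prefix _ _
  · rintro ⟨t, rfl⟩
    refine ⟨by simp, fun j hj => ?_⟩
    rw [Nat.zero_add, List.getElem?_append_left hj]

theorem at_cons_iff {x w : List α} {c : α} {q : ℕ} : At x (c :: w) (q + 1) ↔ At x w q := by
  constructor
  · rintro ⟨h1, h2⟩
    rw [List.length_cons] at h1
    refine ⟨by omega, fun j hj => ?_⟩
    rw [← h2 j hj, show q + 1 + j = (q + j) + 1 by omega, List.getElem?_cons_succ]
  · rintro ⟨h1, h2⟩
    refine ⟨by rw [List.length_cons]; omega, fun j hj => ?_⟩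
    rw [← h2 j hj, show q + 1 + j = (q + j) + 1 by omega, List.getElem?_cons_succ]

theorem At.app {x w : List α} {q : ℕ} (h : At x w q) (a b : List α) :
    At x (a ++ w ++ b) (a.length + q) := by
  obtain ⟨h1, h2⟩ := h
  refine ⟨by rw [List.length_append, List.length_append]; omega, fun j hj => ?_⟩
  rw [← h2 j hj, List.append_assoc, List.getElem?_append_right (by omega),
    List.getElem?_append_left (by omega)]
  congr 1
  omega

theorem At.appr {x w : List α} {q : ℕ} (h : At x w q) (b : List α) : At x (w ++ b) q := by
  have := h.app [] b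
  simpa using this

theorem At.appl {x w : List α} {q : ℕ} (h : At x w q) (a : List α) :
    At x (a ++ w) (a.length + q) := by
  have := h.app a []
  simpa using this

variable [DecidableEq α]

theorem occ_eq_zero {x : List α} (hx : x ≠ []) (w : List α) (h : ∀ q, ¬ At x w q) :
    occ x w = 0 := by
  induction w with
  | nil => exact occ_nil hx
  | cons c w ih =>
    rw [occ_cons, if_neg, ih]
    · intro q hq
      exact h _ (at_cons_iff.2 hq)
    · intro hp
      exact h 0 (at_zero_iff.2 hp)

theorem occ_le_one {x : List α} (hx : x ≠ []) (w : List α)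
    (h : ∀ q q', At x w q → At x w q' → q = q') : occ x w ≤ 1 := by
  induction w with
  | nil => rw [occ_nil hx]; omega
  | cons c w ih =>
    rw [occ_cons]
    by_cases hp : x <+: c :: w
    · rw [if_pos hp, occ_eq_zero hx w]
      intro q hq
      have := h 0 (q + 1) (at_zero_iff.2 hp) (at_cons_iff.2 hq)
      omega
    · rw [if_neg hp, Nat.zero_add]
      apply ih
      intro q q' hq hq'
      have := h _ _ (at_cons_iff.2 hq) (at_cons_iff.2 hq')
      omega

theorem occ_pos_of_at {x : List α} (hx : x ≠ []) (w : List α) :
    ∀ q, At x w q → 1 ≤ occ x w := by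
  induction w with
  | nil =>
    intro q hq
    have h1 := hq.1
    have h2 := List.length_pos_iff.2 hx
    rw [List.length_nil] at h1
    omega
  | cons c w ih =>
    intro q hq
    rw [occ_cons]
    cases q with
    | zero =>
      rw [if_pos (at_zero_iff.1 hq)]
      omega
    | succ q =>
      have := ih q (at_cons_iff.1 hq)
      omega

theorem occ_two_of_at {x : List α} (hx : x ≠ []) (w : List α) :
    ∀ q q', q < q' → At x w q → At x w q' → 2 ≤ occ x w := by
  induction w with
  | nil =>
    intro q q' _ hq
    have h1 := hq.1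
    have h2 := List.length_pos_iff.2 hx
    rw [List.length_nil] at h1
    omega
  | cons c w ih =>
    intro q q' hlt hq hq'
    obtain ⟨r, rfl⟩ : ∃ r, q' = r + 1 := ⟨q' - 1, by omega⟩
    rw [occ_cons]
    cases q with
    | zero =>
      rw [if_pos (at_zero_iff.1 hq)]
      have := occ_pos_of_at hx w r (at_cons_iff.1 hq')
      omega
    | succ q =>
      have := ih q r (by omega) (at_cons_iff.1 hq) (at_cons_iff.1 hq')
      omega

theorem at_of_occ_pos {x : List α} (hx : x ≠ []) (w : List α) (h : 1 ≤ occ x w) :
    ∃ q, At x w q := by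
  by_contra hc
  push Not at hc
  have := occ_eq_zero hx w hc
  omega

/-- A word inside an `n`-th power that does not overlap itself occurs there twice. -/
theorem occ_pow {n : ℕ} (hn : 3 ≤ n) {T z : List α} (hT : T ≠ []) (hz : z ≠ [])
    (hTu : ∀ d, 0 < d → d < T.length → ¬ Per d T)
    (h : 1 ≤ occ T (List.replicate n z).flatten) : 2 ≤ occ T (List.replicate n z).flatten := by
  obtain ⟨q, hq⟩ := at_of_occ_pos hT _ h
  set v := (List.replicate n z).flatten with hv
  have hvl : v.length = n * z.length := pow_length z n
  have hzl : 1 ≤ z.length := List.length_pos_iff.2 hz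
  have hnz : 3 * z.length ≤ n * z.length := Nat.mul_le_mul_right _ hn
  obtain ⟨h1, h2⟩ := hq
  have hper : ∀ j, j + z.length < n * z.length → v[j]? = v[j + z.length]? := fun j hj =>
    pow_per z n j hj
  have hlen : T.length ≤ z.length := by
    by_contra hc
    push Not at hc
    apply hTu z.length hzl hc
    intro j hj
    rw [← h2 j (by omega), ← h2 _ hj, hper _ (by omega)]
    congr 1
    omega
  by_cases c : z.length ≤ q
  · refine occ_two_of_at hT v (q - z.length) q (by omega) ⟨by omega, fun j hj => ?_⟩ ⟨h1, h2⟩
    rw [← h2 j hj, hper _ (by omega)]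
    congr 1
    omega
  · refine occ_two_of_at hT v q (q + z.length) (by omega) ⟨h1, h2⟩ ⟨by omega, fun j hj => ?_⟩
    have h3 := hper (q + j) (by omega)
    rw [← h2 j hj, h3]
    congr 1
    omega

end

/-! ### Words of length `k` separated by a marker -/

section

variable {α : Type} [DecidableEq α]

/-- The words `y` of length `k` in `Y` are separated by `T`. -/
structure Sepr (n k : ℕ) (T : List α) (Y : List (List α)) : Prop where
  len : ∀ y ∈ Y, y.length = k
  t1 : 1 ≤ T.length
  tk : T.length < k
  pf : ∀ y ∈ Y, PFree n (T ++ y ++ T)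
  tat : ∀ y ∈ Y, ∀ q, At T (T ++ y ++ T) q → q = 0 ∨ q = T.length + k
  yat : ∀ y ∈ Y, ∀ y1 ∈ Y, ∀ q, At y (T ++ y1 ++ T) q → q = T.length
  yu : ∀ y ∈ Y, ∀ d, 0 < d → d < k → ¬ Per d y
  tu : ∀ d, 0 < d → d < T.length → ¬ Per d T

theorem skip {k : ℕ} {Y : List (List α)} (hk : 1 ≤ k) (r : List α) :
    ∀ s : List α, (∀ j < s.length, ∀ y ∈ Y, ¬ At y (s ++ r) j) →
      (facs k (s ++ r)).filter (· ∈ Y) = (facs k r).filter (· ∈ Y) := by
  intro s
  induction s with
  | nil => intro _; rfl
  | cons a s ih =>
    intro h
    have hs : ∀ j < s.length, ∀ y ∈ Y, ¬ At y (s ++ r) j := by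
      intro j hj y hy hat
      exact h (j + 1) (by rw [List.length_cons]; omega) y hy (at_cons_iff.2 hat)
    rw [← ih hs, List.cons_append]
    by_cases hl : k ≤ (s ++ r).length + 1
    · rw [facs_cons_of_le a _ hl, List.filter_cons_of_neg]
      simp only [decide_eq_true_eq]
      intro hm
      refine h 0 (by simp) _ hm ?_
      rw [at_zero_iff, List.cons_append]
      exact List.take_prefix _ _
    · rw [facs_of_lt hk (a :: (s ++ r)) (by rw [List.length_cons]; omega),
        facs_of_lt hk (s ++ r) (by omega)]

theorem take_one {k : ℕ} {Y : List (List α)} (hk : 1 ≤ k) (hY : ∀ y ∈ Y, y.length = k)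
    (y : List α) (hy : y ∈ Y) (r : List α)
    (h : ∀ j, 1 ≤ j → j < k → ∀ y' ∈ Y, ¬ At y' (y ++ r) j) :
    (facs k (y ++ r)).filter (· ∈ Y) = y :: (facs k r).filter (· ∈ Y) := by
  have hyl := hY y hy
  obtain ⟨a, y0, rfl⟩ : ∃ a y0, y = a :: y0 := by
    cases y with
    | nil =>
      simp at hyl
      omega
    | cons a y0 => exact ⟨a, y0, rfl⟩
  have hyl' : y0.length + 1 = k := by simpa using hyl
  rw [List.cons_append, facs_cons_of_le a _ (by rw [List.length_append]; omega)]
  have h1 : (a :: (y0 ++ r)).take k = a :: y0 := by
    rw [← List.cons_append]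
    exact List.take_left' hyl
  rw [h1, List.filter_cons_of_pos (by simpa using hy)]
  rw [skip hk r y0]
  intro j hj y' hy' hat
  refine h (j + 1) (by omega) (by omega) y' hy' ?_
  rw [List.cons_append]
  exact at_cons_iff.2 hat

variable {n k : ℕ} {T : List α} {Y : List (List α)}

omit [DecidableEq α] in
/-- No word of `Y` starts inside `y` in `y r` after the beginning. -/
theorem Sepr.winA (h : Sepr n k T Y) {y : List α} (hy : y ∈ Y) {r : List α}
    (hr : r.take T.length <+: T) (j : ℕ) (hj1 : 1 ≤ j) (hj2 : j < k) (y' : List α)
    (hy' : y' ∈ Y) : ¬ At y' (y ++ r) j := by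
  intro hat
  obtain ⟨h1, h2⟩ := hat
  have hyl := h.len y hy
  have hyl' := h.len y' hy'
  have ht := h.tk
  rw [List.length_append, hyl, hyl'] at h1
  have hrT : ∀ i, i < T.length → i < r.length → r[i]? = T[i]? := by
    intro i hi1 hi2
    obtain ⟨t, ht⟩ := hr
    have h3 : (r.take T.length ++ t)[i]? = T[i]? := by rw [ht]
    rw [List.getElem?_append_left (by rw [List.length_take]; omega), List.getElem?_take,
      if_pos hi1] at h3
    exact h3
  by_cases c : j ≤ T.length
  · have h3 : At y' (T ++ y ++ T) (T.length + j) := by
      refine ⟨by rw [List.length_append, List.length_append]; omega, fun i hi => ?_⟩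
      rw [← h2 i hi]
      by_cases c2 : j + i < k
      · rw [List.append_assoc, List.getElem?_append_right (by omega),
          List.getElem?_append_left (by omega), List.getElem?_append_left (by omega)]
        congr 1
        omega
      · rw [List.getElem?_append_right (by rw [List.length_append]; omega),
          List.getElem?_append_right (by omega), List.length_append, hrT _ (by omega) (by omega)]
        congr 1
        omega
    have h4 := h.yat y' hy' y hy _ h3
    omega
  · -- the marker is inside `y'`
    have h3 : At T (T ++ y' ++ T) (T.length + (k - j)) := by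
      refine ⟨by rw [List.length_append, List.length_append]; omega, fun i hi => ?_⟩
      rw [List.append_assoc, List.getElem?_append_right (by omega),
        List.getElem?_append_left (by omega), show T.length + (k - j) + i - T.length = k - j + i
          by omega, ← h2 _ (by omega), List.getElem?_append_right (by omega),
        ← hrT i hi (by omega)]
      congr 1
      omega
    have h4 := h.tat y' hy' _ h3
    omega

omit [DecidableEq α] in
/-- No word of `Y` starts inside the marker in `T y r`. -/
theorem Sepr.winB (h : Sepr n k T Y) {y : List α} (hy : y ∈ Y) {s r : List α} (hs : s <:+ T)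
    (j : ℕ) (hj : j < s.length) (y' : List α) (hy' : y' ∈ Y) : ¬ At y' (s ++ (y ++ r)) j := by
  intro hat
  have hyl := h.len y hy
  have hyl' := h.len y' hy'
  obtain ⟨t, rfl⟩ := hs
  obtain ⟨h1, h2⟩ := hat
  have h3 : At y' ((t ++ s) ++ y ++ (t ++ s)) (t.length + j) := by
    refine ⟨by simp only [List.length_append]; omega, fun i hi => ?_⟩
    rw [← h2 i hi, show (t ++ s) ++ y ++ (t ++ s) = t ++ ((s ++ y) ++ (t ++ s)) by
        simp only [List.append_assoc], List.getElem?_append_right (by omega),
      List.getElem?_append_left (by rw [List.length_append]; omega), ← List.append_assoc s y r,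
      List.getElem?_append_left (l₁ := s ++ y) (l₂ := r) (by rw [List.length_append]; omega)]
    congr 1
    omega
  have h4 := h.yat y' hy' y hy _ h3
  rw [List.length_append] at h4
  omega

theorem Sepr.filter_flat (h : Sepr n k T Y) (p : List α)
    (hp : p = [] ∨ ∃ e ∈ Y, p <+: T ++ e ∧ p.length < T.length + k) (l : List (List α))
    (hl : ∀ y ∈ l, y ∈ Y) :
    (facs k ((l.map (T ++ ·)).flatten ++ p)).filter (· ∈ Y) = l ∧
      ((l.map (T ++ ·)).flatten ++ p).take T.length <+: T := by
  have ht1 := h.t1
  have htk := h.tk
  induction l with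
  | nil =>
    constructor
    · rw [List.map_nil, List.flatten_nil, List.nil_append]
      have h1 := skip (k := k) (Y := Y) (by omega) [] p (by
        intro j hj y hy hat
        rcases hp with rfl | ⟨e, he, hpe, hpl⟩
        · simp at hj
        · rw [List.append_nil] at hat
          have hyl := h.len y hy
          have h0 := hat.1
          obtain ⟨t, ht⟩ := hpe
          have h1 : At y (T ++ (e ++ [])) j := by
            rw [List.append_nil, ← ht]
            exact hat.appr t
          exact h.winB he (List.suffix_refl T) j (by omega) y hy h1)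
      rw [List.append_nil] at h1
      rw [h1, facs_of_lt (by omega) [] (by simp; omega)]
      rfl
    · rw [List.map_nil, List.flatten_nil, List.nil_append]
      rcases hp with rfl | ⟨e, he, hpe, hpl⟩
      · simp
      · have h1 : p.take T.length <+: T ++ e := (List.take_prefix _ _).trans hpe
        exact List.prefix_of_prefix_length_le h1 (List.prefix_append _ _) (by
          rw [List.length_take]
          omega)
  | cons y l ih =>
    obtain ⟨ih1, ih2⟩ := ih (fun y hy => hl y (List.mem_cons_of_mem _ hy))
    have hy := hl y (by simp)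
    have e1 : ((y :: l).map (T ++ ·)).flatten ++ p
        = T ++ (y ++ ((l.map (T ++ ·)).flatten ++ p)) := by
      simp only [List.map_cons, List.flatten_cons, List.append_assoc]
    rw [e1]
    constructor
    · rw [skip (by omega) _ T (fun j hj y' hy' =>
        h.winB hy (List.suffix_refl T) j hj y' hy'),
        take_one (by omega) h.len y hy _ (fun j h1 h2 y' hy' => h.winA hy ih2 j h1 h2 y' hy'), ih1]
    · rw [List.take_left' rfl]

omit [DecidableEq α] in
theorem suffix_flatten' {ℓ : ℕ} (l : List (List α)) (hl : ∀ x ∈ l, x.length = ℓ) :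
    ∀ v : List α, v <:+ l.flatten → ∃ (s : List α) (l₂ : List (List α)),
      v = s ++ l₂.flatten ∧
        ((s = [] ∧ l₂ <:+ l) ∨ ∃ d, (d :: l₂) <:+ l ∧ s <:+ d ∧ s.length < ℓ) := by
  induction l with
  | nil =>
    intro v hv
    refine ⟨[], [], ?_, Or.inl ⟨rfl, List.suffix_rfl⟩⟩
    simpa using hv
  | cons d l ih =>
    intro v hv
    rw [List.flatten_cons] at hv
    obtain ⟨t, ht⟩ := hv
    rw [List.append_eq_append_iff] at ht
    rcases ht with ⟨a, h1, h2⟩ | ⟨c, h1, h2⟩
    · have hd := hl d (by simp)
      by_cases ha : a.length < ℓ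
      · exact ⟨a, l, h2, Or.inr ⟨d, List.suffix_rfl, ⟨t, h1.symm⟩, ha⟩⟩
      · have h3 : a = d := by
          have h4 : a <:+ d := ⟨t, h1.symm⟩
          exact h4.eq_of_length_le (by omega)
        refine ⟨[], d :: l, ?_, Or.inl ⟨rfl, List.suffix_rfl⟩⟩
        rw [h2, h3]
        simp
    · obtain ⟨s, l₂, e1, e2⟩ := ih (fun x hx => hl x (List.mem_cons_of_mem _ hx)) v ⟨c, h2.symm⟩
      refine ⟨s, l₂, e1, ?_⟩
      rcases e2 with ⟨e2, e3⟩ | ⟨d', e2, e3⟩
      · exact Or.inl ⟨e2, e3.trans (List.suffix_cons d l)⟩
      · exact Or.inr ⟨d', e2.trans (List.suffix_cons d l), e3⟩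

theorem Sepr.avoids [Fintype α] (h : Sepr n k T Y) (hn : 3 ≤ n) (l : List (List α))
    (hl : ∀ y ∈ l, y ∈ Y)
    (hQ : ∀ l' : List (List α), l' <:+: l → l' ≠ [] → ∃ a, 1 ≤ l'.count a ∧ l'.count a ≤ n - 2) :
    Avoids k n (l.map (T ++ ·)).flatten := by
  intro u hu hpow
  obtain ⟨hu0, z, hz, hK⟩ := hpow
  have ht1 := h.t1
  have htk := h.tk
  have hk : 1 ≤ k := by omega
  have hT0 : T ≠ [] := by
    intro h0
    rw [h0] at ht1
    simp at ht1
  set v := (List.replicate n z).flatten with hv
  have hlen := length_eq_of_kEquiv hk hK
  set bl := l.map (T ++ ·) with hbl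
  have hbll : ∀ x ∈ bl, x.length = T.length + k := by
    intro x hx
    rw [hbl, List.mem_map] at hx
    obtain ⟨y, hy, rfl⟩ := hx
    rw [List.length_append, h.len y (hl y hy)]
  obtain ⟨w1, hv1, hv2⟩ := List.infix_iff_prefix_suffix.1 hu
  obtain ⟨s, l₂, e1, e2⟩ := suffix_flatten' bl hbll w1 hv2
  rw [e1] at hv1
  -- powers inside `T y T`
  have hin : ∀ y ∈ Y, u.length ≤ 2 * k - 2 → u <:+: T ++ y ++ T → False := by
    intro y hy hul hinf
    have h2 := eq_of_kEquiv hk hK hul
    rw [h2] at hinf
    exact h.pf y hy z hz hinf
  have hone : ∀ a ∈ Y, ∀ σ : List α, σ.length ≤ 2 * k - 2 → (facs k σ).count a ≤ 1 := by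
    intro a ha σ hσ
    obtain ⟨hocc, -, -, -, -, -, -⟩ := PkW1.w1 α k hk
    have hal := h.len a ha
    rw [← hocc a σ hal]
    have ha0 : a ≠ [] := by
      rintro rfl
      simp at hal
      omega
    have key : ∀ q q', At a σ q → At a σ q' → ¬ q < q' := by
      intro q q' h1 h2 hlt
      have h3 := h1.1
      have h4 := h2.1
      refine h.yu a ha (q' - q) (by omega) (by omega) ?_
      intro j hj
      rw [← h2.2 j (by omega), ← h1.2 _ hj]
      congr 1
      omega
    apply occ_le_one ha0
    intro q q' h1 h2
    have h3 := key q q' h1 h2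
    have h4 := key q' q h2 h1
    omega
  -- counting argument
  have hcnt : ∀ lp : List (List α), lp <:+: l → lp ≠ [] →
      (facs k u).filter (· ∈ Y) = lp → False := by
    intro lp hlp hlp0 hfil
    obtain ⟨a, ha1, ha2⟩ := hQ lp hlp hlp0
    have halp : a ∈ lp := List.count_pos_iff.1 ha1
    have haY : a ∈ Y := hl a (hlp.subset halp)
    have hal := h.len a haY
    obtain ⟨hocc, hfl, -, -, -, h6, -⟩ := PkW1.w1 α k hk
    have hc : ∀ w : List α, (facs k w).count a = ((facs k w).filter (· ∈ Y)).count a := by
      intro w
      rw [List.count_filter (by simpa using haY)]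
    have hcu : (facs k u).count a = lp.count a := by rw [hc, hfil]
    have hcy : (facs k v).count a = lp.count a := by
      rw [← hcu, ← hocc a _ hal, ← hocc a _ hal]
      exact (hK a (by omega) (by omega)).symm
    have hyl : k ≤ v.length := by
      by_contra hcon
      have h7 : facs k u = [] := facs_of_lt hk u (by omega)
      rw [h7] at hcu
      simp at hcu
      omega
    have hyl' : v.length = n * z.length := pow_length z n
    have hdiv := Pool.Agent.Helper74.SK.pe α k n z a hk (by omega) hz (by omega) hal
    rw [← hv, h6 v (v.take (k - 1)) (by omega), List.count_append, hcy] at hdiv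
    have hseam : (facs k (v.drop (v.length - (k - 1)) ++ v.take (k - 1))).count a ≤ 1 := by
      apply hone a haY
      rw [List.length_append, List.length_drop, List.length_take]
      omega
    have h8 := Nat.le_of_dvd (by omega) hdiv
    omega
  -- the case of a word starting inside a block
  have hmain : ∀ (s' p : List α) (l5 : List (List α)), (∀ y ∈ l5, y ∈ Y) → l5 <:+: l →
      (s' = [] ∨ ∃ d ∈ Y, s' <:+ d ∧ s'.length < k) →
      (p = [] ∨ ∃ e ∈ Y, p <+: T ++ e ∧ p.length < T.length + k) →
      u = s' ++ ((l5.map (T ++ ·)).flatten ++ p) → False := by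
    intro s' p l5 hl5 hl5' hs' hp hu'
    obtain ⟨hf1, hf2⟩ := h.filter_flat p hp l5 hl5
    by_cases h50 : l5 = []
    · subst h50
      rw [List.map_nil, List.flatten_nil, List.nil_append] at hu'
      by_cases hpT : p.length < T.length
      · have hpT' : p <+: T := by
          rcases hp with rfl | ⟨e, he, hpe, -⟩
          · exact List.nil_prefix
          · exact List.prefix_of_prefix_length_le hpe (List.prefix_append _ _) hpT.le
        rcases hs' with rfl | ⟨d, hd, hsd, hsl⟩
        · rcases hp with rfl | ⟨e, he, hpe, -⟩
          · exact hu0 hu'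
          · apply hin e he
            · rw [hu', List.nil_append]
              omega
            · rw [hu', List.nil_append]
              refine hpT'.isInfix.trans ⟨[], e ++ T, by simp⟩
        · apply hin d hd
          · rw [hu', List.length_append]
            omega
          · obtain ⟨a, ha⟩ := hsd
            obtain ⟨b, hb⟩ := hpT'
            refine ⟨T ++ a, b, ?_⟩
            rw [hu', ← ha]
            conv_rhs => rw [← hb]
            rw [← hb]
            simp only [List.append_assoc]
      · push Not at hpT
        obtain ⟨e, he, hpe, hpl⟩ : ∃ e ∈ Y, p <+: T ++ e ∧ p.length < T.length + k := by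
          rcases hp with rfl | hp
          · rw [List.length_nil] at hpT
            omega
          · exact hp
        obtain ⟨p', rfl⟩ : ∃ p', p = T ++ p' := by
          obtain ⟨p', hp'⟩ := List.prefix_of_prefix_length_le (List.prefix_append T e) hpe hpT
          exact ⟨p', hp'.symm⟩
        rw [List.length_append] at hpl
        have hat : At T u s'.length := by
          rw [hu']
          have h1 : At T (T ++ p') 0 := at_zero_iff.2 (List.prefix_append _ _)
          exact h1.appl s'
        have huniq : ∀ q, At T u q → q = s'.length := by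
          intro q hq
          rw [hu'] at hq
          by_cases c : q ≤ s'.length
          · rcases hs' with rfl | ⟨d, hd, ⟨a, ha⟩, hsl⟩
            · simp at c
              simp [c]
            · have h1 : At T (s' ++ T) q := by
                rw [← List.append_assoc] at hq
                exact hq.left (by rw [List.length_append]; omega)
              have h2 := h1.appl (T ++ a)
              rw [show T ++ a ++ (s' ++ T) = T ++ d ++ T by
                rw [← ha]; simp only [List.append_assoc]] at h2
              have h3 := h.tat d hd _ h2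
              have h4 := h.len d hd
              rw [← ha] at h4
              rw [List.length_append] at h3 h4
              omega
          · have h1 := hq.right (by omega)
            obtain ⟨b, hb⟩ := hpe
            have h2 := (h1.appr b).appr T
            rw [hb] at h2
            have h3 := h.tat e he _ h2
            have h4 := h1.1
            rw [List.length_append] at h4
            omega
        have h1 : occ T u ≤ 1 := by
          apply occ_le_one hT0
          intro q q' h1 h2
          rw [huniq q h1, huniq q' h2]
        have h2 := occ_pos_of_at hT0 u _ hat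
        have h3 := hK T ht1 htk.le
        have h4 := occ_pow hn hT0 hz h.tu (by rw [← hv, ← h3]; exact h2)
        rw [← hv, ← h3] at h4
        omega
    · apply hcnt l5 hl5' h50
      rw [hu']
      rcases hs' with rfl | ⟨d, hd, ⟨a, ha⟩, hsl⟩
      · rw [List.nil_append]
        exact hf1
      · rw [skip hk, hf1]
        intro j hj y' hy' hat
        have hdl := h.len d hd
        rw [← ha, List.length_append] at hdl
        have h1 := hat.appl a
        rw [← List.append_assoc, ha] at h1
        exact h.winA hd hf2 (a.length + j) (by omega) (by omega) y' hy' h1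
  -- decomposition
  have hmapsuf : ∀ l2 : List (List α), l2 <:+ bl → ∃ l3, l3 <:+ l ∧ l2 = l3.map (T ++ ·) := by
    intro l2 h2
    refine ⟨l.drop (bl.length - l2.length), List.drop_suffix _ _, ?_⟩
    rw [List.suffix_iff_eq_drop] at h2
    rw [List.map_drop, ← hbl]
    exact h2
  have hmappre : ∀ (l4 x : List (List α)), x <+: l4.map (T ++ ·) →
      ∃ l5, l5 <+: l4 ∧ x = l5.map (T ++ ·) := by
    intro l4 x h2
    refine ⟨l4.take x.length, List.take_prefix _ _, ?_⟩
    rw [List.prefix_iff_eq_take] at h2
    rw [List.map_take]
    exact h2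
  have hpfl : ∀ (l4 : List (List α)) (u' : List α), l4 <:+: l →
      u' <+: (l4.map (T ++ ·)).flatten → ∃ (l5 : List (List α)) (p : List α),
        l5 <+: l4 ∧ (p = [] ∨ ∃ e ∈ Y, p <+: T ++ e ∧ p.length < T.length + k) ∧
        u' = (l5.map (T ++ ·)).flatten ++ p := by
    intro l4 u' hl4 hu'
    obtain ⟨x, p, f1, f2, f3, f4⟩ := prefix_flatten (ℓ := T.length + k) (by omega)
      (l4.map (T ++ ·)) (by
        intro x hx
        rw [List.mem_map] at hx
        obtain ⟨y, hy, rfl⟩ := hx
        rw [List.length_append, h.len y (hl y (hl4.subset hy))]) u' hu'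
    obtain ⟨l5, g1, g2⟩ := hmappre l4 x f2
    refine ⟨l5, p, g1, ?_, by rw [← g2]; exact f1⟩
    rcases f4 with f4 | ⟨e, he, f4⟩
    · exact Or.inl f4
    · rw [List.mem_map] at he
      obtain ⟨y, hy, rfl⟩ := he
      exact Or.inr ⟨y, hl y (hl4.subset hy), f4, f3⟩
  rcases e2 with ⟨rfl, e2⟩ | ⟨d, e2, e3, e4⟩
  · rw [List.nil_append] at hv1
    obtain ⟨l3, g1, g2⟩ := hmapsuf l₂ e2
    rw [g2] at hv1
    obtain ⟨l5, p, k1, k2, k3⟩ := hpfl l3 u g1.isInfix hv1
    have hl5 : l5 <:+: l := k1.isInfix.trans g1.isInfix
    exact hmain [] p l5 (fun y hy => hl y (hl5.subset hy)) hl5 (Or.inl rfl) k2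
      (by rw [List.nil_append]; exact k3)
  · obtain ⟨l3, g1, g2⟩ := hmapsuf _ e2
    obtain ⟨y, l4, rfl⟩ : ∃ y l4, l3 = y :: l4 := by
      cases l3 with
      | nil => simp at g2
      | cons y l4 => exact ⟨y, l4, rfl⟩
    rw [List.map_cons, List.cons.injEq] at g2
    obtain ⟨g2, g3⟩ := g2
    have hyl : y ∈ l := g1.subset (by simp)
    have hyY := hl y hyl
    have hylen := h.len y hyY
    rcases prefix_append_cases hv1 with h1 | ⟨u', hu', h1⟩
    · -- inside one block
      apply hin y hyY
      · have := h1.length_le
        omega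
      · rw [g2] at e3
        exact (h1.isInfix.trans e3.isInfix).trans (List.prefix_append _ _).isInfix
    · rw [g3] at h1
      have hl4 : l4 <:+: l := (List.suffix_cons y l4).isInfix.trans g1.isInfix
      obtain ⟨l5, p, k1, k2, k3⟩ := hpfl l4 u' hl4 h1
      have hl5 : l5 <:+: l := k1.isInfix.trans hl4
      have hl5Y : ∀ y ∈ l5, y ∈ Y := fun y hy => hl y (hl5.subset hy)
      rw [g2] at e3
      by_cases hsk : s.length < k
      · refine hmain s p l5 hl5Y hl5 (Or.inr ⟨y, hyY, ?_, hsk⟩) k2 (by rw [hu', k3])
        exact List.suffix_of_suffix_length_le e3 (List.suffix_append _ _) (by omega)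
      · -- a full block at the beginning
        obtain ⟨tt, htt⟩ := List.suffix_of_suffix_length_le (List.suffix_append T y) e3 (by omega)
        have httT : tt <:+ T := by
          obtain ⟨a, ha⟩ := e3
          rw [← htt, ← List.append_assoc] at ha
          exact ⟨a, List.append_cancel_right ha⟩
        apply hcnt (y :: l5) _ (by simp)
        · obtain ⟨hf1, hf2⟩ := h.filter_flat p k2 l5 hl5Y
          rw [hu', ← htt, k3, List.append_assoc, skip hk _ tt, take_one hk h.len y hyY _, hf1]
          · intro j j1 j2 y' hy'
            exact h.winA hyY hf2 j j1 j2 y' hy'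
          · intro j hj y' hy'
            exact h.winB hyY httT j hj y' hy'
        · refine List.IsInfix.trans ?_ g1.isInfix
          exact ((List.prefix_cons_inj y).2 k1).isInfix

/-- The lower bound from words of length `k` separated by a marker. -/
theorem Sepr.bound [Fintype α] (h : Sepr n k T Y) (hn : 3 ≤ n) (hnd : Y.Nodup) (hY0 : Y ≠ []) :
    ∃ w : List α, Avoids k n w ∧ (n - 1) ^ Y.length ≤ w.length + 1 := by
  obtain ⟨l, h1, h2, h3⟩ := exists_seq hn Y hnd hY0
  refine ⟨(l.map (T ++ ·)).flatten, h.avoids hn l h1 h3, h2.trans ?_⟩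
  have ht1 := h.t1
  have h4 : l.length ≤ (l.map (T ++ ·)).flatten.length := by
    clear h1 h2 h3
    induction l with
    | nil => simp
    | cons y l ih =>
      rw [List.map_cons, List.flatten_cons, List.length_append, List.length_append,
        List.length_cons]
      omega
  omega

end

end Pool.Agent.Helper14.ER
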