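import Pool.Agent.Helper14.ER.Ratio
import Pool.Agent.Helper14.ER.Sep

/-!
# Order of log L: the number of words that fit between two markers
-/

set_option autoImplicit false

namespace Pool.Agent.Helper14.ER

open Pool.Agent.Helper14.SK Pool.Agent.Helper18.SK

variable {α : Type}

/-- A separator `T` with ends `V1`, `V0`: the long word is a product of words `T V0 y V1`. -/
structure Sepm (n : ℕ) (e : Bool) (V1 T V0 : List α) : Prop where
  t1 : 1 ≤ T.length
  v1p : 1 ≤ V1.length
  v1t : V1.length < T.length
  u1 : ∀ q, 0 < q → q < T.length → ¬ Fit T T q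
  c2 : ∀ q < V0.length, ¬ Fit V0 T q
  d1 : ∀ q < T.length, ¬ Fit T V1 q
  e0 : ∀ q < T.length, ¬ Fit T V0 q
  e1 : ∀ q, 0 < q → q < V1.length → ¬ Fit V1 T q
  f1 : ∀ q, q + V1.length ≤ V0.length → ¬ Fit V0 V1 q
  f2 : ∀ q, 0 < q → q < V1.length → ¬ Fit V1 V0 q
  pf : PFree n (V1 ++ T ++ V0)
  suf : ∀ p i, 0 < p → p < i → i ≤ (V1 ++ T ++ V0).length →
    (∀ j, (V1 ++ T ++ V0).length - i ≤ j → j + p < (V1 ++ T ++ V0).length →
      (V1 ++ T ++ V0)[j]? = (V1 ++ T ++ V0)[j + p]?) → i < 2 * p
  pre : ∀ p i, 0 < p → p < i → i ≤ (V1 ++ T ++ V0).length →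
    (∀ j, j + p < i → (V1 ++ T ++ V0)[j]? = (V1 ++ T ++ V0)[j + p]?) →
      i < 2 * p ∨ (e = true ∧ p = 1 ∧ i = 2)

variable {n : ℕ} {e : Bool} {V1 T V0 : List α}

/-- Short borders of `V0 y V1` do not exist. -/
theorem Sepm.border (h : Sepm n e V1 T V0) {y : List α} {d : ℕ}
    (hd1 : y.length + V1.length < d) (hd2 : d < V0.length + y.length + V1.length) :
    ¬ Per d (V0 ++ y ++ V1) := by
  intro hp
  set W := V0 ++ y ++ V1 with hW
  have hWl : W.length = V0.length + y.length + V1.length := by
    rw [hW, List.length_append, List.length_append]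
  have w0 : ∀ j < V0.length, W[j]? = V0[j]? := by
    intro j hj
    rw [hW, List.append_assoc, List.getElem?_append_left hj]
  have w1 : ∀ j, W[V0.length + y.length + j]? = V1[j]? := by
    intro j
    rw [hW, List.getElem?_append_right (by rw [List.length_append]; omega), List.length_append]
    congr 1
    omega
  set hh := W.length - d with hhh
  by_cases c : V1.length ≤ hh
  · apply h.f1 (hh - V1.length) (by omega)
    intro j hj hqj
    rw [← w0 _ hqj, hp _ (by omega), ← w1 j]
    congr 1
    omega
  · apply h.f2 (V1.length - hh) (by omega) (by omega)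
    intro j hj hqj
    rw [← w1, ← w0 j hj, hp j (by omega)]
    congr 1
    omega

/-- The separated words. -/
theorem Sepm.sepr (h : Sepm n e V1 T V0) {N k : ℕ} (hk : V0.length + N + V1.length = k)
    (hTk : T.length < k) (Y : List (List α))
    (hY : ∀ y ∈ Y, y.length = N ∧ ¬ T <:+: y ∧
      PFree n ((V1 ++ T ++ V0) ++ y ++ (V1 ++ T ++ V0)) ∧
      ∀ d, 0 < d → d ≤ N + V1.length → ¬ Per d (V0 ++ y ++ V1)) :
    Sepr n k T (Y.map (fun y => V0 ++ y ++ V1)) := by
  have ht1 := h.t1
  have hv1t := h.v1t
  have hv1p := h.v1p
  constructor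
  · intro x hx
    rw [List.mem_map] at hx
    obtain ⟨y, hy, rfl⟩ := hx
    rw [List.length_append, List.length_append, (hY y hy).1]
    exact hk
  · exact h.t1
  · exact hTk
  · intro x hx
    rw [List.mem_map] at hx
    obtain ⟨y, hy, rfl⟩ := hx
    refine (hY y hy).2.2.1.sub ?_
    refine ⟨V1, V0, ?_⟩
    simp only [List.append_assoc]
  · -- occurrences of `T`
    intro x hx q hq
    rw [List.mem_map] at hx
    obtain ⟨y, hy, rfl⟩ := hx
    obtain ⟨hyl, hyT, -, -⟩ := hY y hy
    obtain ⟨hq1, hq2⟩ := hq
    set W := T ++ (V0 ++ y ++ V1) ++ T with hW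
    have hWl : W.length = T.length + k + T.length := by
      rw [hW]
      simp only [List.length_append]
      omega
    have w1 : ∀ j < T.length, W[j]? = T[j]? := by
      intro j hj
      rw [hW, List.append_assoc, List.getElem?_append_left hj]
    have w2 : ∀ j < V0.length, W[T.length + j]? = V0[j]? := by
      intro j hj
      rw [hW, List.append_assoc, List.getElem?_append_right (by omega), List.append_assoc,
        List.append_assoc, List.getElem?_append_left (by omega)]
      congr 1
      omega
    have w3 : ∀ j < N, W[T.length + V0.length + j]? = y[j]? := by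
      intro j hj
      rw [hW, show T ++ (V0 ++ y ++ V1) ++ T = (T ++ V0) ++ (y ++ (V1 ++ T)) by
        simp only [List.append_assoc], List.getElem?_append_right (by
          rw [List.length_append]; omega), List.getElem?_append_left (by
          rw [List.length_append]; omega), List.length_append]
      congr 1
      omega
    have w4 : ∀ j < V1.length, W[T.length + V0.length + N + j]? = V1[j]? := by
      intro j hj
      rw [hW, show T ++ (V0 ++ y ++ V1) ++ T = (T ++ V0 ++ y) ++ (V1 ++ T) by
        simp only [List.append_assoc], List.getElem?_append_right (by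
          rw [List.length_append, List.length_append]; omega), List.getElem?_append_left (by
          rw [List.length_append, List.length_append]; omega), List.length_append,
        List.length_append]
      congr 1
      omega
    have w5 : ∀ j < T.length, W[T.length + k + j]? = T[j]? := by
      intro j hj
      rw [hW, List.getElem?_append_right (by simp only [List.length_append]; omega)]
      congr 1
      simp only [List.length_append]
      omega
    rw [hWl] at hq1
    by_contra hcon
    push Not at hcon
    obtain ⟨hc1, hc2⟩ := hcon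
    by_cases k1 : q < T.length
    · apply h.u1 q (by omega) k1
      intro j hj hqj
      rw [← w1 _ hqj]
      exact hq2 j hj
    by_cases k2 : q < T.length + V0.length
    · apply h.c2 (q - T.length) (by omega)
      intro j hj hqj
      rw [← w2 _ hqj, ← hq2 j hj]
      congr 1
      omega
    by_cases k3 : q + T.length ≤ T.length + V0.length + N
    · apply hyT
      have : At T y (q - (T.length + V0.length)) := by
        refine ⟨by omega, fun j hj => ?_⟩
        rw [← hq2 j hj, ← w3 _ (by omega)]
        congr 1
        omega
      exact this.inw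
    by_cases k4 : q < T.length + V0.length + N
    · apply h.d1 (T.length + V0.length + N - q) (by omega)
      intro j hj hqj
      rw [← w4 j hj, ← hq2 _ hqj]
      congr 1
      omega
    · apply h.u1 (T.length + k - q) (by omega) (by omega)
      intro j hj hqj
      rw [← w5 j hj, ← hq2 _ hqj]
      congr 1
      omega
  · -- occurrences of the words
    intro x hx x1 hx1 q hq
    rw [List.mem_map] at hx hx1
    obtain ⟨y, hy, rfl⟩ := hx
    obtain ⟨y1, hy1, rfl⟩ := hx1
    obtain ⟨hyl, -, -, -⟩ := hY y hy
    obtain ⟨hyl1, -, -, -⟩ := hY y1 hy1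
    obtain ⟨hq1, hq2⟩ := hq
    have hxl : (V0 ++ y ++ V1).length = k := by
      rw [List.length_append, List.length_append, hyl]
      exact hk
    set W := T ++ (V0 ++ y1 ++ V1) ++ T with hW
    have hWl : W.length = T.length + k + T.length := by
      rw [hW]
      simp only [List.length_append]
      omega
    rw [hWl, hxl] at hq1
    rw [hxl] at hq2
    have w1 : ∀ j < T.length, W[j]? = T[j]? := by
      intro j hj
      rw [hW, List.append_assoc, List.getElem?_append_left hj]
    have w4 : ∀ j < V1.length, W[T.length + V0.length + N + j]? = V1[j]? := by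
      intro j hj
      rw [hW, show T ++ (V0 ++ y1 ++ V1) ++ T = (T ++ V0 ++ y1) ++ (V1 ++ T) by
        simp only [List.append_assoc], List.getElem?_append_right (by
          rw [List.length_append, List.length_append]; omega), List.getElem?_append_left (by
          rw [List.length_append, List.length_append]; omega), List.length_append,
        List.length_append]
      congr 1
      omega
    have w5 : ∀ j < T.length, W[T.length + k + j]? = T[j]? := by
      intro j hj
      rw [hW, List.getElem?_append_right (by simp only [List.length_append]; omega)]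
      congr 1
      simp only [List.length_append]
      omega
    have y0 : ∀ j < V0.length, (V0 ++ y ++ V1)[j]? = V0[j]? := by
      intro j hj
      rw [List.append_assoc, List.getElem?_append_left hj]
    have y1' : ∀ j, (V0 ++ y ++ V1)[V0.length + N + j]? = V1[j]? := by
      intro j
      rw [List.getElem?_append_right (by rw [List.length_append]; omega), List.length_append]
      congr 1
      omega
    by_contra hcon
    by_cases k1 : q < T.length
    · apply h.e0 q k1
      intro j hj hqj
      rw [← w1 _ hqj, ← y0 j hj]
      exact hq2 j (by omega)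
    by_cases k2 : V1.length ≤ q - T.length
    · apply h.d1 (q - T.length - V1.length) (by omega)
      intro j hj hqj
      rw [← w5 _ hqj, ← y1' j, ← hq2 _ (by omega)]
      congr 1
      omega
    · apply h.e1 (V1.length - (q - T.length)) (by omega) (by omega)
      intro j hj hqj
      rw [← w5 j hj, ← y1' _, ← hq2 _ (by omega)]
      congr 1
      omega
  · -- no borders
    intro x hx d hd1 hd2
    rw [List.mem_map] at hx
    obtain ⟨y, hy, rfl⟩ := hx
    obtain ⟨hyl, -, -, hyd⟩ := hY y hy
    by_cases c : d ≤ N + V1.length
    · exact hyd d hd1 c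
    · exact h.border (by omega) (by omega)
  · intro d hd1 hd2 hp
    apply h.u1 d hd1 hd2
    intro j hj hdj
    rw [hp j (by omega)]
    congr 1
    omega

section

variable [DecidableEq α] [Fintype α]

open Classical in
theorem cover2 {n : ℕ} (hn : 3 ≤ n) {T : List α} (hpf : PFree n T) (N : ℕ) :
    G α n N ⊆
      (G α n N).filter (fun y => PFree n (T ++ y ++ T)) ∪
      ((G α n N).filter (fun y => ∃ p i, 0 < p ∧ 0 < i ∧ i ≤ T.length ∧ LB T n p i y) ∪
      ((G α n N).filter (fun y => ∃ p i, 0 < p ∧ 0 < i ∧ i ≤ T.reverse.length ∧
        LB T.reverse n p i y.reverse) ∪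
      (Finset.Icc 1 ((2 * T.length + N) / n)).biUnion
        (fun p => (G α n N).filter (Per p)))) := by
  set τ := T.length with hτ
  intro y hy
  have hy' := hy
  rw [mem_G (by omega)] at hy'
  obtain ⟨hyf, hyl⟩ := hy'
  rw [Finset.mem_union, Finset.mem_union, Finset.mem_union, Finset.mem_filter,
    Finset.mem_filter, Finset.mem_filter]
  by_cases c1 : PFree n (T ++ y ++ T)
  · exact Or.inl ⟨hy, c1⟩
  right
  unfold PFree at c1
  push Not at c1
  obtain ⟨z, hz, hinf⟩ := c1
  have hzl : 1 ≤ z.length := List.length_pos_iff.2 hz
  obtain ⟨q, hq⟩ := at_of_infix hinf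
  set u := (List.replicate n z).flatten with hu
  have hul : u.length = n * z.length := pow_length z n
  have hq1 := hq.1
  rw [List.length_append, List.length_append, ← hτ, hyl, hul] at hq1
  have hnz : 3 * z.length ≤ n * z.length := Nat.mul_le_mul_right _ hn
  by_cases a1 : q + n * z.length ≤ τ
  · exfalso
    rw [List.append_assoc] at hq
    exact hpf z hz (hq.left (by rw [hul]; exact a1)).inw
  by_cases a2 : τ + N ≤ q
  · exfalso
    exact hpf z hz (hq.right (by rw [List.length_append, hyl]; exact a2)).inw
  by_cases a3 : τ ≤ q ∧ q + n * z.length ≤ τ + N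
  · exfalso
    have h1 := hq.left (by rw [List.length_append, hul, hyl]; exact a3.2)
    exact hyf z hz (h1.right a3.1).inw
  have hper := hq.per
  have hXl : ∀ j, j < τ → (T ++ y ++ T)[j]? = T[j]? := by
    intro j hj
    rw [List.append_assoc, List.getElem?_append_left hj]
  have hXm : ∀ j, j < N → (T ++ y ++ T)[τ + j]? = y[j]? := by
    intro j hj
    rw [List.append_assoc, List.getElem?_append_right (by omega),
      List.getElem?_append_left (by omega)]
    congr 1
    omega
  have hXr : ∀ j, j < τ → (T ++ y ++ T)[τ + N + j]? = T[j]? := by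
    intro j hj
    rw [List.getElem?_append_right (by rw [List.length_append]; omega), List.length_append]
    congr 1
    omega
  by_cases a4 : q + n * z.length ≤ τ + N
  · -- on the left
    left
    refine ⟨hy, z.length, τ - q, hzl, by omega, by omega, by omega, by omega, ?_⟩
    intro j hj
    have key : ∀ i, i < n * z.length →
        (T.drop (T.length - (τ - q)) ++ y)[i]? = (T ++ y ++ T)[q + i]? := by
      intro i hi
      by_cases b1 : i < τ - q
      · rw [List.getElem?_append_left (by rw [List.length_drop]; omega), List.getElem?_drop,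
          hXl _ (by omega)]
        congr 1
        omega
      · rw [List.getElem?_append_right (by rw [List.length_drop]; omega), List.length_drop,
          show q + i = τ + (q + i - τ) by omega, hXm _ (by omega)]
        congr 1
        omega
    rw [key _ (by omega), key _ hj, hper (q + j) (by omega) (by omega)]
    congr 1
    omega
  right
  by_cases a5 : τ ≤ q
  · -- on the right
    left
    set i0 := q + n * z.length - (τ + N) with hi0
    refine ⟨hy, z.length, i0, hzl, by omega, by rw [List.length_reverse]; omega,
      by omega, by rw [List.length_reverse]; omega, ?_⟩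
    intro j hj
    have key : ∀ i, i < n * z.length →
        (T.reverse.drop (T.reverse.length - i0) ++ y.reverse)[i]? =
          (T ++ y ++ T)[q + n * z.length - 1 - i]? := by
      intro i hi
      by_cases b1 : i < i0
      · rw [List.getElem?_append_left (by rw [List.length_drop, List.length_reverse]; omega),
          List.getElem?_drop, List.length_reverse, List.getElem?_reverse (by omega),
          show q + n * z.length - 1 - i = τ + N + (i0 - 1 - i) by omega, hXr _ (by omega)]
        congr 1
        omega
      · rw [List.getElem?_append_right (by rw [List.length_drop, List.length_reverse]; omega),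
          List.length_drop, List.length_reverse, List.getElem?_reverse (by omega),
          show q + n * z.length - 1 - i = τ + (q + n * z.length - 1 - i - τ) by omega,
          hXm _ (by omega)]
        congr 1
        omega
    rw [key _ (by omega), key _ hj]
    have h1 := hper (q + n * z.length - 1 - (j + z.length)) (by omega) (by omega)
    rw [h1]
    congr 1
    omega
  · -- on both sides
    right
    rw [Finset.mem_biUnion]
    refine ⟨z.length, ?_, ?_⟩
    · rw [Finset.mem_Icc]
      refine ⟨hzl, ?_⟩
      rw [Nat.le_div_iff_mul_le (by omega), mul_comm]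
      omega
    · rw [Finset.mem_filter]
      refine ⟨hy, ?_⟩
      intro j hj
      rw [hyl] at hj
      rw [← hXm _ (by omega), ← hXm _ hj, hper (τ + j) (by omega) (by omega)]
      congr 1
      omega

open Classical in
/-- The number of words `y` such that `V0 y V1` has a given period. -/
theorem border_card {n : ℕ} (hn : 1 ≤ n) (V0 V1 : List α) (N d : ℕ) (hd : 0 < d)
    (hdN : d ≤ V0.length + N) :
    ((G α n N).filter (fun y => Per d (V0 ++ y ++ V1))).card ≤ (G α n (d - V0.length)).card := by
  refine Finset.card_le_card_of_injOn (fun y => y.take (d - V0.length)) ?_ ?_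
  · intro y hy
    rw [Finset.mem_coe, Finset.mem_filter, mem_G hn] at hy
    rw [Finset.mem_coe]
    simp only
    rw [mem_G hn]
    refine ⟨hy.1.1.sub (List.take_prefix _ _).isInfix, ?_⟩
    rw [List.length_take, hy.1.2]
    omega
  · intro y1 h1 y2 h2 h
    rw [Finset.mem_coe, Finset.mem_filter, mem_G hn] at h1 h2
    simp only at h
    have h3 : V0 ++ y1 ++ V1 = V0 ++ y2 ++ V1 := by
      refine h1.2.inj hd h2.2 ?_ ?_
      · simp only [List.length_append]
        rw [h1.1.2, h2.1.2]
      · have key : ∀ y : List α, y.length = N → (V0 ++ y ++ V1).take d =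
            V0.take d ++ y.take (d - V0.length) := by
          intro y hy
          rw [List.append_assoc, List.take_append, List.take_append_of_le_length (by omega)]
        rw [key y1 h1.1.2, key y2 h2.1.2, h]
    rw [List.append_assoc, List.append_assoc, List.append_cancel_left_eq] at h3
    exact List.append_cancel_right h3

theorem geo_sum {x : ℝ} (h0 : 0 ≤ x) (h1 : x < 1) (C M : ℕ) :
    ∑ g ∈ Finset.range M, x ^ (C + g) ≤ x ^ C / (1 - x) := by
  have h2 := hasSum_geometric_of_lt_one h0 h1
  have h3 := sum_le_hasSum (Finset.range M) (fun i _ => by positivity) h2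
  calc ∑ g ∈ Finset.range M, x ^ (C + g) = x ^ C * ∑ g ∈ Finset.range M, x ^ g := by
        rw [Finset.mul_sum]
        exact Finset.sum_congr rfl fun g _ => pow_add _ _ _
    _ ≤ x ^ C * (1 - x)⁻¹ := mul_le_mul_of_nonneg_left h3 (by positivity)
    _ = _ := by rw [div_eq_mul_inv]

open Classical in
theorem Sepm.good_card (h : Sepm n e V1 T V0) (hn : 3 ≤ n) {C : ℕ}
    (hC : V0.length = V1.length + C) {N : ℕ} {x K : ℝ}
    (hx : 0 < x) (hx1 : x < 1) (hK : 0 ≤ K)
    (hrat : ∀ t, ((G α n t).card : ℝ) ≤ x * (G α n (t + 1)).card)
    (hsup : ∀ i j, ((G α n i).card : ℝ) * (G α n j).card ≤ K * (G α n (i + j)).card)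
    {P : ℕ} (hP : (2 * (V1 ++ T ++ V0).length + N) / n ≤ P) (hPN : P ≤ N) :
    ((G α n N).card : ℝ) ≤
      ((G α n N).filter (fun y => ¬ T <:+: y ∧
        PFree n ((V1 ++ T ++ V0) ++ y ++ (V1 ++ T ++ V0)) ∧
        ∀ d, 0 < d → d ≤ N + V1.length → ¬ Per d (V0 ++ y ++ V1))).card +
      ((2 * F n x + if e = true then x ^ (n - 2) else 0) + (N + 1) * K * x ^ T.length +
        N * x ^ (N - P) + (x ^ C / (1 - x) + (N + V1.length : ℕ) * x ^ N)) *
        (G α n N).card := by
  have hrec := ratio_pow (α := α) (n := n) hx.le hrat N
  set A := ((G α n N).card : ℝ) with hA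
  have hA0 : 0 ≤ A := by positivity
  set That := V1 ++ T ++ V0 with hThat
  set S1 := (G α n N).filter (fun y => ¬ T <:+: y ∧ PFree n (That ++ y ++ That) ∧
        ∀ d, 0 < d → d ≤ N + V1.length → ¬ Per d (V0 ++ y ++ V1)) with hS1
  set S2 := (G α n N).filter (fun y => T <:+: y) with hS2
  set S3 := (G α n N).filter (fun y => ∃ p i, 0 < p ∧ 0 < i ∧ i ≤ That.length ∧
        LB That n p i y) with hS3
  set S4 := (G α n N).filter (fun y => ∃ p i, 0 < p ∧ 0 < i ∧ i ≤ That.reverse.length ∧
        LB That.reverse n p i y.reverse) with hS4
  set S5 := (Finset.Icc 1 ((2 * That.length + N) / n)).biUnion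
        (fun p => (G α n N).filter (Per p)) with hS5
  set S6 := (Finset.range (N + V1.length)).biUnion
        (fun g => (G α n N).filter (fun y => Per (N + V1.length - g) (V0 ++ y ++ V1))) with hS6
  have hcov : G α n N ⊆ S1 ∪ (S2 ∪ (S3 ∪ (S4 ∪ (S5 ∪ S6)))) := by
    intro y hy
    have h1 := cover2 hn h.pf N hy
    rw [← hThat] at h1
    simp only [Finset.mem_union] at h1 ⊢
    rcases h1 with h1 | h1 | h1 | h1
    · by_cases c1 : T <:+: y
      · exact Or.inr (Or.inl (Finset.mem_filter.2 ⟨hy, c1⟩))
      by_cases c2 : ∀ d, 0 < d → d ≤ N + V1.length → ¬ Per d (V0 ++ y ++ V1)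
      · exact Or.inl (Finset.mem_filter.2 ⟨hy, c1, (Finset.mem_filter.1 h1).2, c2⟩)
      · push Not at c2
        obtain ⟨d, hd1, hd2, hd3⟩ := c2
        refine Or.inr (Or.inr (Or.inr (Or.inr (Or.inr ?_))))
        rw [hS6, Finset.mem_biUnion]
        refine ⟨N + V1.length - d, Finset.mem_range.2 (by omega), ?_⟩
        rw [Finset.mem_filter, show N + V1.length - (N + V1.length - d) = d by omega]
        exact ⟨hy, hd3⟩
    · exact Or.inr (Or.inr (Or.inl h1))
    · exact Or.inr (Or.inr (Or.inr (Or.inl h1)))
    · exact Or.inr (Or.inr (Or.inr (Or.inr (Or.inl h1))))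
  have h1 : (G α n N).card ≤
      S1.card + (S2.card + (S3.card + (S4.card + (S5.card + S6.card)))) := by
    refine (Finset.card_le_card hcov).trans ?_
    have a1 := Finset.card_union_le S1 (S2 ∪ (S3 ∪ (S4 ∪ (S5 ∪ S6))))
    have a2 := Finset.card_union_le S2 (S3 ∪ (S4 ∪ (S5 ∪ S6)))
    have a3 := Finset.card_union_le S3 (S4 ∪ (S5 ∪ S6))
    have a4 := Finset.card_union_le S4 (S5 ∪ S6)
    have a5 := Finset.card_union_le S5 S6
    omega
  have h1' : A ≤ S1.card + (S2.card + (S3.card + (S4.card + (S5.card + S6.card)))) := by
    rw [hA]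
    exact_mod_cast h1
  have h2 : (S2.card : ℝ) ≤ (N + 1) * K * x ^ T.length * A :=
    in_card2 (by omega) hx.le hK hrat hsup T N
  have h3 : (S3.card : ℝ) ≤ F n x * A := by
    have h := left_card (N := N) hn That false (by
      intro p i hp hpi hi hj
      exact Or.inl (h.suf p i hp hpi hi hj)) hx hx1 hrec
    rwa [if_neg (by simp), add_zero] at h
  have h4 : (S4.card : ℝ) ≤ (F n x + if e = true then x ^ (n - 2) else 0) * A := by
    have h := left_card (N := N) hn That.reverse e (by
      intro p i hp hpi hi hj
      rw [List.length_reverse] at hi hj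
      refine h.pre p i hp hpi hi ?_
      intro j hjp
      have h5 := hj (That.length - 1 - (j + p)) (by omega) (by omega)
      rw [List.getElem?_reverse (by omega), List.getElem?_reverse (by omega)] at h5
      rw [show That.length - 1 - (That.length - 1 - (j + p) + p) = j by omega,
        show That.length - 1 - (That.length - 1 - (j + p)) = j + p by omega] at h5
      exact h5.symm) hx hx1 hrec
    refine le_trans ?_ h
    norm_cast
    refine Finset.card_le_card_of_injOn (fun y => y.reverse) ?_ ?_
    · intro y hy
      rw [hS4, Finset.mem_coe, Finset.mem_filter, mem_G (by omega)] at hy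
      rw [Finset.mem_coe, Finset.mem_filter, mem_G (by omega)]
      refine ⟨⟨PFree.rev hy.1.1, ?_⟩, hy.2⟩
      rw [List.length_reverse]
      exact hy.1.2
    · intro y1 _ y2 _ h
      exact List.reverse_injective h
  have h5 : (S5.card : ℝ) ≤ N * x ^ (N - P) * A := by
    have h6 : S5.card ≤ ∑ p ∈ Finset.Icc 1 ((2 * That.length + N) / n),
        ((G α n N).filter (Per p)).card := Finset.card_biUnion_le
    calc (S5.card : ℝ) ≤ ∑ p ∈ Finset.Icc 1 ((2 * That.length + N) / n),
          (((G α n N).filter (Per p)).card : ℝ) := by exact_mod_cast h6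
      _ ≤ ∑ p ∈ Finset.Icc 1 ((2 * That.length + N) / n), x ^ (N - P) * A := by
          refine Finset.sum_le_sum fun p hp => ?_
          rw [Finset.mem_Icc] at hp
          have h7 := per_card (α := α) (n := n) (by omega) (p := p) (N := N) (by omega) (by omega)
          calc (((G α n N).filter (Per p)).card : ℝ) ≤ ((G α n p).card : ℝ) := by exact_mod_cast h7
            _ ≤ x ^ (N - p) * A := ratio_le hx.le hrat (by omega)
            _ ≤ x ^ (N - P) * A := mul_le_mul_of_nonneg_right
                (pow_le_pow_of_le_one hx.le hx1.le (by omega)) hA0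
      _ = (((2 * That.length + N) / n : ℕ) : ℝ) * (x ^ (N - P) * A) := by
          rw [Finset.sum_const, nsmul_eq_mul, Nat.card_Icc, Nat.add_sub_cancel]
      _ ≤ (N : ℝ) * (x ^ (N - P) * A) := by
          refine mul_le_mul_of_nonneg_right ?_ (by positivity)
          exact_mod_cast (by omega : (2 * That.length + N) / n ≤ N)
      _ = _ := by ring
  have h6 : (S6.card : ℝ) ≤ (x ^ C / (1 - x) + (N + V1.length : ℕ) * x ^ N) * A := by
    have h7 : S6.card ≤ ∑ g ∈ Finset.range (N + V1.length),
        ((G α n N).filter (fun y => Per (N + V1.length - g) (V0 ++ y ++ V1))).card :=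
      Finset.card_biUnion_le
    calc (S6.card : ℝ) ≤ ∑ g ∈ Finset.range (N + V1.length),
          (((G α n N).filter (fun y => Per (N + V1.length - g) (V0 ++ y ++ V1))).card : ℝ) := by
          exact_mod_cast h7
      _ ≤ ∑ g ∈ Finset.range (N + V1.length), (x ^ (C + g) + x ^ N) * A := by
          refine Finset.sum_le_sum fun g hg => ?_
          rw [Finset.mem_range] at hg
          have h8 := border_card (α := α) (n := n) (by omega) V0 V1 N (N + V1.length - g)
            (by omega) (by omega)
          calc (((G α n N).filter (fun y => Per (N + V1.length - g) (V0 ++ y ++ V1))).card : ℝ)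
              ≤ ((G α n (N + V1.length - g - V0.length)).card : ℝ) := by exact_mod_cast h8
            _ ≤ x ^ (N - (N + V1.length - g - V0.length)) * A := ratio_le hx.le hrat (by omega)
            _ ≤ (x ^ (C + g) + x ^ N) * A := by
                refine mul_le_mul_of_nonneg_right ?_ hA0
                by_cases c : C + g ≤ N
                · rw [show N - (N + V1.length - g - V0.length) = C + g by omega]
                  have : 0 ≤ x ^ N := by positivity
                  linarith
                · rw [show N - (N + V1.length - g - V0.length) = N by omega]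
                  have : 0 ≤ x ^ (C + g) := by positivity
                  linarith
      _ = (∑ g ∈ Finset.range (N + V1.length), x ^ (C + g) + (N + V1.length : ℕ) * x ^ N) * A := by
          rw [← Finset.sum_mul, Finset.sum_add_distrib, Finset.sum_const, nsmul_eq_mul,
            Finset.card_range]
      _ ≤ _ := by
          refine mul_le_mul_of_nonneg_right ?_ hA0
          have := geo_sum hx.le hx1 C (N + V1.length)
          linarith
  calc A ≤ S1.card + (S2.card + (S3.card + (S4.card + (S5.card + S6.card)))) := h1'
    _ ≤ _ := by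
      have e1 : ((2 * F n x + if e = true then x ^ (n - 2) else 0) + (N + 1) * K * x ^ T.length +
        N * x ^ (N - P) + (x ^ C / (1 - x) + (N + V1.length : ℕ) * x ^ N)) * A =
        (N + 1) * K * x ^ T.length * A + (F n x * A + ((F n x + if e = true then x ^ (n - 2)
          else 0) * A + (N * x ^ (N - P) * A +
          (x ^ C / (1 - x) + (N + V1.length : ℕ) * x ^ N) * A))) := by
        ring
      rw [e1]
      linarith

end

end Pool.Agent.Helper14.ER
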