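import Pool.Agent.Helper14.ER.Cnt

/-!
# Exact rate for strongly k-abelian powers: markers over three letters
-/

set_option autoImplicit false

namespace Pool.Agent.Helper14.ER

open Pool.Agent.Helper14.SK Pool.Agent.Helper18.SK

/-- A marker from a sequence of codes. -/
theorem marker_of {α : Type} {n : ℕ} {e : Bool} (g : ℕ → ℕ) (M1 M2 : ℕ) (φ : ℕ → α)
    (hφ : ∀ i j, φ (g i) = φ (g j) → g i = g j)
    (u1 : ∀ q, 0 < q → q < M1 → ¬ ∀ j < M1, q + j < M1 → g (q + j) = g j)
    (c1 : ∀ q < M1, ¬ ∀ j < M2, q + j < M1 → g (q + j) = g (M1 + j))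
    (c2 : ∀ q < M2, ¬ ∀ j < M1, q + j < M2 → g (M1 + (q + j)) = g j)
    (t1 : 1 ≤ M1) (t2 : 1 ≤ M2)
    (pf : ∀ p q, 0 < p → q + n * p ≤ M1 + M2 →
      ¬ ∀ j, q ≤ j → j + p < q + n * p → g j = g (j + p))
    (suf : ∀ p i, 0 < p → p < i → i ≤ M1 + M2 →
      (∀ j, M1 + M2 - i ≤ j → j + p < M1 + M2 → g j = g (j + p)) → i < 2 * p)
    (pre : ∀ p i, 0 < p → p < i → i ≤ M1 + M2 →
      (∀ j, j + p < i → g j = g (j + p)) → i < 2 * p ∨ (e = true ∧ p = 1 ∧ i = 2)) :
    Marker n e ((List.range M1).map (fun j => φ (g j)))
      ((List.range M2).map (fun j => φ (g (M1 + j)))) := by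
  set T1 := (List.range M1).map (fun j => φ (g j)) with hT1
  set T2 := (List.range M2).map (fun j => φ (g (M1 + j))) with hT2
  have hl1 : T1.length = M1 := by rw [hT1, List.length_map, List.length_range]
  have hl2 : T2.length = M2 := by rw [hT2, List.length_map, List.length_range]
  have g1 : ∀ j < M1, T1[j]? = some (φ (g j)) := by
    intro j hj
    rw [hT1, List.getElem?_map, List.getElem?_range hj]
    rfl
  have g2 : ∀ j < M2, T2[j]? = some (φ (g (M1 + j))) := by
    intro j hj
    rw [hT2, List.getElem?_map, List.getElem?_range hj]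
    rfl
  have hl : (T1 ++ T2).length = M1 + M2 := by rw [List.length_append, hl1, hl2]
  have g3 : ∀ j < M1 + M2, (T1 ++ T2)[j]? = some (φ (g j)) := by
    intro j hj
    by_cases c : j < M1
    · rw [List.getElem?_append_left (by omega), g1 j c]
    · rw [List.getElem?_append_right (by omega), hl1, g2 _ (by omega)]
      congr 3
      omega
  constructor
  · intro q h0 hq hf
    rw [hl1] at hq
    apply u1 q h0 hq
    intro j hj hqj
    have h := hf j (by omega) (by omega)
    rw [g1 _ hqj, g1 _ hj] at h
    exact hφ _ _ (Option.some.inj h)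
  · intro q hq hf
    rw [hl1] at hq
    apply c1 q hq
    intro j hj hqj
    have h := hf j (by omega) (by omega)
    rw [g1 _ hqj, g2 _ hj] at h
    exact hφ _ _ (Option.some.inj h)
  · intro q hq hf
    rw [hl2] at hq
    apply c2 q hq
    intro j hj hqj
    have h := hf j (by omega) (by omega)
    rw [g2 _ hqj, g1 _ hj] at h
    exact hφ _ _ (Option.some.inj h)
  · rw [hl1]
    exact t1
  · rw [hl2]
    exact t2
  · intro z hz hinf
    obtain ⟨q, hq⟩ := at_of_infix hinf
    have hq1 := hq.1
    rw [hl, pow_length] at hq1
    apply pf z.length q (List.length_pos_iff.2 hz) hq1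
    intro j hj1 hj2
    have h := hq.per j hj1 hj2
    rw [g3 _ (by omega), g3 _ (by omega)] at h
    exact hφ _ _ (Option.some.inj h)
  · intro p i hp hpi hi hj
    rw [hl] at hi hj
    apply suf p i hp hpi hi
    intro j hj1 hj2
    have h := hj j hj1 hj2
    rw [g3 _ (by omega), g3 _ (by omega)] at h
    exact hφ _ _ (Option.some.inj h)
  · intro p i hp hpi hi hj
    rw [hl] at hi
    apply pre p i hp hpi hi
    intro j hj1
    have h := hj j hj1
    rw [g3 _ (by omega), g3 _ (by omega)] at h
    exact hφ _ _ (Option.some.inj h)

/-- The codes of the marker `c b c S c c a`, where `S` is a beginning of the Thue–Morse word. -/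
def gB (s j : ℕ) : ℕ :=
  if j = 0 then 2 else if j = 1 then 1 else if j = 2 then 2 else
    if j < 3 + s then tm (j - 3) else if j < 5 + s then 2 else 0

theorem gB_lt (s j : ℕ) : gB s j < 3 := by
  unfold gB
  have := tm_lt (j - 3)
  split_ifs <;> omega

theorem tm_zero : tm 0 = 0 := rfl

theorem markerB {α : Type} (a b c : α) (hab : a ≠ b) (hac : a ≠ c) (hbc : b ≠ c) {n : ℕ}
    (hn : 3 ≤ n) (s : ℕ) (hs : 2 ≤ s) :
    ∃ T1 T2 : List α, Marker n false T1 T2 ∧ T1.length = 3 + s ∧ T2.length = 3 := by
  let φ : ℕ → α := fun i => if i = 0 then a else if i = 1 then b else c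
  have hφ : ∀ i j, i < 3 → j < 3 → φ i = φ j → i = j := by
    intro i j hi hj h
    simp only [φ] at h
    interval_cases i <;> interval_cases j <;> simp_all
  have v0 : gB s 0 = 2 := by simp [gB]
  have v1 : gB s 1 = 1 := by simp [gB]
  have v2 : gB s 2 = 2 := by simp [gB]
  have vS : ∀ j, 3 ≤ j → j < 3 + s → gB s j = tm (j - 3) := by
    intro j h1 h2
    unfold gB
    rw [if_neg (by omega), if_neg (by omega), if_neg (by omega), if_pos h2]
  have vS2 : ∀ j, 3 ≤ j → j < 3 + s → gB s j < 2 := by
    intro j h1 h2
    rw [vS j h1 h2]
    exact tm_lt _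
  have v3 : gB s 3 = 0 := by
    rw [vS 3 le_rfl (by omega)]
    rfl
  have w1 : gB s (3 + s) = 2 := by
    unfold gB
    rw [if_neg (by omega), if_neg (by omega), if_neg (by omega), if_neg (by omega),
      if_pos (by omega)]
  have w2 : gB s (3 + s + 1) = 2 := by
    unfold gB
    rw [if_neg (by omega), if_neg (by omega), if_neg (by omega), if_neg (by omega),
      if_pos (by omega)]
  have w3 : gB s (3 + s + 2) = 0 := by
    unfold gB
    rw [if_neg (by omega), if_neg (by omega), if_neg (by omega), if_neg (by omega),
      if_neg (by omega)]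
  have two : ∀ j < 3 + s + 3, gB s j = 2 → j = 0 ∨ j = 2 ∨ j = 3 + s ∨ j = 3 + s + 1 := by
    intro j hj h
    by_contra hc
    push Not at hc
    obtain ⟨k1, k2, k3, k4⟩ := hc
    by_cases k5 : j = 1
    · subst k5
      omega
    by_cases k6 : j < 3 + s
    · have := vS2 j (by omega) k6
      omega
    · have k7 : j = 3 + s + 2 := by omega
      subst k7
      omega
  refine ⟨_, _, marker_of (n := n) (e := false) (gB s) (3 + s) 3 φ
    (fun i j h => hφ _ _ (gB_lt s i) (gB_lt s j) h) ?_ ?_ ?_ (by omega) (by omega) ?_ ?_ ?_,
    by simp, by simp⟩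
  · intro q h0 hq h
    by_cases k1 : q = 1
    · subst k1
      have := h 0 (by omega) (by omega)
      rw [v0, v1] at this
      omega
    by_cases k2 : q = 2
    · subst k2
      have := h 1 (by omega) (by omega)
      rw [v1, v3] at this
      omega
    · have := h 0 (by omega) (by omega)
      have h2 := vS2 q (by omega) hq
      rw [add_zero, v0] at this
      omega
  · intro q hq h
    by_cases k0 : q = 0
    · subst k0
      have := h 1 (by omega) (by omega)
      rw [w2, v1] at this
      omega
    by_cases k1 : q = 1
    · subst k1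
      have := h 0 (by omega) (by omega)
      rw [add_zero, add_zero, w1, v1] at this
      omega
    by_cases k2 : q = 2
    · subst k2
      have := h 1 (by omega) (by omega)
      rw [w2, v3] at this
      omega
    · have := h 0 (by omega) (by omega)
      have h2 := vS2 q (by omega) hq
      rw [add_zero, add_zero, w1] at this
      omega
  · intro q hq h
    by_cases k0 : q = 0
    · subst k0
      have := h 1 (by omega) (by omega)
      rw [w2, v1] at this
      omega
    by_cases k1 : q = 1
    · subst k1
      have := h 1 (by omega) (by omega)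
      rw [w3, v1] at this
      omega
    by_cases k2 : q = 2
    · subst k2
      have := h 0 (by omega) (by omega)
      rw [w3, v0] at this
      omega
    · omega
  · intro p q hp hq h
    have hnp : 3 * p ≤ n * p := Nat.mul_le_mul_right _ hn
    -- no code `2`
    have hno : ∀ t, q ≤ t → t < q + n * p → gB s t ≠ 2 := by
      intro t ht1 ht2 h2
      have hper : ∀ j, j + p < n * p → gB s (q + j) = gB s (q + (j + p)) := by
        intro j hj
        have := h (q + j) (by omega) (by omega)
        rw [this]
        congr 1
        omega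
      have hr := Nat.mod_lt (t - q) hp
      have hle := Nat.mod_le (t - q) p
      have e1 : gB s (q + (t - q) % p) = 2 := by
        have := per_mod (fun j => gB s (q + j)) (n * p) p hper (t - q) (by omega)
        beta_reduce at this
        rw [← this, show q + (t - q) = t by omega]
        exact h2
      set r := (t - q) % p with hrdef
      have e2 : gB s (q + (r + p)) = 2 := by rw [← hper r (by omega), e1]
      have e3 : gB s (q + (r + p + p)) = 2 := by rw [← hper (r + p) (by omega), e2]
      have f1 := two _ (by omega) e1
      have f2 := two _ (by omega) e2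
      have f3 := two _ (by omega) e3
      omega
    have hq3 : 3 ≤ q := by
      by_contra hc
      have h1 := hno 2
      have h2 := hno 0
      omega
    have hqs : q + n * p ≤ 3 + s := by
      by_contra hc
      have h1 := hno (3 + s)
      have h2 := hno (3 + s + 1)
      omega
    refine tm_no_overlap p hp (q - 3) fun j hj => ?_
    have h1 := h (q + j) (by omega) (by omega)
    rw [vS _ (by omega) (by omega), vS _ (by omega) (by omega)] at h1
    rw [show q - 3 + j = q + j - 3 by omega, h1]
    congr 1
    omega
  · intro p i hp hpi hi h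
    by_contra hc
    push Not at hc
    by_cases k1 : p = 1
    · subst k1
      have := h (3 + s + 1) (by omega) (by omega)
      rw [w2, show 3 + s + 1 + 1 = 3 + s + 2 by omega, w3] at this
      omega
    by_cases k2 : p = 2
    · subst k2
      have := h (3 + s) (by omega) (by omega)
      rw [w1, w3] at this
      omega
    have h1 := h (3 + s + 1 - p) (by omega) (by omega)
    have h2 := h (3 + s - p) (by omega) (by omega)
    rw [show 3 + s + 1 - p + p = 3 + s + 1 by omega, w2] at h1
    rw [show 3 + s - p + p = 3 + s by omega, w1] at h2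
    have f1 := two _ (by omega) h1
    have f2 := two _ (by omega) h2
    omega
  · intro p i hp hpi hi h
    left
    by_contra hc
    push Not at hc
    by_cases k1 : p = 1
    · subst k1
      have := h 0 (by omega)
      rw [v0, v1] at this
      omega
    by_cases k2 : p = 2
    · subst k2
      have := h 1 (by omega)
      rw [v1, v3] at this
      omega
    have h1 := h 0 (by omega)
    rw [v0, zero_add] at h1
    have f1 := two _ (by omega) h1.symm
    omega

end Pool.Agent.Helper14.ER
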