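import Pool.Agent.Helper14.ER.Pos

/-!
# Exact rate for strongly k-abelian powers: the code of a marker
-/

set_option autoImplicit false

namespace Pool.Agent.Helper14.ER

open Pool.Agent.Helper14.SK Pool.Agent.Helper18.SK

variable {α : Type}

/-- A marker `T1 T2`. -/
structure Marker (n : ℕ) (e : Bool) (T1 T2 : List α) : Prop where
  u1 : ∀ q, 0 < q → q < T1.length → ¬ Fit T1 T1 q
  c1 : ∀ q < T1.length, ¬ Fit T1 T2 q
  c2 : ∀ q < T2.length, ¬ Fit T2 T1 q
  t1 : 1 ≤ T1.length
  t2 : 1 ≤ T2.length
  pf : PFree n (T1 ++ T2)
  suf : ∀ p i, 0 < p → p < i → i ≤ (T1 ++ T2).length →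
    (∀ j, (T1 ++ T2).length - i ≤ j → j + p < (T1 ++ T2).length →
      (T1 ++ T2)[j]? = (T1 ++ T2)[j + p]?) → i < 2 * p
  pre : ∀ p i, 0 < p → p < i → i ≤ (T1 ++ T2).length →
    (∀ j, j + p < i → (T1 ++ T2)[j]? = (T1 ++ T2)[j + p]?) → i < 2 * p ∨ (e = true ∧ p = 1 ∧ i = 2)

variable {n : ℕ} {e : Bool} {T1 T2 : List α}

theorem Marker.u (h : Marker n e T1 T2) (q : ℕ) (h0 : 0 < q) (h1 : q < (T1 ++ T2).length) :
    ¬ Fit (T1 ++ T2) (T1 ++ T2) q := by
  intro hf
  rw [List.length_append] at h1
  by_cases hq : q < T1.length
  · apply h.u1 q h0 hq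
    intro j hj hqj
    have h2 := hf j (by rw [List.length_append]; omega) (by rw [List.length_append]; omega)
    rwa [List.getElem?_append_left hqj, List.getElem?_append_left hj] at h2
  · apply h.c2 (q - T1.length) (by omega)
    intro j hj hqj
    have h2 := hf j (by rw [List.length_append]; omega) (by rw [List.length_append]; omega)
    rw [List.getElem?_append_right (by omega), List.getElem?_append_left hj] at h2
    rw [← h2]
    congr 1
    omega

/-- `T1` occurs in `T2 y T1` only at the end. -/
theorem Marker.no_occ (h : Marker n e T1 T2) {y : List α} (hy : ¬ T1 <:+: y) {s : ℕ}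
    (hs : At T1 (T2 ++ y ++ T1) s) : s = T2.length + y.length := by
  obtain ⟨h1, h2⟩ := hs
  rw [List.length_append, List.length_append] at h1
  by_contra hne
  by_cases c1 : s < T2.length
  · apply h.c2 s c1
    intro j hj hsj
    rw [← h2 j hj, List.append_assoc, List.getElem?_append_left hsj]
  by_cases c2 : s + T1.length ≤ T2.length + y.length
  · apply hy
    have h3 : At T1 (T2 ++ y) s := by
      refine At.left (b := T1) ⟨?_, h2⟩ ?_
      · rw [List.length_append, List.length_append]
        omega
      · rw [List.length_append]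
        omega
    exact (h3.right (by omega)).inw
  · apply h.u1 (T2.length + y.length - s) (by omega) (by omega)
    intro j hj hqj
    rw [← h2 _ hqj]
    rw [List.getElem?_append_right (by rw [List.length_append]; omega), List.length_append]
    congr 1
    omega

theorem Marker.nonOverlap (h : Marker n e T1 T2) {N : ℕ} {y y' : List α}
    (hy : ¬ T1 <:+: y) (hyl : y.length = N) (hyl' : y'.length = N) (k : ℕ) (hk1 : 1 ≤ k)
    (hk2 : k < T2.length + N + T1.length) :
    (T2 ++ y ++ T1).take k ≠ (T2 ++ y' ++ T1).drop (T2.length + N + T1.length - k) := by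
  intro he
  set δ := T2.length + N + T1.length - k with hδ
  have key : ∀ j < k, (T2 ++ y ++ T1)[j]? = (T2 ++ y' ++ T1)[δ + j]? := by
    intro j hj
    have h1 := congrArg (fun l => l[j]?) he
    beta_reduce at h1
    rwa [List.getElem?_take, if_pos hj, List.getElem?_drop] at h1
  by_cases c1 : T2.length + N ≤ δ
  · apply h.c1 (δ - (T2.length + N)) (by omega)
    intro j hj hqj
    have h1 := key j (by omega)
    rw [List.append_assoc, List.getElem?_append_left hj,
      List.getElem?_append_right (by rw [List.length_append]; omega), List.length_append] at h1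
    rw [h1]
    congr 1
    omega
  · have h1 : At T1 (T2 ++ y ++ T1) (T2.length + N - δ) := by
      refine ⟨?_, fun j hj => ?_⟩
      · rw [List.length_append, List.length_append]
        omega
      · rw [key _ (by omega), List.getElem?_append_right (by rw [List.length_append]; omega),
          List.length_append]
        congr 1
        omega
    have h2 := h.no_occ hy h1
    omega

theorem Marker.no_pow (h : Marker n e T1 T2) (hn : 3 ≤ n) {N : ℕ} {y y' : List α}
    (hy : ¬ T1 <:+: y) (hy' : ¬ T1 <:+: y') (hyl : y.length = N) (hyl' : y'.length = N)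
    (hp : PFree n ((T1 ++ T2) ++ y ++ (T1 ++ T2))) (hp' : PFree n ((T1 ++ T2) ++ y' ++ (T1 ++ T2)))
    (z : List α) (hz : z ≠ []) :
    ¬ (List.replicate n z).flatten <:+:
      (T2 ++ y ++ T1).drop 1 ++ (T2 ++ y' ++ T1).take (T2.length + N + T1.length - 1) := by
  intro hinf
  have hzl : 1 ≤ z.length := List.length_pos_iff.2 hz
  obtain ⟨q0, hq0⟩ := at_of_infix hinf
  have ht2 := h.t2
  have ht1 := h.t1
  set X := T2 ++ y ++ T1 with hX
  set X' := T2 ++ y' ++ T1 with hX'
  set ℓ := T2.length + N + T1.length with hℓ
  have hXl : X.length = ℓ := by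
    rw [hX, List.length_append, List.length_append, hyl]
  have hXl' : X'.length = ℓ := by
    rw [hX', List.length_append, List.length_append, hyl']
  set u := (List.replicate n z).flatten with hu
  have hul : u.length = n * z.length := pow_length z n
  -- the position in `X ++ X'`
  obtain ⟨q, hq1, hq2, hq⟩ : ∃ q, 1 ≤ q ∧ q + n * z.length + 1 ≤ 2 * ℓ ∧ At u (X ++ X') q := by
    obtain ⟨h1, h2⟩ := hq0
    rw [List.length_append, List.length_drop, List.length_take] at h1
    refine ⟨q0 + 1, by omega, by omega, ?_, fun j hj => ?_⟩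
    · rw [List.length_append]
      omega
    · rw [← h2 j hj]
      have e1 : X ++ X' = X.take 1 ++ (X.drop 1 ++ X'.take (ℓ - 1)) ++ X'.drop (ℓ - 1) := by
        conv_lhs => rw [← List.take_append_drop 1 X, ← List.take_append_drop (ℓ - 1) X']
        simp only [List.append_assoc]
      rw [e1, List.append_assoc, List.getElem?_append_right (by rw [List.length_take]; omega),
        List.getElem?_append_left (by
          rw [List.length_append, List.length_drop, List.length_take, List.length_take]
          omega)]
      congr 1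
      rw [List.length_take]
      omega
  set τ := (T1 ++ T2).length with hτ
  have hτ' : τ = T1.length + T2.length := by rw [hτ, List.length_append]
  set o := T2.length + N with ho
  have e1 : X ++ X' = (T2 ++ y ++ (T1 ++ T2)) ++ (y' ++ T1) := by
    rw [hX, hX']
    simp only [List.append_assoc]
  have e2 : X ++ X' = (T2 ++ y) ++ ((T1 ++ T2) ++ y' ++ T1) := by
    rw [hX, hX']
    simp only [List.append_assoc]
  by_cases c1 : q + n * z.length ≤ o + τ
  · apply hp z hz
    rw [e1] at hq
    have h1 : At u (T2 ++ y ++ (T1 ++ T2)) q := by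
      refine hq.left ?_
      rw [List.length_append, List.length_append, hyl, hul]
      exact c1
    refine h1.inw.trans ?_
    refine ⟨T1, [], ?_⟩
    simp only [List.append_assoc, List.append_nil]
  by_cases c2 : o ≤ q
  · apply hp' z hz
    rw [e2] at hq
    have h1 := hq.right (by rw [List.length_append, hyl]; exact c2)
    refine h1.inw.trans ?_
    refine ⟨[], T2, ?_⟩
    simp only [List.append_assoc, List.nil_append]
  push Not at c1 c2
  have hT : ∀ j < τ, (X ++ X')[o + j]? = (T1 ++ T2)[j]? := by
    intro j hj
    rw [e2, List.getElem?_append_right (by rw [List.length_append]; omega), List.length_append,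
      List.append_assoc, List.getElem?_append_left (by omega)]
    congr 1
    omega
  have hT1 : ∀ j < T1.length, (X ++ X')[o + j]? = T1[j]? := by
    intro j hj
    rw [hT j (by omega), List.getElem?_append_left hj]
  have hper := hq.per
  have hpτ : τ ≤ z.length := by
    by_contra hc
    push Not at hc
    apply h.u z.length hzl hc
    intro j hj hpj
    rw [← hT _ hpj, ← hT j hj]
    have h1 := hper (o + j) (by omega) (by omega)
    rw [h1]
    congr 1
    omega
  have h3 : 3 * z.length ≤ n * z.length := Nat.mul_le_mul_right _ hn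
  by_cases c3 : z.length ≤ o - q
  · -- to the left
    have h1 : At T1 X (o - z.length) := by
      refine At.left (b := X') ⟨?_, fun j hj => ?_⟩ (by omega)
      · rw [List.length_append]
        omega
      · rw [hper _ (by omega) (by omega), ← hT1 j hj]
        congr 1
        omega
    have h2 := h.no_occ hy h1
    omega
  · have h1 : At T1 X' (o + z.length - X.length) := by
      refine At.right (a := X) ⟨?_, fun j hj => ?_⟩ (by omega)
      · rw [List.length_append]
        omega
      · rw [← hT1 j hj, hper (o + j) (by omega) (by omega)]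
        congr 1
        omega
    have h2 := h.no_occ hy' h1
    omega

variable [DecidableEq α]

/-- The lower bound from a set of words that fit between two copies of the marker. -/
theorem Marker.bound [Fintype α] (h : Marker n e T1 T2) (hn : 3 ≤ n) {k N : ℕ}
    (hk : T2.length + N + T1.length ≤ k) (Y : List (List α)) (hnd : Y.Nodup) (hY0 : Y ≠ [])
    (hY : ∀ y ∈ Y, y.length = N ∧ ¬ T1 <:+: y ∧ PFree n ((T1 ++ T2) ++ y ++ (T1 ++ T2))) :
    ∃ w : List α, Avoids k n w ∧ (n - 1) ^ Y.length ≤ w.length + 1 := by
  have hinj : Function.Injective (fun y : List α => T2 ++ y ++ T1) := by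
    intro y y' h
    simp only [List.append_assoc, List.append_cancel_left_eq] at h
    exact List.append_cancel_right h
  have ht1 := h.t1
  obtain ⟨w, hw1, hw2⟩ := code_bound (k := k) (n := n) (ℓ := T2.length + N + T1.length)
    (S := Y.map (fun y => T2 ++ y ++ T1)) (by omega) hk hn (by
      constructor
      · intro x hx
        rw [List.mem_map] at hx
        obtain ⟨y, hy, rfl⟩ := hx
        rw [List.length_append, List.length_append, (hY y hy).1]
      · intro x hx x' hx' j h1 h2
        rw [List.mem_map] at hx hx'
        obtain ⟨y, hy, rfl⟩ := hx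
        obtain ⟨y', hy', rfl⟩ := hx'
        exact h.nonOverlap (hY y hy).2.1 (hY y hy).1 (hY y' hy').1 j h1 h2)
    (hnd.map hinj) (by simpa using hY0) (by
      intro x hx x' hx' z hz
      rw [List.mem_map] at hx hx'
      obtain ⟨y, hy, rfl⟩ := hx
      obtain ⟨y', hy', rfl⟩ := hx'
      exact h.no_pow hn (hY y hy).2.1 (hY y' hy').2.1 (hY y hy).1 (hY y' hy').1 (hY y hy).2.2
        (hY y' hy').2.2 z hz)
  refine ⟨w, hw1, ?_⟩
  rw [List.length_map] at hw2
  set ℓ := T2.length + N + T1.length with hℓ
  have hℓ1 : 1 ≤ ℓ := by omega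
  have h5 : ℓ * (n - 1) ^ Y.length ≤ ℓ * (w.length + 1) := by
    calc ℓ * (n - 1) ^ Y.length ≤ w.length + ℓ := hw2
      _ ≤ ℓ * w.length + ℓ := by nlinarith [Nat.zero_le w.length]
      _ = ℓ * (w.length + 1) := by ring
  exact Nat.le_of_mul_le_mul_left h5 (by omega)

end Pool.Agent.Helper14.ER
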