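import Pool.Agent.Helper14.ER.SepB

/-!
# Order of log L: separators over two letters without fourth powers
-/

set_option autoImplicit false

namespace Pool.Agent.Helper14.ER

open Pool.Agent.Helper14.SK Pool.Agent.Helper18.SK

/-- The codes of `a b a a b b b, a a a S, a a a b a a a b b b a a b`, where `S` is a reversed
beginning of the Thue–Morse word. -/
def hC (s j : ℕ) : ℕ :=
  if j < 10 then (if j = 1 ∨ j = 4 ∨ j = 5 ∨ j = 6 then 1 else 0) else
    if j < 10 + s then tm (s - (j - 10)) else
      if j = 10 + s + 3 ∨ j = 10 + s + 7 ∨ j = 10 + s + 8 ∨ j = 10 + s + 9 ∨ j = 10 + s + 12 then 1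
      else 0

theorem hC_lt (s j : ℕ) : hC s j < 2 := by
  unfold hC
  have := tm_lt (s - (j - 10))
  split_ifs <;> omega

section

variable {s : ℕ}

theorem C0 {j : ℕ} (h : j < 10) (h' : j ≠ 1 ∧ j ≠ 4 ∧ j ≠ 5 ∧ j ≠ 6) : hC s j = 0 := by
  unfold hC
  rw [if_pos h, if_neg (by omega)]

theorem C1 {j : ℕ} (h : j = 1 ∨ j = 4 ∨ j = 5 ∨ j = 6) : hC s j = 1 := by
  unfold hC
  rw [if_pos (by omega), if_pos h]

theorem C3 {j : ℕ} (h1 : 10 ≤ j) (h2 : j < 10 + s) : hC s j = tm (s - (j - 10)) := by
  unfold hC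
  rw [if_neg (by omega), if_pos h2]

theorem C4 (i : ℕ) (hi : i = 3 ∨ i = 7 ∨ i = 8 ∨ i = 9 ∨ i = 12) : hC s (10 + s + i) = 1 := by
  unfold hC
  rw [if_neg (by omega), if_neg (by omega), if_pos (by omega)]

theorem C5 (i : ℕ) (hi : i ≠ 3 ∧ i ≠ 7 ∧ i ≠ 8 ∧ i ≠ 9 ∧ i ≠ 12) :
    hC s (10 + s + i) = 0 := by
  unfold hC
  rw [if_neg (by omega), if_neg (by omega), if_neg (by omega)]

theorem Cthree {t : ℕ} (h1 : 10 ≤ t) (h2 : t + 2 < 10 + s) :
    ¬ (hC s t = hC s (t + 1) ∧ hC s (t + 1) = hC s (t + 2)) := by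
  rintro ⟨e1, e2⟩
  rw [C3 (by omega) (by omega), C3 (by omega) (by omega)] at e1 e2
  refine tm_three (s - (t + 2 - 10)) ⟨?_, ?_⟩
  · rw [← e2]
    congr 1
    omega
  · rw [show s - (t + 2 - 10) + 1 = s - (t + 1 - 10) by omega, ← e1]
    congr 1
    omega

theorem Cover {t p : ℕ} (hp : 1 ≤ p) (h1 : 10 ≤ t) (h2 : t + 2 * p < 10 + s) :
    ¬ ∀ j ≤ p, hC s (t + j) = hC s (t + j + p) := by
  intro h
  refine tm_no_overlap p hp (s - (t + 2 * p - 10)) fun j hj => ?_
  have h3 := h (p - j) (by omega)
  rw [C3 (by omega) (by omega), C3 (by omega) (by omega)] at h3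
  rw [show s - (t + 2 * p - 10) + j = s - (t + (p - j) + p - 10) by omega, ← h3]
  congr 1
  omega

/-- Three ones in a row. -/
theorem Cones {t : ℕ} (hs : 8 ≤ s) (h2 : t + 2 < 10 + s + 13)
    (h : hC s t = 1 ∧ hC s (t + 1) = 1 ∧ hC s (t + 2) = 1) : t = 4 ∨ t = 10 + s + 7 := by
  obtain ⟨e0, e1, e2⟩ := h
  by_contra hcon
  push Not at hcon
  obtain ⟨n1, n2⟩ := hcon
  by_cases k1 : t < 10
  · by_cases k2 : t = 0 ∨ t = 2 ∨ t = 3 ∨ t = 7 ∨ t = 8 ∨ t = 9
    · rw [C0 k1 (by omega)] at e0
      omega
    · have k3 : t = 1 ∨ t = 5 ∨ t = 6 := by omega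
      rcases k3 with k3 | k3 | k3
      · rw [k3, C0 (by omega) (by omega)] at e1
        omega
      · rw [k3, C0 (by omega) (by omega)] at e2
        omega
      · rw [k3, C0 (by omega) (by omega)] at e1
        omega
  by_cases k2 : t + 2 < 10 + s
  · exact Cthree (s := s) (t := t) (by omega) k2 ⟨by omega, by omega⟩
  by_cases k3 : t < 10 + s
  · have := C5 (s := s) 0 (by omega)
    rw [add_zero] at this
    have k4 : t + 1 = 10 + s ∨ t + 2 = 10 + s := by omega
    rcases k4 with k4 | k4
    · rw [k4] at e1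
      omega
    · rw [k4] at e2
      omega
  · obtain ⟨i, rfl⟩ : ∃ i, t = 10 + s + i := ⟨t - (10 + s), by omega⟩
    rw [show 10 + s + i + 1 = 10 + s + (i + 1) by omega] at e1
    rw [show 10 + s + i + 2 = 10 + s + (i + 2) by omega] at e2
    by_cases a0 : i ≠ 3 ∧ i ≠ 7 ∧ i ≠ 8 ∧ i ≠ 9 ∧ i ≠ 12
    · rw [C5 i a0] at e0
      omega
    by_cases a1 : i + 1 ≠ 3 ∧ i + 1 ≠ 7 ∧ i + 1 ≠ 8 ∧ i + 1 ≠ 9 ∧ i + 1 ≠ 12
    · rw [C5 (i + 1) a1] at e1
      omega
    by_cases a2 : i + 2 ≠ 3 ∧ i + 2 ≠ 7 ∧ i + 2 ≠ 8 ∧ i + 2 ≠ 9 ∧ i + 2 ≠ 12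
    · rw [C5 (i + 2) a2] at e2
      omega
    · omega

theorem Cs0 (hs : 8 ≤ s) (h0 : tm s = 1) : hC s 10 = 1 := by
  rw [C3 le_rfl (by omega), Nat.sub_self, Nat.sub_zero, h0]

theorem Cend (r : ℕ) (hr : 1 ≤ r) (hrs : r ≤ s) : hC s (10 + s - r) = tm r := by
  rw [C3 (by omega) (by omega)]
  congr 1
  omega

/-- Three zeros in a row. -/
theorem Czeros {t : ℕ} (hs : 8 ≤ s) (h0 : tm s = 1) (h2 : t + 2 < 10 + s + 13)
    (h : hC s t = 0 ∧ hC s (t + 1) = 0 ∧ hC s (t + 2) = 0) :
    t = 7 ∨ t = 10 + s ∨ t = 10 + s + 4 := by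
  obtain ⟨e0, e1, e2⟩ := h
  by_contra hcon
  push Not at hcon
  obtain ⟨n1, n2, n3⟩ := hcon
  by_cases k1 : t < 10
  · by_cases k2 : t = 1 ∨ t = 4 ∨ t = 5 ∨ t = 6
    · rw [C1 k2] at e0
      omega
    · have k3 : t = 0 ∨ t = 2 ∨ t = 3 ∨ t = 8 ∨ t = 9 := by omega
      rcases k3 with k3 | k3 | k3 | k3 | k3
      · rw [k3, C1 (by omega)] at e1
        omega
      · rw [k3, C1 (by omega)] at e2
        omega
      · rw [k3, C1 (by omega)] at e1
        omega
      · rw [k3, show 8 + 2 = 10 from rfl, Cs0 hs h0] at e2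
        omega
      · rw [k3, show 9 + 1 = 10 from rfl, Cs0 hs h0] at e1
        omega
  by_cases k2 : t + 2 < 10 + s
  · exact Cthree (s := s) (t := t) (by omega) k2 ⟨by omega, by omega⟩
  by_cases k3 : t < 10 + s
  · have := Cend (s := s) 1 (by omega) (by omega)
    rw [show tm 1 = 1 from rfl] at this
    have k4 : t = 10 + s - 1 ∨ t + 1 = 10 + s - 1 := by omega
    rcases k4 with k4 | k4
    · rw [k4] at e0
      omega
    · rw [k4] at e1
      omega
  · obtain ⟨i, rfl⟩ : ∃ i, t = 10 + s + i := ⟨t - (10 + s), by omega⟩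
    rw [show 10 + s + i + 1 = 10 + s + (i + 1) by omega] at e1
    rw [show 10 + s + i + 2 = 10 + s + (i + 2) by omega] at e2
    by_cases a0 : i = 3 ∨ i = 7 ∨ i = 8 ∨ i = 9 ∨ i = 12
    · rw [C4 i a0] at e0
      omega
    by_cases a1 : i + 1 = 3 ∨ i + 1 = 7 ∨ i + 1 = 8 ∨ i + 1 = 9 ∨ i + 1 = 12
    · rw [C4 (i + 1) a1] at e1
      omega
    by_cases a2 : i + 2 = 3 ∨ i + 2 = 7 ∨ i + 2 = 8 ∨ i + 2 = 9 ∨ i + 2 = 12
    · rw [C4 (i + 2) a2] at e2
      omega
    · omega

end

theorem sepmC {α : Type} (a b : α) (hab : a ≠ b) {n : ℕ} (hn : 4 ≤ n) (s : ℕ) (hs : 8 ≤ s)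
    (h0 : tm s = 1) :
    ∃ V1 T V0 : List α, Sepm n false V1 T V0 ∧ V1.length = 7 ∧ T.length = 3 + s ∧
      V0.length = 13 := by
  let φ : ℕ → α := fun i => if i = 0 then a else b
  have hφ : ∀ i j, i < 2 → j < 2 → φ i = φ j → i = j := by
    intro i j hi hj h
    simp only [φ] at h
    interval_cases i <;> interval_cases j <;> simp_all
  have hlt := hC_lt s
  set Z := 10 + s with hZ
  have a0 : hC s 0 = 0 := C0 (by omega) (by omega)
  have a1 : hC s 1 = 1 := C1 (by omega)
  have a2 : hC s 2 = 0 := C0 (by omega) (by omega)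
  have a3 : hC s 3 = 0 := C0 (by omega) (by omega)
  have a4 : hC s 4 = 1 := C1 (by omega)
  have a5 : hC s 5 = 1 := C1 (by omega)
  have a6 : hC s 6 = 1 := C1 (by omega)
  have a7 : hC s 7 = 0 := C0 (by omega) (by omega)
  have a8 : hC s 8 = 0 := C0 (by omega) (by omega)
  have a9 : hC s 9 = 0 := C0 (by omega) (by omega)
  have a10 : hC s 10 = 1 := Cs0 hs h0
  have m1 : hC s (Z - 1) = 1 := Cend 1 (by omega) (by omega)
  have m2 : hC s (Z - 2) = 1 := Cend 2 (by omega) (by omega)
  have m3 : hC s (Z - 3) = 0 := Cend 3 (by omega) (by omega)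
  have m4 : hC s (Z - 4) = 1 := Cend 4 (by omega) (by omega)
  have m5 : hC s (Z - 5) = 0 := Cend 5 (by omega) (by omega)
  have z0 : hC s (Z + 0) = 0 := C5 0 (by omega)
  have z1 : hC s (Z + 1) = 0 := C5 1 (by omega)
  have z2 : hC s (Z + 2) = 0 := C5 2 (by omega)
  have z3 : hC s (Z + 3) = 1 := C4 3 (by omega)
  have z4 : hC s (Z + 4) = 0 := C5 4 (by omega)
  have z5 : hC s (Z + 5) = 0 := C5 5 (by omega)
  have z6 : hC s (Z + 6) = 0 := C5 6 (by omega)
  have z7 : hC s (Z + 7) = 1 := C4 7 (by omega)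
  have z8 : hC s (Z + 8) = 1 := C4 8 (by omega)
  have z9 : hC s (Z + 9) = 1 := C4 9 (by omega)
  have z10 : hC s (Z + 10) = 0 := C5 10 (by omega)
  have z11 : hC s (Z + 11) = 0 := C5 11 (by omega)
  have z12 : hC s (Z + 12) = 1 := C4 12 (by omega)
  have hones : ∀ t, t + 2 < Z + 13 → hC s t = 1 → hC s (t + 1) = 1 → hC s (t + 2) = 1 →
      t = 4 ∨ t = Z + 7 := fun t h1 h2 h3 h4 => Cones hs (by omega) ⟨h2, h3, h4⟩
  have hzeros : ∀ t, t + 2 < Z + 13 → hC s t = 0 → hC s (t + 1) = 0 → hC s (t + 2) = 0 →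
      t = 7 ∨ t = Z ∨ t = Z + 4 := fun t h1 h2 h3 h4 => Czeros hs h0 (by omega) ⟨h2, h3, h4⟩
  rw [add_zero] at z0
  refine ⟨_, _, _, sepm_of (n := n) (e := false) (hC s) 7 (3 + s) 13 φ
    (fun i j h => hφ _ _ (hlt i) (hlt j) h) (by omega) (by omega) (by omega)
    ?_ ?_ ?_ ?_ ?_ ?_ ?_ ?_ ?_ ?_, by simp, by simp, by simp⟩
  · -- `T` against itself
    intro q hq0 hq h
    by_cases k4 : q = 2 + s
    · subst k4
      have := h 0 (by omega) (by omega)
      rw [show 7 + (2 + s + 0) = Z - 1 by omega, m1, show 7 + 0 = 7 from rfl, a7] at this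
      omega
    by_cases k5 : q = 1 + s
    · subst k5
      have := h 0 (by omega) (by omega)
      rw [show 7 + (1 + s + 0) = Z - 2 by omega, m2, show 7 + 0 = 7 from rfl, a7] at this
      omega
    have h1 := h 0 (by omega) (by omega)
    have h2 := h 1 (by omega) (by omega)
    have h3 := h 2 (by omega) (by omega)
    rw [show 7 + 0 = 7 from rfl, a7, show 7 + (q + 0) = 7 + q by omega] at h1
    rw [show 7 + 1 = 8 from rfl, a8, show 7 + (q + 1) = 7 + q + 1 by omega] at h2
    rw [show 7 + 2 = 9 from rfl, a9, show 7 + (q + 2) = 7 + q + 2 by omega] at h3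
    have := hzeros (7 + q) (by omega) h1 h2 h3
    omega
  · -- `T` in `V0`
    intro q hq h
    rw [show 7 + (3 + s) = Z by omega] at h
    by_cases k1 : q = 12
    · subst k1
      have := h 0 (by omega) (by omega)
      rw [show Z + (12 + 0) = Z + 12 by omega, z12, show 7 + 0 = 7 from rfl, a7] at this
      omega
    by_cases k2 : q = 11
    · subst k2
      have := h 1 (by omega) (by omega)
      rw [show Z + (11 + 1) = Z + 12 by omega, z12, show 7 + 1 = 8 from rfl, a8] at this
      omega
    have h1 := h 0 (by omega) (by omega)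
    have h2 := h 1 (by omega) (by omega)
    have h3 := h 2 (by omega) (by omega)
    rw [show 7 + 0 = 7 from rfl, a7, show Z + (q + 0) = Z + q by omega] at h1
    rw [show 7 + 1 = 8 from rfl, a8, show Z + (q + 1) = Z + q + 1 by omega] at h2
    rw [show 7 + 2 = 9 from rfl, a9, show Z + (q + 2) = Z + q + 2 by omega] at h3
    have k3 := hzeros (Z + q) (by omega) h1 h2 h3
    have k4 : q = 0 ∨ q = 4 := by omega
    rcases k4 with k4 | k4 <;> subst k4
    · have u4 := h 4 (by omega) (by omega)
      have u5 := h 5 (by omega) (by omega)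
      have u6 := h 6 (by omega) (by omega)
      rw [show Z + (0 + 4) = Z + 4 by omega, z4, show 7 + 4 = 11 from rfl] at u4
      rw [show Z + (0 + 5) = Z + 5 by omega, z5, show 7 + 5 = 12 from rfl] at u5
      rw [show Z + (0 + 6) = Z + 6 by omega, z6, show 7 + 6 = 13 from rfl] at u6
      exact Cthree (s := s) (t := 11) (by omega) (by omega) ⟨by rw [← u4, ← u5], by
        rw [show 11 + 1 = 12 from rfl, show 11 + 2 = 13 from rfl, ← u5, ← u6]⟩
    · have u3 := h 3 (by omega) (by omega)
      have u4 := h 4 (by omega) (by omega)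
      have u5 := h 5 (by omega) (by omega)
      rw [show Z + (4 + 3) = Z + 7 by omega, z7, show 7 + 3 = 10 from rfl] at u3
      rw [show Z + (4 + 4) = Z + 8 by omega, z8, show 7 + 4 = 11 from rfl] at u4
      rw [show Z + (4 + 5) = Z + 9 by omega, z9, show 7 + 5 = 12 from rfl] at u5
      exact Cthree (s := s) (t := 10) (by omega) (by omega) ⟨by
        rw [show 10 + 1 = 11 from rfl, ← u3, ← u4], by
        rw [show 10 + 1 = 11 from rfl, show 10 + 2 = 12 from rfl, ← u4, ← u5]⟩
  · -- `V1` in `T`
    intro q hq h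
    by_cases r1 : q = 2 + s
    · subst r1
      have := h 0 (by omega) (by omega)
      rw [show 7 + (2 + s + 0) = Z - 1 by omega, m1, a0] at this
      omega
    by_cases r2 : q = 1 + s
    · subst r2
      have := h 0 (by omega) (by omega)
      rw [show 7 + (1 + s + 0) = Z - 2 by omega, m2, a0] at this
      omega
    by_cases r3 : q = s
    · subst r3
      have := h 2 (by omega) (by omega)
      rw [show 7 + (q + 2) = Z - 1 by omega, m1, a2] at this
      omega
    by_cases r4 : q + 1 = s
    · have := h 0 (by omega) (by omega)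
      rw [show 7 + (q + 0) = Z - 4 by omega, m4, a0] at this
      omega
    by_cases r5 : q + 2 = s
    · have := h 3 (by omega) (by omega)
      rw [show 7 + (q + 3) = Z - 2 by omega, m2, a3] at this
      omega
    by_cases r6 : q + 3 = s
    · have := h 1 (by omega) (by omega)
      rw [show 7 + (q + 1) = Z - 5 by omega, m5, a1] at this
      omega
    have h4 := h 4 (by omega) (by omega)
    have h5 := h 5 (by omega) (by omega)
    have h6 := h 6 (by omega) (by omega)
    rw [a4, show 7 + (q + 4) = 11 + q by omega] at h4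
    rw [a5, show 7 + (q + 5) = 11 + q + 1 by omega] at h5
    rw [a6, show 7 + (q + 6) = 11 + q + 2 by omega] at h6
    have := hones (11 + q) (by omega) h4 h5 h6
    omega
  · -- `V0` in `T`
    intro q hq h
    rw [show 7 + (3 + s) = Z by omega] at h
    by_cases r1 : q = 2 + s
    · subst r1
      have := h 0 (by omega) (by omega)
      rw [show 7 + (2 + s + 0) = Z - 1 by omega, m1, add_zero, z0] at this
      omega
    by_cases r2 : q = 1 + s
    · subst r2
      have := h 0 (by omega) (by omega)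
      rw [show 7 + (1 + s + 0) = Z - 2 by omega, m2, add_zero, z0] at this
      omega
    have h1 := h 0 (by omega) (by omega)
    have h2 := h 1 (by omega) (by omega)
    have h3 := h 2 (by omega) (by omega)
    rw [add_zero Z, z0, show 7 + (q + 0) = 7 + q by omega] at h1
    rw [z1, show 7 + (q + 1) = 7 + q + 1 by omega] at h2
    rw [z2, show 7 + (q + 2) = 7 + q + 2 by omega] at h3
    have k3 := hzeros (7 + q) (by omega) h1 h2 h3
    have k4 : q = 0 := by omega
    subst k4
    have u4 := h 4 (by omega) (by omega)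
    have u5 := h 5 (by omega) (by omega)
    have u6 := h 6 (by omega) (by omega)
    rw [z4, show 7 + (0 + 4) = 11 from rfl] at u4
    rw [z5, show 7 + (0 + 5) = 12 from rfl] at u5
    rw [z6, show 7 + (0 + 6) = 13 from rfl] at u6
    exact Cthree (s := s) (t := 11) (by omega) (by omega) ⟨by rw [u4, u5], by
      rw [show 11 + 1 = 12 from rfl, show 11 + 2 = 13 from rfl, u5, u6]⟩
  · -- `T` in `V1`
    intro q hq0 hq h
    by_cases k1 : q = 2
    · subst k1
      have := h 2 (by omega) (by omega)
      rw [show 2 + 2 = 4 from rfl, a4, show 7 + 2 = 9 from rfl, a9] at this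
      omega
    by_cases k2 : q = 3
    · subst k2
      have := h 1 (by omega) (by omega)
      rw [show 3 + 1 = 4 from rfl, a4, show 7 + 1 = 8 from rfl, a8] at this
      omega
    · have := h 0 (by omega) (by omega)
      rw [C1 (by omega), show 7 + 0 = 7 from rfl, a7] at this
      omega
  · -- `V1` in `V0`
    intro q hq h
    rw [show 7 + (3 + s) = Z by omega] at h
    have h4 := h 4 (by omega) (by omega)
    have h5 := h 5 (by omega) (by omega)
    have h6 := h 6 (by omega) (by omega)
    rw [a4, show Z + (q + 4) = Z + q + 4 by omega] at h4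
    rw [a5, show Z + (q + 5) = Z + q + 4 + 1 by omega] at h5
    rw [a6, show Z + (q + 6) = Z + q + 4 + 2 by omega] at h6
    have := hones (Z + q + 4) (by omega) h4 h5 h6
    have k3 : q = 3 := by omega
    subst k3
    have := h 0 (by omega) (by omega)
    rw [show Z + (3 + 0) = Z + 3 by omega, z3, a0] at this
    omega
  · -- `V0` in `V1`
    intro q hq0 hq h
    rw [show 7 + (3 + s) = Z by omega] at h
    by_cases k1 : q = 2
    · subst k1
      have := h 2 (by omega) (by omega)
      rw [show 2 + 2 = 4 from rfl, a4, z2] at this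
      omega
    by_cases k2 : q = 3
    · subst k2
      have := h 1 (by omega) (by omega)
      rw [show 3 + 1 = 4 from rfl, a4, z1] at this
      omega
    · have := h 0 (by omega) (by omega)
      rw [C1 (by omega), add_zero, z0] at this
      omega
  · -- no powers
    intro p q hp hq h
    rw [show 7 + (3 + s) + 13 = Z + 13 by omega] at hq
    have hnp : 4 * p ≤ n * p := Nat.mul_le_mul_right _ hn
    have e4 : n * 1 = n := Nat.mul_one n
    by_cases hp1 : p = 1
    · subst hp1
      rw [mul_one] at h hq hnp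
      have f1 := h q (by omega) (by omega)
      have f2 := h (q + 1) (by omega) (by omega)
      have f3 := h (q + 2) (by omega) (by omega)
      rw [show q + 1 + 1 = q + 2 by omega] at f2
      rw [show q + 2 + 1 = q + 3 by omega] at f3
      have g0 := hlt q
      have i1 : q + 1 + 1 = q + 2 := by omega
      have i2 : q + 1 + 2 = q + 3 := by omega
      by_cases g1 : hC s q = 0
      · have r1 := hzeros q (by omega) g1 (by omega) (by omega)
        have r2 := hzeros (q + 1) (by omega) (by omega) (by rw [i1]; omega) (by rw [i2]; omega)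
        omega
      · have r1 := hones q (by omega) (by omega) (by omega) (by omega)
        have r2 := hones (q + 1) (by omega) (by omega) (by rw [i1]; omega) (by rw [i2]; omega)
        omega
    have hp2 : 2 ≤ p := by omega
    -- shifting a block of three equal letters
    have hR : ∀ t v, q ≤ t → t + 2 + p < q + n * p → hC s t = v → hC s (t + 1) = v →
        hC s (t + 2) = v → hC s (t + p) = v ∧ hC s (t + p + 1) = v ∧ hC s (t + p + 2) = v := by
      intro t v h1 h2 h3 h4 h5
      have f1 := h t (by omega) (by omega)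
      have f2 := h (t + 1) (by omega) (by omega)
      have f3 := h (t + 2) (by omega) (by omega)
      rw [show t + 1 + p = t + p + 1 by omega] at f2
      rw [show t + 2 + p = t + p + 2 by omega] at f3
      exact ⟨by omega, by omega, by omega⟩
    have hL : ∀ t v, q + p ≤ t → t + 2 < q + n * p → hC s t = v → hC s (t + 1) = v →
        hC s (t + 2) = v → hC s (t - p) = v ∧ hC s (t - p + 1) = v ∧ hC s (t - p + 2) = v := by
      intro t v h1 h2 h3 h4 h5
      have f1 := h (t - p) (by omega) (by omega)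
      have f2 := h (t - p + 1) (by omega) (by omega)
      have f3 := h (t - p + 2) (by omega) (by omega)
      rw [show t - p + p = t by omega] at f1
      rw [show t - p + 1 + p = t + 1 by omega] at f2
      rw [show t - p + 2 + p = t + 2 by omega] at f3
      exact ⟨by omega, by omega, by omega⟩
    have hB1 : ¬ (q ≤ 4 ∧ 7 ≤ q + n * p) := by
      rintro ⟨h1, h2⟩
      by_cases c : 4 + 2 + p < q + n * p
      · obtain ⟨r1, r2, r3⟩ := hR 4 1 h1 c a4 a5 a6
        have := hones (4 + p) (by omega) r1 r2 r3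
        omega
      · have c1 : p = 2 := by omega
        have c2 : q = 0 := by omega
        subst c1 c2
        have := h 1 (by omega) (by omega)
        rw [a1, show 1 + 2 = 3 from rfl, a3] at this
        omega
    have hC1 : ¬ (q ≤ 7 ∧ 10 ≤ q + n * p) := by
      rintro ⟨h1, h2⟩
      by_cases c : 7 + 2 + p < q + n * p
      · obtain ⟨r1, r2, r3⟩ := hR 7 0 h1 c a7 a8 a9
        have := hzeros (7 + p) (by omega) r1 r2 r3
        omega
      · omega
    have hC2 : ¬ (q ≤ Z ∧ Z + 3 ≤ q + n * p) := by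
      rintro ⟨h1, h2⟩
      by_cases c : q + p ≤ Z
      · obtain ⟨r1, r2, r3⟩ := hL Z 0 c (by omega) z0 z1 z2
        have := hzeros (Z - p) (by omega) r1 r2 r3
        omega
      · obtain ⟨r1, r2, r3⟩ := hR Z 0 h1 (by omega) z0 z1 z2
        have r4 := hzeros (Z + p) (by omega) r1 r2 r3
        have r5 : p = 4 := by omega
        subst r5
        obtain ⟨r6, r7, r8⟩ := hR (Z + 4) 0 (by omega) (by omega) z4 z5 z6
        have := hzeros (Z + 4 + 4) (by omega) r6 r7 r8
        omega
    have hC3 : ¬ (q ≤ Z + 4 ∧ Z + 7 ≤ q + n * p) := by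
      rintro ⟨h1, h2⟩
      by_cases c : Z + 4 + 2 + p < q + n * p
      · obtain ⟨r1, r2, r3⟩ := hR (Z + 4) 0 h1 c z4 z5 z6
        have := hzeros (Z + 4 + p) (by omega) r1 r2 r3
        omega
      · obtain ⟨r1, r2, r3⟩ := hL (Z + 4) 0 (by omega) (by omega) z4 z5 z6
        have r4 := hzeros (Z + 4 - p) (by omega) r1 r2 r3
        omega
    have hB2 : ¬ (q ≤ Z + 7 ∧ Z + 10 ≤ q + n * p) := by
      rintro ⟨h1, h2⟩
      by_cases c : q + p ≤ Z + 7
      · obtain ⟨r1, r2, r3⟩ := hL (Z + 7) 1 c (by omega) z7 z8 z9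
        have := hones (Z + 7 - p) (by omega) r1 r2 r3
        omega
      · omega
    have k1 : 8 ≤ q := by omega
    have k2 : q + n * p ≤ Z + 2 := by omega
    by_cases k3 : p = 2
    · subst k3
      have k4 : 9 ≤ q := by
        by_contra hcon
        have := h 8 (by omega) (by omega)
        rw [a8, show 8 + 2 = 10 from rfl, a10] at this
        omega
      have k5 : q + n * 2 ≤ Z + 1 := by
        by_contra hcon
        have := h (Z - 1) (by omega) (by omega)
        rw [m1, show Z - 1 + 2 = Z + 1 by omega, z1] at this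
        omega
      by_cases k6 : q < 10
      · apply Cover (s := s) (t := 10) (p := 2) hp le_rfl (by omega)
        intro j hj
        exact h (10 + j) (by omega) (by omega)
      · apply Cover (s := s) (t := q) (p := 2) hp (by omega) (by omega)
        intro j hj
        exact h (q + j) (by omega) (by omega)
    by_cases k6 : q < 10
    · apply Cover (s := s) (t := 10) (p := p) hp le_rfl (by omega)
      intro j hj
      exact h (10 + j) (by omega) (by omega)
    · apply Cover (s := s) (t := q) (p := p) hp (by omega) (by omega)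
      intro j hj
      exact h (q + j) (by omega) (by omega)
  · -- ends
    intro p i hp hpi hi h
    rw [show 7 + (3 + s) + 13 = Z + 13 by omega] at hi h
    by_contra hcon
    push Not at hcon
    have key : ∀ d, p + d ≤ 12 → i + d ≥ 13 → hC s (Z + d) = hC s (Z + (d + p)) := by
      intro d h1 h2
      have := h (Z + d) (by omega) (by omega)
      rw [this]
      congr 1
      omega
    by_cases k1 : p = 1
    · subst k1
      have := key 11 (by omega) (by omega)
      rw [z11, z12] at this
      omega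
    by_cases k2 : p = 2
    · subst k2
      have := key 10 (by omega) (by omega)
      rw [z10, z12] at this
      omega
    by_cases k3 : p = 3
    · subst k3
      have := key 8 (by omega) (by omega)
      rw [z8, z11] at this
      omega
    by_cases k4 : p = 4
    · subst k4
      have := key 7 (by omega) (by omega)
      rw [z7, z11] at this
      omega
    by_cases k5 : p = 5
    · subst k5
      have := key 4 (by omega) (by omega)
      rw [z4, z9] at this
      omega
    have f1 := h (Z + 7 - p) (by omega) (by omega)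
    have f2 := h (Z + 7 - p + 1) (by omega) (by omega)
    have f3 := h (Z + 7 - p + 2) (by omega) (by omega)
    rw [show Z + 7 - p + p = Z + 7 by omega, z7] at f1
    rw [show Z + 7 - p + 1 + p = Z + 8 by omega, z8] at f2
    rw [show Z + 7 - p + 2 + p = Z + 9 by omega, z9] at f3
    have := hones (Z + 7 - p) (by omega) f1 f2 f3
    omega
  · -- beginnings
    intro p i hp hpi hi h
    rw [show 7 + (3 + s) + 13 = Z + 13 by omega] at hi
    left
    by_contra hcon
    push Not at hcon
    by_cases k1 : p = 2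
    · subst k1
      have := h 1 (by omega)
      rw [a1, show 1 + 2 = 3 from rfl, a3] at this
      omega
    by_cases k2 : p = 3
    · subst k2
      have := h 2 (by omega)
      rw [a2, show 2 + 3 = 5 from rfl, a5] at this
      omega
    by_cases k3 : p ≤ 6
    · have := h 0 (by omega)
      rw [a0, zero_add, C1 (by omega)] at this
      omega
    have f1 := h 4 (by omega)
    have f2 := h 5 (by omega)
    have f3 := h 6 (by omega)
    rw [a4] at f1
    rw [a5, show 5 + p = 4 + p + 1 by omega] at f2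
    rw [a6, show 6 + p = 4 + p + 2 by omega] at f3
    have := hones (4 + p) (by omega) f1.symm f2.symm f3.symm
    omega

end Pool.Agent.Helper14.ER
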