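import Pool.Agent.Helper14.ER.Final
import Pool.Agent.Helper14.ER.SepC
import Pool.Agent.Helper14.ER.Bin

/-!
# Order of log L: final statements
-/

set_option autoImplicit false

namespace Pool.Agent.Helper14.ER

open Pool.Agent.Helper14.SK Pool.Agent.Helper18.SK Filter Topology

/-- The ratio of consecutive numbers of power-free words. -/
theorem ratio_of (m n : ℕ) (b : ℝ) (hb : 1 < b) (hn : 2 ≤ n)
    (hm : b ^ n ≤ (m : ℝ) * (b ^ (n - 1) - 1)) (t : ℕ) :
    ((G (Fin m) n t).card : ℝ) ≤ b⁻¹ * (G (Fin m) n (t + 1)).card := by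
  have h1 := card_growth (α := Fin m) hn hb.le (by rw [Fintype.card_fin]; exact hm) t
  have hb0 : 0 < b := by linarith
  calc ((G (Fin m) n t).card : ℝ) = b⁻¹ * (b * (G (Fin m) n t).card) := by field_simp
    _ ≤ _ := mul_le_mul_of_nonneg_left h1 (by positivity)

/-- `(n - 1) x ^ (n - 1)` decreases. -/
theorem mul_pow_le {x : ℝ} (hx : 0 ≤ x) (hx1 : x ≤ 3 / 5) {a n : ℕ} (ha : 3 ≤ a) (han : a ≤ n) :
    ((n : ℝ) - 1) * x ^ (n - 1) ≤ ((a : ℝ) - 1) * x ^ (a - 1) := by
  induction n, han using Nat.le_induction with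
  | base => exact le_rfl
  | succ n hn ih =>
    refine le_trans ?_ ih
    have h1 : x ^ (n + 1 - 1) = x ^ (n - 1) * x := by
      rw [← pow_succ]
      congr 1
      omega
    rw [h1]
    have h2 : (3 : ℝ) ≤ n := by exact_mod_cast ha.trans hn
    have h3 : 0 ≤ x ^ (n - 1) := by positivity
    push_cast
    have h4 : (n : ℝ) * x ≤ n - 1 := by nlinarith
    calc ((n : ℝ) + 1 - 1) * (x ^ (n - 1) * x) = ((n : ℝ) * x) * x ^ (n - 1) := by ring
      _ ≤ (n - 1) * x ^ (n - 1) := mul_le_mul_of_nonneg_right h4 h3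

theorem sup_of {m n : ℕ} (hn : 2 ≤ n) {x r0 s0 : ℝ} (hx : 0 < x) (hx1 : x < 1)
    (hrat : ∀ t, ((G (Fin m) n t).card : ℝ) ≤ x * (G (Fin m) n (t + 1)).card)
    (h1 : ((n : ℝ) - 1) * x ^ (n - 1) ≤ s0) (h2 : x ^ (n - 1) ≤ r0) (h3 : r0 < 1)
    (h4 : (s0 + r0 ^ 2) / (1 - r0) ^ 2 ≤ 9 / 10) (i j : ℕ) :
    ((G (Fin m) n i).card : ℝ) * (G (Fin m) n j).card ≤ 10 * (G (Fin m) n (i + j)).card := by
  have h := super hn hx hx1 hrat i j
  have hn1 : (1 : ℝ) ≤ n := by exact_mod_cast (by omega : 1 ≤ n)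
  have hx0 : 0 ≤ x ^ (n - 1) := by positivity
  have h6 : (((n : ℝ) - 1) * x ^ (n - 1) + (x ^ (n - 1)) ^ 2) / (1 - x ^ (n - 1)) ^ 2 ≤
      9 / 10 := by
    refine le_trans ?_ h4
    have h0 : 0 ≤ ((n : ℝ) - 1) * x ^ (n - 1) := mul_nonneg (by linarith) hx0
    exact div_le_div₀ (by nlinarith) (by nlinarith) (by nlinarith) (by nlinarith)
  have h7 : 0 ≤ ((G (Fin m) n i).card : ℝ) * (G (Fin m) n j).card := by positivity
  nlinarith

theorem threshold : ∃ q0 : ℕ, ∀ q ≥ q0, (80 * (q : ℝ) + 80) * (3 / 5) ^ q ≤ 1 / 100 := by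
  have t1 := tendsto_pow_const_mul_const_pow_of_abs_lt_one 1 (r := (3 / 5 : ℝ)) (by
    rw [abs_of_nonneg (by norm_num)]; norm_num)
  have t2 := tendsto_pow_atTop_nhds_zero_of_lt_one (r := (3 / 5 : ℝ)) (by norm_num) (by norm_num)
  have t3 : Tendsto (fun q : ℕ => (80 * (q : ℝ) + 80) * (3 / 5) ^ q) atTop (𝓝 0) := by
    have t4 := (t1.const_mul 80).add (t2.const_mul 80)
    simp only [add_zero, mul_zero] at t4
    refine t4.congr fun k => ?_
    ring
  exact eventually_atTop.1 (t3.eventually (ge_mem_nhds (by norm_num)))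

open Classical in
/-- The lower bound for the number of blocks. -/
theorem lowerY {m n : ℕ} (hm : 2 ≤ m) (hn : 3 ≤ n) {e : Bool} {x : ℝ} {C l1 : ℕ} (hx : 0 < x)
    (hx1 : x ≤ 3 / 5)
    (hrat : ∀ t, ((G (Fin m) n t).card : ℝ) ≤ x * (G (Fin m) n (t + 1)).card)
    (hsup : ∀ i j, ((G (Fin m) n i).card : ℝ) * (G (Fin m) n j).card ≤
      10 * (G (Fin m) n (i + j)).card)
    (hF : (2 * F n x + if e = true then x ^ (n - 2) else 0) + x ^ C / (1 - x) ≤ 92 / 100)
    (hl : 2 * l1 + C ≤ 20)
    (hM : ∀ s0 : ℕ, ∃ V1 T V0 : List (Fin m), Sepm n e V1 T V0 ∧ V1.length = l1 ∧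
      V0.length = l1 + C ∧ s0 ≤ T.length ∧ T.length ≤ s0 + 20)
    {q0 : ℕ} (hq0 : ∀ q ≥ q0, (80 * (q : ℝ) + 80) * (3 / 5) ^ q ≤ 1 / 100)
    (k : ℕ) (hk : 8 * q0 + 500 ≤ k) (hpos : 0 < (G (Fin m) n k).card) :
    ∃ (w : List (Fin m)) (Y : ℕ), Avoids k n w ∧ (n - 1) ^ Y ≤ w.length + 1 ∧
      ((G (Fin m) n k).card : ℝ) ≤ 20 * (m : ℝ) ^ 20 * Y := by
  obtain ⟨V1, T, V0, hS, hv1, hv0, hT1, hT2⟩ := hM (k / 8)
  set N := k - (2 * l1 + C) with hN
  have hkN : V0.length + N + V1.length = k := by omega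
  have hThat : (V1 ++ T ++ V0).length ≤ k / 8 + 40 := by
    rw [List.length_append, List.length_append]
    omega
  have hgood := hS.good_card hn (C := C) (by omega) (N := N) (K := 10) hx
    (by linarith) (by norm_num) hrat hsup (P := N / 2) (by
      refine (Nat.div_le_div_left hn (by norm_num)).trans ?_
      omega) (by omega)
  set A := ((G (Fin m) n N).card : ℝ) with hA
  set Y := (G (Fin m) n N).filter (fun y => ¬ T <:+: y ∧
        PFree n ((V1 ++ T ++ V0) ++ y ++ (V1 ++ T ++ V0)) ∧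
        ∀ d, 0 < d → d ≤ N + V1.length → ¬ Per d (V0 ++ y ++ V1)) with hY
  have hA0 : 0 ≤ A := by positivity
  have b1 : ((N : ℝ) + 1) * 10 * x ^ T.length ≤ 1 / 100 := by
    have h1 := hq0 (k / 8) (by omega)
    refine le_trans ?_ h1
    have h2 : x ^ T.length ≤ (3 / 5) ^ (k / 8) := by
      calc x ^ T.length ≤ x ^ (k / 8) := pow_le_pow_of_le_one hx.le (by linarith) hT1
        _ ≤ (3 / 5) ^ (k / 8) := pow_le_pow_left₀ hx.le hx1 _
    have h3 : ((N : ℝ) + 1) * 10 ≤ 80 * ((k / 8 : ℕ) : ℝ) + 80 := by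
      exact_mod_cast (by omega : (N + 1) * 10 ≤ 80 * (k / 8) + 80)
    exact mul_le_mul h3 h2 (by positivity) (by positivity)
  have b2 : (N : ℝ) * x ^ (N - N / 2) ≤ 1 / 100 := by
    have h1 := hq0 (N / 2) (by omega)
    refine le_trans ?_ h1
    have h2 : x ^ (N - N / 2) ≤ (3 / 5) ^ (N / 2) := by
      calc x ^ (N - N / 2) ≤ x ^ (N / 2) := pow_le_pow_of_le_one hx.le (by linarith) (by omega)
        _ ≤ (3 / 5) ^ (N / 2) := pow_le_pow_left₀ hx.le hx1 _
    have h3 : (N : ℝ) ≤ 80 * ((N / 2 : ℕ) : ℝ) + 80 := by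
      exact_mod_cast (by omega : N ≤ 80 * (N / 2) + 80)
    exact mul_le_mul h3 h2 (by positivity) (by positivity)
  have b3 : ((N + V1.length : ℕ) : ℝ) * x ^ N ≤ 1 / 100 := by
    have h1 := hq0 N (by omega)
    refine le_trans ?_ h1
    have h2 : x ^ N ≤ (3 / 5) ^ N := pow_le_pow_left₀ hx.le hx1 _
    have h3 : ((N + V1.length : ℕ) : ℝ) ≤ 80 * (N : ℝ) + 80 := by
      exact_mod_cast (by omega : N + V1.length ≤ 80 * N + 80)
    exact mul_le_mul h3 h2 (by positivity) (by positivity)
  have hYA : A ≤ 20 * (Y.card : ℝ) := by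
    have h1 : ((2 * F n x + if e = true then x ^ (n - 2) else 0) + (N + 1) * 10 * x ^ T.length +
        N * x ^ (N - N / 2) + (x ^ C / (1 - x) + (N + V1.length : ℕ) * x ^ N)) * A ≤
        19 / 20 * A := mul_le_mul_of_nonneg_right (by linarith) hA0
    linarith
  have hkA : ((G (Fin m) n k).card : ℝ) ≤ (m : ℝ) ^ 20 * A := by
    have h1 : (G (Fin m) n k).card ≤ (G (Fin m) n N).card * (G (Fin m) n (2 * l1 + C)).card := by
      have := card_add (α := Fin m) (n := n) (by omega) N (2 * l1 + C)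
      rwa [show N + (2 * l1 + C) = k by omega] at this
    have h2 : (G (Fin m) n (2 * l1 + C)).card ≤ m ^ 20 := by
      have h3 := card_le_pow (α := Fin m) (n := n) (by omega) (2 * l1 + C)
      have h4 := card_one_le (α := Fin m) (n := n) (by omega)
      rw [Fintype.card_fin] at h4
      calc (G (Fin m) n (2 * l1 + C)).card ≤ (G (Fin m) n 1).card ^ (2 * l1 + C) := h3
        _ ≤ m ^ (2 * l1 + C) := Nat.pow_le_pow_left h4 _
        _ ≤ m ^ 20 := Nat.pow_le_pow_right (by omega) hl
    calc ((G (Fin m) n k).card : ℝ) ≤ ((G (Fin m) n N).card : ℝ) * (m : ℝ) ^ 20 := by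
          exact_mod_cast h1.trans (Nat.mul_le_mul_left _ h2)
      _ = _ := by ring
  have hm20 : (0 : ℝ) < (m : ℝ) ^ 20 := by
    have : (0 : ℝ) < m := by exact_mod_cast (by omega : 0 < m)
    positivity
  have hkr : (0 : ℝ) < ((G (Fin m) n k).card : ℝ) := by exact_mod_cast hpos
  have hYpos : 0 < Y.card := by
    by_contra hc
    have h0 : Y.card = 0 := by omega
    rw [h0, Nat.cast_zero, mul_zero] at hYA
    have : A = 0 := le_antisymm hYA hA0
    rw [this, mul_zero] at hkA
    linarith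
  have hsepr := hS.sepr hkN (by omega) Y.toList (by
    intro y hy
    rw [Finset.mem_toList, hY, Finset.mem_filter, mem_G (by omega)] at hy
    exact ⟨hy.1.2, hy.2⟩)
  obtain ⟨w, hw1, hw2⟩ := hsepr.bound hn (by
    refine (Finset.nodup_toList _).map ?_
    intro y y' h
    simp only [List.append_assoc, List.append_cancel_left_eq] at h
    exact List.append_cancel_right h) (by
    intro h
    rw [List.map_eq_nil_iff] at h
    rw [← Finset.length_toList, h] at hYpos
    simp at hYpos)
  rw [List.length_map, Finset.length_toList] at hw2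
  refine ⟨w, Y.card, hw1, hw2, ?_⟩
  calc ((G (Fin m) n k).card : ℝ) ≤ (m : ℝ) ^ 20 * A := hkA
    _ ≤ (m : ℝ) ^ 20 * (20 * (Y.card : ℝ)) := mul_le_mul_of_nonneg_left hYA hm20.le
    _ = _ := by ring

/-- Ratio, almost multiplicativity and the number of blocks in the two cases. -/
theorem core (m n : ℕ) (h : (3 ≤ m ∧ 3 ≤ n) ∨ (m = 2 ∧ 4 ≤ n)) :
    (∀ i j, ((G (Fin m) n i).card : ℝ) * (G (Fin m) n j).card ≤
      10 * (G (Fin m) n (i + j)).card) ∧
    (∀ t, (7 / 4 : ℝ) * (G (Fin m) n t).card ≤ (G (Fin m) n (t + 1)).card) ∧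
    ∀ q0 : ℕ, (∀ q ≥ q0, (80 * (q : ℝ) + 80) * (3 / 5) ^ q ≤ 1 / 100) →
      ∀ k, 8 * q0 + 500 ≤ k → 0 < (G (Fin m) n k).card →
      ∃ (w : List (Fin m)) (Y : ℕ), Avoids k n w ∧ (n - 1) ^ Y ≤ w.length + 1 ∧
        ((G (Fin m) n k).card : ℝ) ≤ 20 * (m : ℝ) ^ 20 * Y := by
  rcases h with ⟨hm, hn⟩ | ⟨rfl, hn⟩
  · have hm' : (3 : ℝ) ≤ m := by exact_mod_cast hm
    have hcond : (5 / 2 : ℝ) ^ n ≤ (m : ℝ) * ((5 / 2 : ℝ) ^ (n - 1) - 1) := by
      have h1 : (5 / 2 : ℝ) ^ n = 5 / 2 * (5 / 2) ^ (n - 1) := by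
        rw [← pow_succ']
        congr 1
        omega
      have h2 : (5 / 2 : ℝ) ^ 2 ≤ (5 / 2) ^ (n - 1) :=
        pow_le_pow_right₀ (by norm_num) (by omega)
      rw [h1]
      norm_num at h2
      nlinarith
    have hrat := ratio_of m n (5 / 2) (by norm_num) (by omega) hcond
    have hx : ((5 : ℝ) / 2)⁻¹ = 2 / 5 := by norm_num
    rw [hx] at hrat
    have hr2 : ((2 : ℝ) / 5) ^ (n - 1) ≤ (2 / 5) ^ 2 :=
      pow_le_pow_of_le_one (by norm_num) (by norm_num) (by omega)
    have hsup := sup_of (m := m) (n := n) (by omega) (x := 2 / 5)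
      (r0 := (2 / 5) ^ 2) (s0 := (((3 : ℕ) : ℝ) - 1) * (2 / 5) ^ (3 - 1)) (by norm_num)
      (by norm_num) hrat
      (mul_pow_le (by norm_num) (by norm_num) le_rfl hn) hr2 (by norm_num) (by norm_num)
    refine ⟨hsup, ?_, ?_⟩
    · intro t
      have h1 := card_growth (α := Fin m) (E := n) (by omega) (β := 5 / 2) (by norm_num) (by
        rw [Fintype.card_fin]; exact hcond) t
      have h2 : (0 : ℝ) ≤ (G (Fin m) n t).card := by positivity
      linarith
    · intro q0 hq0 k hk hpos
      refine lowerY (e := false) (C := 4) (l1 := 2) (by omega) hn (x := 2 / 5) (by norm_num)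
        (by norm_num) hrat hsup ?_ (by norm_num) ?_ hq0 k hk hpos
      · have hF := F_le (n := n) (x := 2 / 5) (r := (2 / 5) ^ 2) (y := (2 / 5) ^ 1)
          (by norm_num) hr2
          (pow_le_pow_of_le_one (by norm_num) (by norm_num) (by omega)) (by norm_num)
          (by norm_num)
        rw [if_neg (by simp)]
        norm_num at hF ⊢
        linarith
      · intro s0
        have hab : (⟨0, by omega⟩ : Fin m) ≠ ⟨1, by omega⟩ := by simp
        have hac : (⟨0, by omega⟩ : Fin m) ≠ ⟨2, by omega⟩ := by simp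
        have hbc : (⟨1, by omega⟩ : Fin m) ≠ ⟨2, by omega⟩ := by simp
        obtain ⟨V1, T, V0, h1, h2, h3, h4⟩ := sepmB _ _ _ hab hac hbc hn (s0 + 4) (by omega)
        exact ⟨V1, T, V0, h1, h2, h4, by omega, by omega⟩
  · have hgr : ∀ t, (7 / 4 : ℝ) * (G (Fin 2) n t).card ≤ (G (Fin 2) n (t + 1)).card := by
      rcases eq_or_lt_of_le hn with h4 | h4
      · rw [← h4]
        exact ratio_four
      · have hcond : (7 / 4 : ℝ) ^ n ≤ ((2 : ℕ) : ℝ) * ((7 / 4 : ℝ) ^ (n - 1) - 1) := by
          have h1 : (7 / 4 : ℝ) ^ n = 7 / 4 * (7 / 4) ^ (n - 1) := by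
            rw [← pow_succ']
            congr 1
            omega
          have h2 : (7 / 4 : ℝ) ^ 4 ≤ (7 / 4) ^ (n - 1) :=
            pow_le_pow_right₀ (by norm_num) (by omega)
          rw [h1]
          norm_num at h2 ⊢
          linarith
        exact fun t => card_growth (α := Fin 2) (E := n) (by omega) (β := 7 / 4) (by norm_num) (by
          rw [Fintype.card_fin]; exact hcond) t
    have hrat : ∀ t, ((G (Fin 2) n t).card : ℝ) ≤ 4 / 7 * (G (Fin 2) n (t + 1)).card := by
      intro t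
      have := hgr t
      linarith
    have hr2 : ((4 : ℝ) / 7) ^ (n - 1) ≤ (4 / 7) ^ 3 :=
      pow_le_pow_of_le_one (by norm_num) (by norm_num) (by omega)
    have hsup := sup_of (m := 2) (n := n) (by omega) (x := 4 / 7)
      (r0 := (4 / 7) ^ 3) (s0 := (((4 : ℕ) : ℝ) - 1) * (4 / 7) ^ (4 - 1)) (by norm_num)
      (by norm_num) hrat
      (mul_pow_le (by norm_num) (by norm_num) (by norm_num) hn) hr2 (by norm_num) (by norm_num)
    refine ⟨hsup, hgr, ?_⟩
    intro q0 hq0 k hk hpos
    refine lowerY (e := false) (C := 6) (l1 := 7) (by omega) (by omega) (x := 4 / 7) (by norm_num)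
      (by norm_num) hrat hsup ?_ (by norm_num) ?_ hq0 k hk hpos
    · have h1 : ((4 : ℝ) / 7) ^ (n - 2) ≤ (4 / 7) ^ 2 :=
        pow_le_pow_of_le_one (by norm_num) (by norm_num) (by omega)
      have hF := F_le (n := n) (x := 4 / 7) (r := (4 / 7) ^ 3) (y := (4 / 7) ^ 2)
        (by norm_num) hr2 h1 (by norm_num) (by norm_num)
      rw [if_neg (by simp)]
      norm_num at hF h1 ⊢
      linarith
    · intro s0
      have hab : (⟨0, by omega⟩ : Fin 2) ≠ ⟨1, by omega⟩ := by simp
      obtain ⟨s', hs1, hs2, hs3⟩ : ∃ s', s0 + 8 ≤ s' ∧ s' ≤ s0 + 14 ∧ tm s' = 1 := by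
        have h1 := tm_even ((s0 + 9) / 2)
        have h2 := tm_odd ((s0 + 9) / 2)
        have h3 := tm_lt ((s0 + 9) / 2)
        by_cases h4 : tm ((s0 + 9) / 2) = 0
        · refine ⟨2 * ((s0 + 9) / 2) + 1, by omega, by omega, ?_⟩
          rw [h2]
          omega
        · refine ⟨2 * ((s0 + 9) / 2), by omega, by omega, ?_⟩
          rw [h1]
          omega
      obtain ⟨V1, T, V0, h1, h2, h3, h4⟩ := sepmC _ _ hab hn s' (by omega) hs3
      exact ⟨V1, T, V0, h1, h2, h4, by omega, by omega⟩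

/-- Short words avoid powers. -/
theorem avoids_short {m k n : ℕ} (hk : 1 ≤ k) (w : List (Fin m)) (hw : w.length < n) :
    Avoids k n w := by
  rintro u hu ⟨hu0, z, hz, hK⟩
  have h1 := length_eq_of_kEquiv hk hK
  rw [pow_length] at h1
  have h2 := hu.length_le
  have h3 : n ≤ n * z.length := Nat.le_mul_of_pos_right _ (List.length_pos_iff.2 hz)
  omega

/-- The exact order of `log L` for the largest length `L`. -/
theorem log_order (m : ℕ) (hm : 2 ≤ m) : ∃ c : ℝ, 0 < c ∧ ∀ n : ℕ,
    (3 ≤ m ∧ 3 ≤ n) ∨ (m = 2 ∧ 4 ≤ n) →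
    (∃ β : ℝ, (m : ℝ) - 2 / (m : ℝ) ^ (n - 2) ≤ β ∧ β ≤ m ∧
      ∀ t : ℕ, β ^ t ≤ (powerFree m n t : ℝ) ∧ (powerFree m n t : ℝ) ≤ 10 * β ^ t) ∧
    ∀ k : ℕ, 1 ≤ k →
      ∃ L : ℕ, IsGreatest {ℓ | ∃ w : List (Fin m), w.length = ℓ ∧ Avoids k n w} L ∧
        c * powerFree m n k * Real.log n ≤ Real.log L ∧
        Real.log L ≤ (6 + 3 * Real.log m) * powerFree m n k * Real.log n := by
  have hm' : (2 : ℝ) ≤ m := by exact_mod_cast hm
  have hm0 : (0 : ℝ) < m := by linarith
  obtain ⟨q0, hq0⟩ := threshold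
  have hlog2 : 0 < Real.log 2 := Real.log_pos (by norm_num)
  -- beyond `k1` there are at least two blocks
  obtain ⟨k1, hk1⟩ : ∃ k1 : ℕ, ∀ k ≥ k1, 40 * (m : ℝ) ^ 20 ≤ (7 / 4) ^ k := by
    have t1 := tendsto_pow_atTop_atTop_of_one_lt (r := (7 / 4 : ℝ)) (by norm_num)
    exact eventually_atTop.1 (t1.eventually_ge_atTop (40 * (m : ℝ) ^ 20))
  obtain ⟨k2, hk2a, hk2b⟩ : ∃ k2, k1 ≤ k2 ∧ 8 * q0 + 500 ≤ k2 :=
    ⟨k1 + (8 * q0 + 500), by omega, by omega⟩
  set c := min (1 / (80 * (m : ℝ) ^ 20)) (1 / (2 * (m : ℝ) ^ k2)) with hc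
  have hc0 : 0 < c := lt_min (by positivity) (by positivity)
  refine ⟨c, hc0, ?_⟩
  intro n h
  have hn : 3 ≤ n := by omega
  have hn' : (3 : ℝ) ≤ n := by exact_mod_cast hn
  obtain ⟨hsup, hgr, hY⟩ := core m n h
  -- the numbers of power-free words
  have hpow : ∀ t : ℕ, (7 / 4 : ℝ) ^ t ≤ (G (Fin m) n t).card := by
    intro t
    induction t with
    | zero => simp [G]
    | succ t ih =>
      calc (7 / 4 : ℝ) ^ (t + 1) = 7 / 4 * (7 / 4) ^ t := by ring
        _ ≤ 7 / 4 * (G (Fin m) n t).card := mul_le_mul_of_nonneg_left ih (by norm_num)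
        _ ≤ _ := hgr t
  have hpos : ∀ t, 0 < (G (Fin m) n t).card := by
    intro t
    have h1 : (0 : ℝ) < ((G (Fin m) n t).card : ℝ) := lt_of_lt_of_le (by positivity) (hpow t)
    exact_mod_cast h1
  constructor
  · -- the growth rate
    obtain ⟨lam, hlim, hlow, hup⟩ := rate (α := Fin m) (n := n) (by omega) hpos
    have hexp : ∀ t : ℕ, Real.exp lam ^ t = Real.exp (lam * t) := by
      intro t
      rw [← Real.exp_nat_mul, mul_comm]
    refine ⟨Real.exp lam, ?_, ?_, ?_⟩
    · by_cases h24 : m = 2 ∧ n = 4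
      · obtain ⟨rfl, rfl⟩ := h24
        have h1 := grow_le hup (7 / 4) (by norm_num) hpow
        rw [Real.log_le_iff_le_exp (by norm_num)] at h1
        norm_num
        linarith
      · obtain ⟨hb1, hb2⟩ := beta_ok' m n (by omega)
        set b0 := (m : ℝ) - 2 / (m : ℝ) ^ (n - 2) with hb0
        have hlowb : ∀ j : ℕ, b0 ^ j ≤ ((G (Fin m) n j).card : ℝ) := by
          intro j
          refine pow_le_card (α := Fin m) (E := n) (by omega) hb1 ?_ j
          rw [Fintype.card_fin]
          exact hb2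
        rw [← Real.log_le_iff_le_exp (by linarith)]
        exact grow_le hup b0 hb1 hlowb
    · have h1 := hlow 1
      rw [Nat.cast_one, mul_one] at h1
      refine h1.trans ?_
      have h2 := card_one_le (α := Fin m) (n := n) (by omega)
      rw [Fintype.card_fin] at h2
      exact_mod_cast h2
    · intro t
      rw [powerFree_eq m n t (by omega), hexp]
      refine ⟨hlow t, ?_⟩
      -- superadditivity
      have h4 : (0 : ℝ) < ((G (Fin m) n t).card : ℝ) := by exact_mod_cast hpos t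
      have hmul : ∀ j : ℕ, (((G (Fin m) n t).card : ℝ) / 10) ^ (j + 1) ≤
          ((G (Fin m) n (t * (j + 1))).card : ℝ) / 10 := by
        intro j
        induction j with
        | zero => simp
        | succ j ih =>
          have h5 := hsup (t * (j + 1)) t
          rw [show t * (j + 1) + t = t * (j + 1 + 1) by ring] at h5
          calc (((G (Fin m) n t).card : ℝ) / 10) ^ (j + 1 + 1)
              = (((G (Fin m) n t).card : ℝ) / 10) ^ (j + 1) *
                (((G (Fin m) n t).card : ℝ) / 10) := by rw [pow_succ]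
            _ ≤ (((G (Fin m) n (t * (j + 1))).card : ℝ) / 10) *
                (((G (Fin m) n t).card : ℝ) / 10) :=
                mul_le_mul_of_nonneg_right ih (by positivity)
            _ ≤ _ := by linarith
      have hle : Real.log (((G (Fin m) n t).card : ℝ) / 10) ≤ lam * t := by
        by_contra hcon
        push Not at hcon
        rcases Nat.eq_zero_or_pos t with ht | ht
        · subst ht
          rw [Nat.cast_zero, mul_zero] at hcon
          have h6 : (G (Fin m) n 0).card = 1 := by simp [G]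
          rw [h6] at hcon
          have : Real.log ((1 : ℕ) / 10 : ℝ) < 0 := Real.log_neg (by norm_num) (by norm_num)
          linarith
        have ht' : (0 : ℝ) < t := by exact_mod_cast ht
        obtain ⟨μ, hμ1, hμ2⟩ := exists_between (show lam < Real.log
          (((G (Fin m) n t).card : ℝ) / 10) / t by rwa [lt_div_iff₀ ht'])
        rw [lt_div_iff₀ ht'] at hμ2
        obtain ⟨C, hC1, hC⟩ := hup μ hμ1
        have h7 : ∀ j : ℕ, ((j : ℝ) + 1) * (Real.log (((G (Fin m) n t).card : ℝ) / 10) - μ * t) ≤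
            Real.log C := by
          intro j
          have h8 : (((G (Fin m) n t).card : ℝ) / 10) ^ (j + 1) ≤
              C * Real.exp (μ * (t * (j + 1) : ℕ)) := by
            refine (hmul j).trans ?_
            have h9 := hC (t * (j + 1))
            have h10 : (0 : ℝ) ≤ ((G (Fin m) n (t * (j + 1))).card : ℝ) := by positivity
            linarith
          have h9 := Real.log_le_log (by positivity) h8
          rw [Real.log_pow, Real.log_mul (by linarith) (Real.exp_pos _).ne', Real.log_exp] at h9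
          push_cast at h9
          nlinarith
        obtain ⟨j, hj⟩ := exists_nat_gt
          (Real.log C / (Real.log (((G (Fin m) n t).card : ℝ) / 10) - μ * t))
        rw [div_lt_iff₀ (by linarith)] at hj
        have := h7 j
        nlinarith
      rw [Real.log_le_iff_le_exp (by positivity)] at hle
      linarith
  · intro k hk
    obtain ⟨L, hL1, hL2, hL3⟩ := exists_greatest m k n hk (by omega)
    refine ⟨L, hL1, ?_, ?_⟩
    · -- the lower bound
      rw [powerFree_eq m n k (by omega)]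
      have hlogn : 0 < Real.log n := Real.log_pos (by linarith)
      have hlogn1 : Real.log n ≤ 2 * Real.log ((n : ℝ) - 1) := by
        have h1 : (n : ℝ) ≤ ((n : ℝ) - 1) ^ 2 := by nlinarith
        have h2 := Real.log_le_log (by linarith) h1
        rw [Real.log_pow] at h2
        exact_mod_cast h2
      have hAk0 : (0 : ℝ) < ((G (Fin m) n k).card : ℝ) := by exact_mod_cast hpos k
      by_cases hkk : k2 ≤ k
      · obtain ⟨w, Y, hw1, hw2, hw3⟩ := hY q0 hq0 k (by omega) (hpos k)
        have hwL := hL3 w hw1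
        have hY2 : (2 : ℝ) ≤ Y := by
          have h1 := (hk1 k (by omega)).trans (hpow k)
          have h2 : 40 * (m : ℝ) ^ 20 ≤ 20 * (m : ℝ) ^ 20 * Y := h1.trans hw3
          have h3 : (0 : ℝ) < (m : ℝ) ^ 20 := by positivity
          nlinarith
        have hY2' : 2 ≤ Y := by exact_mod_cast hY2
        have h6 : (n - 1) ^ (Y - 1) ≤ L := by
          have h8 : (n - 1) ^ Y = (n - 1) * (n - 1) ^ (Y - 1) := by
            rw [← pow_succ']
            congr 1
            omega
          have h9 : 1 ≤ (n - 1) ^ (Y - 1) := Nat.one_le_pow _ _ (by omega)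
          have h10 : 2 * (n - 1) ^ (Y - 1) ≤ (n - 1) * (n - 1) ^ (Y - 1) :=
            Nat.mul_le_mul_right _ (by omega)
          omega
        have h7 : ((n : ℝ) - 1) ^ (Y - 1) ≤ (L : ℝ) := by
          have : (((n - 1 : ℕ) : ℝ)) ^ (Y - 1) ≤ (L : ℝ) := by exact_mod_cast h6
          rwa [Nat.cast_sub (by omega), Nat.cast_one] at this
        have h8 : ((Y - 1 : ℕ) : ℝ) * Real.log ((n : ℝ) - 1) ≤ Real.log L := by
          rw [← Real.log_pow]
          exact Real.log_le_log (pow_pos (by linarith) _) h7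
        rw [Nat.cast_sub (by omega), Nat.cast_one] at h8
        have h9 : ((G (Fin m) n k).card : ℝ) * (1 / (80 * (m : ℝ) ^ 20)) ≤ (Y : ℝ) / 4 := by
          have h3 : (0 : ℝ) < (m : ℝ) ^ 20 := by positivity
          rw [mul_one_div, div_le_iff₀ (by positivity)]
          calc ((G (Fin m) n k).card : ℝ) ≤ 20 * (m : ℝ) ^ 20 * Y := hw3
            _ = _ := by ring
        calc c * ((G (Fin m) n k).card : ℝ) * Real.log n
            ≤ (1 / (80 * (m : ℝ) ^ 20)) * ((G (Fin m) n k).card : ℝ) * Real.log n := by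
              refine mul_le_mul_of_nonneg_right ?_ hlogn.le
              exact mul_le_mul_of_nonneg_right (min_le_left _ _) hAk0.le
          _ ≤ (Y : ℝ) / 4 * Real.log n := by
              refine mul_le_mul_of_nonneg_right ?_ hlogn.le
              linarith
          _ ≤ (Y : ℝ) / 4 * (2 * Real.log ((n : ℝ) - 1)) :=
              mul_le_mul_of_nonneg_left hlogn1 (by positivity)
          _ ≤ ((Y : ℝ) - 1) * Real.log ((n : ℝ) - 1) := by
              have : 0 ≤ Real.log ((n : ℝ) - 1) := Real.log_nonneg (by linarith)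
              nlinarith
          _ ≤ Real.log L := h8
      · -- small `k`
        have hwL := hL3 (List.replicate (n - 1) ⟨0, by omega⟩)
          (avoids_short hk _ (by rw [List.length_replicate]; omega))
        rw [List.length_replicate] at hwL
        have h1 : ((n : ℝ) - 1) ≤ L := by
          have : ((n - 1 : ℕ) : ℝ) ≤ (L : ℝ) := by exact_mod_cast hwL
          rwa [Nat.cast_sub (by omega), Nat.cast_one] at this
        have h2 : Real.log ((n : ℝ) - 1) ≤ Real.log L := Real.log_le_log (by linarith) h1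
        have h3 : ((G (Fin m) n k).card : ℝ) ≤ (m : ℝ) ^ k2 := by
          have h3 := card_le_pow (α := Fin m) (n := n) (by omega) k
          have h4 := card_one_le (α := Fin m) (n := n) (by omega)
          rw [Fintype.card_fin] at h4
          have h5 : (G (Fin m) n k).card ≤ m ^ k2 :=
            calc (G (Fin m) n k).card ≤ (G (Fin m) n 1).card ^ k := h3
              _ ≤ m ^ k := Nat.pow_le_pow_left h4 _
              _ ≤ m ^ k2 := Nat.pow_le_pow_right (by omega) (by omega)
          exact_mod_cast h5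
        have h4 : (0 : ℝ) < (m : ℝ) ^ k2 := by positivity
        calc c * ((G (Fin m) n k).card : ℝ) * Real.log n
            ≤ (1 / (2 * (m : ℝ) ^ k2)) * (m : ℝ) ^ k2 * Real.log n := by
              refine mul_le_mul_of_nonneg_right ?_ hlogn.le
              exact mul_le_mul (min_le_right _ _) h3 hAk0.le (by positivity)
          _ = Real.log n / 2 := by
              field_simp
          _ ≤ Real.log ((n : ℝ) - 1) := by linarith
          _ ≤ Real.log L := h2
    · -- the upper bound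
      rw [powerFree_eq m n k (by omega)]
      rw [powerFree_eq m n _ (by omega), powerFree_eq m n _ (by omega)] at hL2
      set A := (G (Fin m) n k).card with hA
      have hA0 : (0 : ℝ) < A := by exact_mod_cast hpos k
      have hA1 : (1 : ℝ) ≤ A := by exact_mod_cast hpos k
      have hk0 : (0 : ℝ) < k := by exact_mod_cast hk
      have hlogm : 0 ≤ Real.log m := Real.log_nonneg (by linarith)
      have hlogn : 1 ≤ Real.log n := by
        rw [Real.le_log_iff_exp_le (by linarith)]
        have := Real.exp_one_lt_d9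
        linarith
      have h2 : (G (Fin m) n (2 * k - 2)).card ≤ m ^ (2 * k) := by
        have h3 := card_le_pow (α := Fin m) (n := n) (by omega) (2 * k - 2)
        have h4 := card_one_le (α := Fin m) (n := n) (by omega)
        rw [Fintype.card_fin] at h4
        calc (G (Fin m) n (2 * k - 2)).card ≤ (G (Fin m) n 1).card ^ (2 * k - 2) := h3
          _ ≤ m ^ (2 * k - 2) := Nat.pow_le_pow_left h4 _
          _ ≤ m ^ (2 * k) := Nat.pow_le_pow_right (by omega) (by omega)
      have h3 : L ≤ 3 * k ^ 2 * m ^ (2 * k) * n ^ A := by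
        have h4 : k ^ 2 * (G (Fin m) n (2 * k - 2)).card * n ^ A ≤ k ^ 2 * m ^ (2 * k) * n ^ A :=
          Nat.mul_le_mul_right _ (Nat.mul_le_mul_left _ h2)
        have h5 : 2 * k ≤ 2 * k ^ 2 := by nlinarith
        have h6 : 1 ≤ m ^ (2 * k) := Nat.one_le_pow _ _ (by omega)
        have h7 : 1 ≤ n ^ A := Nat.one_le_pow _ _ (by omega)
        have h8 : k ^ 2 ≤ k ^ 2 * m ^ (2 * k) * n ^ A := by
          rw [mul_assoc]
          exact Nat.le_mul_of_pos_right _ (Nat.mul_pos h6 h7)
        calc L ≤ 2 * (k ^ 2 * m ^ (2 * k) * n ^ A) + k ^ 2 * m ^ (2 * k) * n ^ A := by omega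
          _ = _ := by ring
      have hLpos : (0 : ℝ) < (L : ℝ) := by
        have hwL := hL3 [⟨0, by omega⟩] (avoids_short hk _ (by simp; omega))
        have h0 : 1 ≤ L := by simpa using hwL
        exact_mod_cast (by omega : 0 < L)
      have h5 : (L : ℝ) ≤ 3 * (k : ℝ) ^ 2 * (m : ℝ) ^ (2 * k) * (n : ℝ) ^ A := by
        exact_mod_cast h3
      have h6 := Real.log_le_log hLpos h5
      rw [Real.log_mul (by positivity) (by positivity), Real.log_mul (by positivity)
        (by positivity), Real.log_mul (by norm_num) (by positivity), Real.log_pow, Real.log_pow,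
        Real.log_pow] at h6
      push_cast at h6
      have h7 : Real.log 3 ≤ 2 := by
        have := Real.log_le_sub_one_of_pos (show (0 : ℝ) < 3 by norm_num)
        linarith
      have h8 : Real.log k ≤ k - 1 := Real.log_le_sub_one_of_pos hk0
      have h9 : (3 / 4 : ℝ) * k ≤ A := by
        have h10 := one_add_mul_le_pow (a := (3 / 4 : ℝ)) (by norm_num) k
        have h11 := hpow k
        norm_num at h10
        linarith
      have h10 : Real.log 3 + 2 * Real.log k + 2 * k * Real.log m ≤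
          A * (5 + 3 * Real.log m) := by
        have h11 : (k : ℝ) * Real.log m ≤ (4 / 3 * A) * Real.log m :=
          mul_le_mul_of_nonneg_right (by linarith) hlogm
        have h12 : 0 ≤ (A : ℝ) * Real.log m := by positivity
        nlinarith
      have h11 : (A : ℝ) * (5 + 3 * Real.log m) ≤ A * (5 + 3 * Real.log m) * Real.log n := by
        have : 0 ≤ (A : ℝ) * (5 + 3 * Real.log m) := by positivity
        nlinarith
      calc Real.log L ≤ Real.log 3 + 2 * Real.log k + 2 * k * Real.log m + A * Real.log n := h6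
        _ ≤ A * (5 + 3 * Real.log m) * Real.log n + A * Real.log n := by linarith
        _ = _ := by ring

end Pool.Agent.Helper14.ER
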