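import Pool.Agent.Helper14.SK.Final

/-!
# Exact rate for strongly k-abelian powers: occurrences by position
-/

set_option autoImplicit false

namespace Pool.Agent.Helper14.ER

open Pool.Agent.Helper14.SK

variable {α : Type}

/-- `u` occurs in `w` at position `q`. -/
def At (u w : List α) (q : ℕ) : Prop :=
  q + u.length ≤ w.length ∧ ∀ j < u.length, w[q + j]? = u[j]?

/-- `B` agrees with `A` from position `q` on as far as both are defined. -/
def Fit (A B : List α) (q : ℕ) : Prop :=
  ∀ j < B.length, q + j < A.length → A[q + j]? = B[j]?

theorem at_of_infix {u w : List α} (h : u <:+: w) : ∃ q, At u w q := by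
  obtain ⟨A, B, rfl⟩ := h
  refine ⟨A.length, by simp, fun j hj => ?_⟩
  rw [List.append_assoc, List.getElem?_append_right (by omega),
    List.getElem?_append_left (by omega)]
  congr 1
  omega

theorem At.inw {u w : List α} {q : ℕ} (h : At u w q) : u <:+: w := by
  have h1 : (w.drop q).take u.length = u := by
    apply List.ext_getElem?
    intro j
    rw [List.getElem?_take]
    split_ifs with hj
    · rw [List.getElem?_drop]
      exact h.2 j hj
    · rw [List.getElem?_eq_none (by omega)]
  rw [← h1]
  exact (List.take_prefix _ _).isInfix.trans (List.drop_suffix _ _).isInfix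

theorem At.left {u a b : List α} {q : ℕ} (h : At u (a ++ b) q) (h1 : q + u.length ≤ a.length) :
    At u a q := by
  refine ⟨h1, fun j hj => ?_⟩
  rw [← h.2 j hj, List.getElem?_append_left (by omega)]

theorem At.right {u a b : List α} {q : ℕ} (h : At u (a ++ b) q) (h1 : a.length ≤ q) :
    At u b (q - a.length) := by
  have h0 := h.1
  rw [List.length_append] at h0
  refine ⟨by omega, fun j hj => ?_⟩
  rw [← h.2 j hj, List.getElem?_append_right (by omega)]
  congr 1
  omega

theorem pow_length (z : List α) (n : ℕ) : (List.replicate n z).flatten.length = n * z.length := by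
  simp

theorem pow_per (z : List α) (n j : ℕ) (hj : j + z.length < n * z.length) :
    (List.replicate n z).flatten[j]? = (List.replicate n z).flatten[j + z.length]? := by
  have h1 := pow_drop_take n z
  have h2 := congrArg (fun l => l[j]?) h1
  beta_reduce at h2
  rw [List.getElem?_drop, List.getElem?_take, if_pos (by rw [pow_length]; omega)] at h2
  rw [← h2, add_comm]

theorem At.per {z w : List α} {n q : ℕ} (h : At (List.replicate n z).flatten w q) (i : ℕ)
    (h1 : q ≤ i) (h2 : i + z.length < q + n * z.length) : w[i]? = w[i + z.length]? := by
  have h3 := h.2 (i - q) (by rw [pow_length]; omega)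
  have h4 := h.2 (i - q + z.length) (by rw [pow_length]; omega)
  rw [← pow_per z n (i - q) (by omega), ← h3] at h4
  rw [show q + (i - q) = i by omega] at h4
  rw [← h4]
  congr 1
  omega

end Pool.Agent.Helper14.ER
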