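import Pool.Agent.Helper14.ER.Good

/-!
# Exact rate for strongly k-abelian powers: growth rates and the lower bound
-/

set_option autoImplicit false

namespace Pool.Agent.Helper14.ER

open Pool.Agent.Helper14.SK Pool.Agent.Helper18.SK Filter Topology

section

variable {α : Type} [DecidableEq α] [Fintype α]

theorem card_add {n : ℕ} (hn : 1 ≤ n) (i j : ℕ) :
    (G α n (i + j)).card ≤ (G α n i).card * (G α n j).card := by
  rw [← Finset.card_product]
  refine Finset.card_le_card_of_injOn (fun y => (y.take i, y.drop i)) ?_ ?_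
  · intro y hy
    rw [Finset.mem_coe, mem_G hn] at hy
    rw [Finset.mem_coe, Finset.mem_product, mem_G hn, mem_G hn]
    refine ⟨⟨hy.1.sub (List.take_prefix _ _).isInfix, ?_⟩,
      ⟨hy.1.sub (List.drop_suffix _ _).isInfix, ?_⟩⟩
    · simp only [List.length_take, hy.2]
      omega
    · simp only [List.length_drop, hy.2]
      omega
  · intro y1 _ y2 _ h
    simp only [Prod.mk.injEq] at h
    rw [← List.take_append_drop i y1, ← List.take_append_drop i y2, h.1, h.2]

/-- The logarithm of the number of power-free words. -/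
noncomputable def lg (α : Type) [DecidableEq α] [Fintype α] (n j : ℕ) : ℝ :=
  Real.log ((G α n j).card : ℝ)

theorem lg_sub {n : ℕ} (hn : 1 ≤ n) (hpos : ∀ j, 0 < (G α n j).card) : Subadditive (lg α n) := by
  intro i j
  unfold lg
  have h1 : (0 : ℝ) < ((G α n i).card : ℝ) := by exact_mod_cast hpos i
  have h2 : (0 : ℝ) < ((G α n j).card : ℝ) := by exact_mod_cast hpos j
  have h3 : (0 : ℝ) < ((G α n (i + j)).card : ℝ) := by exact_mod_cast hpos (i + j)
  rw [← Real.log_mul h1.ne' h2.ne']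
  apply Real.log_le_log h3
  exact_mod_cast card_add hn i j

/-- The growth rate of the number of power-free words. -/
theorem rate {n : ℕ} (hn : 1 ≤ n) (hpos : ∀ j, 0 < (G α n j).card) :
    ∃ lam : ℝ, Tendsto (fun j : ℕ => lg α n j / j) atTop (𝓝 lam) ∧
      (∀ j : ℕ, Real.exp (lam * j) ≤ (G α n j).card) ∧
      (∀ μ > lam, ∃ C : ℝ, 1 ≤ C ∧ ∀ j : ℕ, ((G α n j).card : ℝ) ≤ C * Real.exp (μ * j)) := by
  have hsub := lg_sub hn hpos
  have hnn : ∀ j, 0 ≤ lg α n j := by
    intro j
    unfold lg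
    apply Real.log_nonneg
    exact_mod_cast hpos j
  have hbdd : BddBelow (Set.range fun j : ℕ => lg α n j / j) := by
    refine ⟨0, ?_⟩
    rintro _ ⟨j, rfl⟩
    exact div_nonneg (hnn j) (by positivity)
  have hlim := hsub.tendsto_lim hbdd
  have hlim0 : 0 ≤ hsub.lim := ge_of_tendsto' hlim fun j => div_nonneg (hnn j) (by positivity)
  refine ⟨hsub.lim, hlim, ?_, ?_⟩
  · intro j
    have h1 : (0 : ℝ) < ((G α n j).card : ℝ) := by exact_mod_cast hpos j
    rw [← Real.le_log_iff_exp_le h1]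
    rcases Nat.eq_zero_or_pos j with h0 | h0
    · subst h0
      rw [Nat.cast_zero, mul_zero]
      exact hnn 0
    · have h2 := hsub.lim_le_div hbdd (n := j) (by omega)
      have h3 : (0 : ℝ) < j := by exact_mod_cast h0
      rw [le_div_iff₀ h3] at h2
      exact h2
  · intro μ hμ
    have hev := hlim.eventually (gt_mem_nhds hμ)
    rw [eventually_atTop] at hev
    obtain ⟨J, hJ⟩ := hev
    refine ⟨1 + ∑ i ∈ Finset.range (J + 1), ((G α n i).card : ℝ), ?_, ?_⟩
    · have : 0 ≤ ∑ i ∈ Finset.range (J + 1), ((G α n i).card : ℝ) := by positivity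
      linarith
    · intro j
      have hs0 : 0 ≤ ∑ i ∈ Finset.range (J + 1), ((G α n i).card : ℝ) := by positivity
      have h1 : (0 : ℝ) < ((G α n j).card : ℝ) := by exact_mod_cast hpos j
      have he : 1 ≤ Real.exp (μ * j) := by
        apply Real.one_le_exp
        have : 0 ≤ μ := by linarith
        positivity
      by_cases c : j < J + 1
      · have h2 : ((G α n j).card : ℝ) ≤ ∑ i ∈ Finset.range (J + 1), ((G α n i).card : ℝ) :=
          Finset.single_le_sum (f := fun i => ((G α n i).card : ℝ)) (fun i _ => by positivity)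
            (Finset.mem_range.2 c)
        nlinarith
      · have h2 := hJ j (by omega)
        have h3 : (0 : ℝ) < j := by exact_mod_cast (by omega : 0 < j)
        rw [div_lt_iff₀ h3] at h2
        have h4 : ((G α n j).card : ℝ) ≤ Real.exp (μ * j) := by
          rw [← Real.log_le_iff_le_exp h1]
          exact h2.le
        nlinarith

open Classical in
/-- The lower bound for the rate. -/
theorem lower_rate {n : ℕ} (hn : 3 ≤ n) {e : Bool} {x lam : ℝ} (hx : 0 < x) (hx1 : x < 1)
    (hF : 2 * F n x + (if e = true then x ^ (n - 2) else 0) ≤ 9 / 10)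
    (hlow : ∀ j : ℕ, Real.exp (lam * j) ≤ (G α n j).card)
    (hup : ∀ μ > lam, ∃ C : ℝ, 1 ≤ C ∧ ∀ j : ℕ, ((G α n j).card : ℝ) ≤ C * Real.exp (μ * j))
    (hlam : 0 < lam + Real.log x)
    (hM : ∃ c0 : ℕ, ∀ s : ℕ, ∃ T1 T2 : List α, Marker n e T1 T2 ∧ s ≤ T1.length ∧
      (T1 ++ T2).length ≤ s + c0)
    (δ : ℝ) (hδ : 0 < δ) :
    ∀ᶠ k : ℕ in atTop, ∃ (w : List α) (Y : ℕ), Avoids k n w ∧ (n - 1) ^ Y ≤ w.length + 1 ∧
      1 ≤ Y ∧ (1 - δ) * lam * k ≤ Real.log Y := by
  obtain ⟨c0, hM⟩ := hM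
  have hlogx : Real.log x < 0 := Real.log_neg hx hx1
  have hlam0 : 0 < lam := by linarith
  set ρ := lam + Real.log x with hρ
  -- parameters
  obtain ⟨η, hη0, hη1, hη2⟩ : ∃ η : ℝ, 0 < η ∧ 4 * η ≤ δ ∧ η ≤ 1 / 20 :=
    ⟨min (δ / 4) (1 / 20), by positivity, by
      have := min_le_left (δ / 4) (1 / 20)
      linarith, min_le_right _ _⟩
  set κ := η * ρ / 2 with hκ
  have hκ0 : 0 < κ := by positivity
  have hκ1 : κ ≤ η * lam / 2 := by
    rw [hκ]
    have : η * ρ ≤ η * lam := mul_le_mul_of_nonneg_left (by linarith) hη0.le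
    linarith
  obtain ⟨C, hC1, hC⟩ := hup (lam + κ) (by linarith)
  set B := Real.exp (lam + κ) with hB
  have hB1 : 1 ≤ B := Real.one_le_exp (by linarith)
  have hBpow : ∀ j : ℕ, B ^ j = Real.exp ((lam + κ) * j) := by
    intro j
    rw [hB, ← Real.exp_nat_mul, mul_comm]
  have hA : ∀ j, ((G α n j).card : ℝ) ≤ C * B ^ j := by
    intro j
    rw [hBpow]
    exact hC j
  have hClog : 0 ≤ Real.log C := Real.log_nonneg hC1
  -- eventual conditions
  set q1 := Real.exp (-(η * lam / 2)) with hq1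
  have hq10 : 0 ≤ q1 := (Real.exp_pos _).le
  have hq11 : q1 < 1 := by
    rw [hq1, Real.exp_lt_one_iff]
    have : 0 < η * lam := by positivity
    linarith
  have ev1 : ∀ᶠ k : ℕ in atTop, ((k : ℝ) + 1) * C ^ 2 * q1 ^ k ≤ 1 / 40 := by
    have t1 := tendsto_pow_const_mul_const_pow_of_abs_lt_one 1 (r := q1) (by
      rw [abs_of_nonneg hq10]; exact hq11)
    have t2 := tendsto_pow_atTop_nhds_zero_of_lt_one hq10 hq11
    have t3 : Tendsto (fun k : ℕ => ((k : ℝ) + 1) * C ^ 2 * q1 ^ k) atTop (𝓝 0) := by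
      have t4 := (t1.add t2).const_mul (C ^ 2)
      simp only [add_zero, mul_zero] at t4
      refine t4.congr fun k => ?_
      ring
    exact t3.eventually (ge_mem_nhds (by norm_num))
  set q2 := Real.exp (-(lam / 5)) with hq2
  have hq20 : 0 ≤ q2 := (Real.exp_pos _).le
  have hq21 : q2 < 1 := by
    rw [hq2, Real.exp_lt_one_iff]
    linarith
  have ev2 : ∀ᶠ k : ℕ in atTop, (k : ℝ) * C * q2 ^ k ≤ 1 / 40 := by
    have t1 := tendsto_pow_const_mul_const_pow_of_abs_lt_one 1 (r := q2) (by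
      rw [abs_of_nonneg hq20]; exact hq21)
    have t3 : Tendsto (fun k : ℕ => (k : ℝ) * C * q2 ^ k) atTop (𝓝 0) := by
      have t4 := t1.const_mul C
      simp only [mul_zero] at t4
      refine t4.congr fun k => ?_
      ring
    exact t3.eventually (ge_mem_nhds (by norm_num))
  set K := (c0 : ℝ) + 4 + Real.log C / ρ + Real.log 20 / lam with hK
  have ev3 : ∀ᶠ k : ℕ in atTop, K / η ≤ (k : ℝ) :=
    tendsto_natCast_atTop_atTop.eventually_ge_atTop _
  filter_upwards [ev1, ev2, ev3] with k hk1 hk2 hk3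
  rw [div_le_iff₀ hη0, mul_comm] at hk3
  have hK0 : 4 ≤ K := by
    have h1 : 0 ≤ Real.log C / ρ := by positivity
    have h2 : 0 ≤ Real.log 20 / lam := div_nonneg (Real.log_nonneg (by norm_num)) hlam0.le
    have h3 : (0 : ℝ) ≤ c0 := by positivity
    linarith
  have hk0 : (0 : ℝ) ≤ k := by positivity
  -- the marker
  set s := ⌈η * k⌉₊ with hs
  have hs1 : η * k ≤ s := Nat.le_ceil _
  have hs2 : (s : ℝ) < η * k + 1 := Nat.ceil_lt_add_one (by positivity)
  obtain ⟨T1, T2, hMk, hT1, hT2⟩ := hM s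
  have hTr : ((T1 ++ T2).length : ℝ) ≤ s + c0 := by exact_mod_cast hT2
  have hT1r : (s : ℝ) ≤ (T1.length : ℝ) := by exact_mod_cast hT1
  have hTl : T1.length ≤ (T1 ++ T2).length := by
    rw [List.length_append]
    omega
  have hTlr : (T1.length : ℝ) ≤ ((T1 ++ T2).length : ℝ) := by exact_mod_cast hTl
  set τ := (T1 ++ T2).length with hτ
  have hτk : (τ : ℝ) ≤ k := by
    have h1 : Real.log C / ρ ≥ 0 := by positivity
    have h2 : Real.log 20 / lam ≥ 0 := div_nonneg (Real.log_nonneg (by norm_num)) hlam0.le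
    nlinarith
  have hτk' : τ ≤ k := by exact_mod_cast hτk
  -- the record
  obtain ⟨N, hN1, hN2⟩ := Finset.exists_max_image (Finset.range (k - τ + 1))
    (fun j => ((G α n j).card : ℝ) * x ^ j) ⟨0, by simp⟩
  rw [Finset.mem_range] at hN1
  have hNk : N + τ ≤ k := by omega
  have hNkr : (N : ℝ) + τ ≤ k := by exact_mod_cast hNk
  have hxp : ∀ j : ℕ, 0 < x ^ j := fun j => by positivity
  have hrec : ∀ j ≤ N, ((G α n (N - j)).card : ℝ) ≤ x ^ j * (G α n N).card := by
    intro j hj
    have h1 := hN2 (N - j) (Finset.mem_range.2 (by omega))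
    have h2 : x ^ N = x ^ (N - j) * x ^ j := by
      rw [← pow_add]
      congr 1
      omega
    rw [h2] at h1
    have h3 : ((G α n (N - j)).card : ℝ) * x ^ (N - j) ≤
        (x ^ j * ((G α n N).card : ℝ)) * x ^ (N - j) := by
      calc _ ≤ ((G α n N).card : ℝ) * (x ^ (N - j) * x ^ j) := h1
        _ = _ := by ring
    exact le_of_mul_le_mul_right h3 (hxp _)
  have hexpx : ∀ j : ℕ, x ^ j = Real.exp (Real.log x * j) := by
    intro j
    rw [mul_comm, Real.exp_nat_mul, Real.exp_log hx]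
  have hNlow : ((k - τ : ℕ) : ℝ) * ρ ≤ Real.log C + (N : ℝ) * (ρ + κ) := by
    have h1 := hN2 (k - τ) (Finset.mem_range.2 (by omega))
    have h2 : Real.exp (((k - τ : ℕ) : ℝ) * ρ) ≤ ((G α n (k - τ)).card : ℝ) * x ^ (k - τ) := by
      rw [hexpx]
      calc Real.exp (((k - τ : ℕ) : ℝ) * ρ)
          = Real.exp (lam * ((k - τ : ℕ) : ℝ)) * Real.exp (Real.log x * ((k - τ : ℕ) : ℝ)) := by
            rw [← Real.exp_add]
            congr 1
            rw [hρ]
            ring
        _ ≤ _ := mul_le_mul_of_nonneg_right (hlow _) (Real.exp_pos _).le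
    have h3 : ((G α n N).card : ℝ) * x ^ N ≤ Real.exp (Real.log C + (N : ℝ) * (ρ + κ)) := by
      calc ((G α n N).card : ℝ) * x ^ N ≤ (C * B ^ N) * x ^ N :=
            mul_le_mul_of_nonneg_right (hA N) (hxp N).le
        _ = _ := by
            rw [hBpow, hexpx, mul_assoc, ← Real.exp_add, Real.exp_add (Real.log C),
              Real.exp_log (by linarith)]
            congr 2
            rw [hρ]
            ring
    have h4 := (h2.trans h1).trans h3
    exact Real.exp_le_exp.1 h4
  have hNlow2 : (1 - 3 * η) * k ≤ N ∧ Real.log 20 / lam + (1 - 4 * η) * k ≤ N := by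
    rw [Nat.cast_sub hτk'] at hNlow
    have h1 : ((k : ℝ) - τ) ≤ Real.log C / ρ + N * (1 + η / 2) := by
      have h2 : (Real.log C / ρ + N * (1 + η / 2)) * ρ = Real.log C + (N : ℝ) * (ρ + κ) := by
        rw [add_mul, div_mul_cancel₀ _ hlam.ne', hκ]
        ring
      rw [← h2] at hNlow
      exact le_of_mul_le_mul_right hNlow hlam
    have h3 : (N : ℝ) * η ≤ k * η := mul_le_mul_of_nonneg_right (by
      have : (0 : ℝ) ≤ τ := by positivity
      linarith) hη0.le
    have h4 : 0 ≤ Real.log 20 / lam := div_nonneg (Real.log_nonneg (by norm_num)) hlam0.le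
    have h5 : 0 ≤ Real.log C / ρ := by positivity
    have h6 : (0 : ℝ) ≤ c0 := by positivity
    constructor <;> nlinarith
  obtain ⟨hNa, hNb⟩ := hNlow2
  -- the good words
  have h4τ : 4 * (τ : ℝ) + 4 ≤ N := by
    have h4 : 0 ≤ Real.log 20 / lam := div_nonneg (Real.log_nonneg (by norm_num)) hlam0.le
    have h5 : 0 ≤ Real.log C / ρ := by positivity
    nlinarith
  have h4τ' : 4 * τ + 4 ≤ N := by exact_mod_cast h4τ
  have hgood := good_card (N := N) hn hMk hx hx1 hrec hB1 hA (P := N / 2) (by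
    rw [← hτ]
    refine (Nat.div_le_div_left hn (by norm_num)).trans ?_
    omega) (by omega)
  set A := ((G α n N).card : ℝ) with hAdef
  set Y := ((G α n N).filter (fun y => ¬ T1 <:+: y ∧ PFree n ((T1 ++ T2) ++ y ++ (T1 ++ T2))))
    with hY
  have hAlow : Real.exp (lam * N) ≤ A := hlow N
  have hApos : 0 < A := lt_of_lt_of_le (Real.exp_pos _) hAlow
  have b1 : ((N : ℝ) + 1) * C ^ 2 * B ^ (N - T1.length) ≤ A / 40 := by
    have h1 : B ^ (N - T1.length) ≤ Real.exp (lam * N) * q1 ^ k := by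
      rw [hBpow, hq1, ← Real.exp_nat_mul, ← Real.exp_add, Nat.cast_sub (by omega)]
      apply Real.exp_le_exp.2
      have h2 : κ * N ≤ (η * lam / 2) * k := by
        have h3 : κ * N ≤ κ * k := mul_le_mul_of_nonneg_left (by
          have : (0 : ℝ) ≤ τ := by positivity
          linarith) hκ0.le
        have h4 : κ * k ≤ (η * lam / 2) * k := mul_le_mul_of_nonneg_right hκ1 hk0
        linarith
      have h5 : (lam + κ) * (η * k) ≤ (lam + κ) * T1.length :=
        mul_le_mul_of_nonneg_left (by linarith) (by linarith)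
      have h6 : 0 ≤ κ * (η * k) := by positivity
      nlinarith
    have h7 : (0 : ℝ) ≤ τ := by positivity
    calc ((N : ℝ) + 1) * C ^ 2 * B ^ (N - T1.length)
        ≤ ((k : ℝ) + 1) * C ^ 2 * (Real.exp (lam * N) * q1 ^ k) := by
          refine mul_le_mul ?_ h1 (by positivity) (by positivity)
          exact mul_le_mul_of_nonneg_right (by linarith) (by positivity)
      _ = Real.exp (lam * N) * (((k : ℝ) + 1) * C ^ 2 * q1 ^ k) := by ring
      _ ≤ A * (1 / 40) := mul_le_mul hAlow hk1 (by positivity) hApos.le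
      _ = A / 40 := by ring
  have b2 : (N : ℝ) * C * B ^ (N / 2) ≤ A / 40 := by
    have h1 : B ^ (N / 2) ≤ Real.exp (lam * N) * q2 ^ k := by
      rw [hBpow, hq2, ← Real.exp_nat_mul, ← Real.exp_add]
      apply Real.exp_le_exp.2
      have h2 : ((N / 2 : ℕ) : ℝ) ≤ (N : ℝ) / 2 := Nat.cast_div_le
      have h3 : κ ≤ lam / 40 := by nlinarith
      have h4 : (lam + κ) * ((N / 2 : ℕ) : ℝ) ≤ (lam + lam / 40) * ((N : ℝ) / 2) :=
        mul_le_mul (by linarith) h2 (by positivity) (by positivity)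
      have h5 : (17 / 20 : ℝ) * k ≤ N := by nlinarith
      have h6 : lam * ((17 / 20 : ℝ) * k) ≤ lam * N := mul_le_mul_of_nonneg_left h5 hlam0.le
      nlinarith
    have h7 : (0 : ℝ) ≤ τ := by positivity
    calc (N : ℝ) * C * B ^ (N / 2)
        ≤ (k : ℝ) * C * (Real.exp (lam * N) * q2 ^ k) := by
          refine mul_le_mul ?_ h1 (by positivity) (by positivity)
          exact mul_le_mul_of_nonneg_right (by linarith) (by positivity)
      _ = Real.exp (lam * N) * ((k : ℝ) * C * q2 ^ k) := by ring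
      _ ≤ A * (1 / 40) := mul_le_mul hAlow hk2 (by positivity) hApos.le
      _ = A / 40 := by ring
  have hYlow : A / 20 ≤ (Y.card : ℝ) := by
    have h1 : (2 * F n x + if e = true then x ^ (n - 2) else 0) * A ≤ 9 / 10 * A :=
      mul_le_mul_of_nonneg_right hF hApos.le
    linarith
  have hYpos : 0 < Y.card := by
    have : (0 : ℝ) < (Y.card : ℝ) := by linarith
    exact_mod_cast this
  obtain ⟨w, hw1, hw2⟩ := hMk.bound hn (k := k) (N := N) (by
    rw [hτ, List.length_append] at hNk
    omega) Y.toList (Finset.nodup_toList _) (by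
      intro h
      rw [← Finset.length_toList, h] at hYpos
      simp at hYpos) (by
      intro y hy
      rw [Finset.mem_toList, hY, Finset.mem_filter, mem_G (by omega)] at hy
      exact ⟨hy.1.2, hy.2⟩)
  rw [Finset.length_toList] at hw2
  refine ⟨w, Y.card, hw1, hw2, hYpos, ?_⟩
  have h1 : Real.exp (lam * N) / 20 ≤ (Y.card : ℝ) := by linarith
  have h2 : lam * N - Real.log 20 ≤ Real.log (Y.card : ℝ) := by
    have h3 : Real.log (Real.exp (lam * N) / 20) ≤ Real.log (Y.card : ℝ) :=
      Real.log_le_log (by positivity) h1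
    rwa [Real.log_div (Real.exp_pos _).ne' (by norm_num), Real.log_exp] at h3
  have h4 : Real.log 20 + lam * ((1 - 4 * η) * k) ≤ lam * N := by
    have h5 := mul_le_mul_of_nonneg_left hNb hlam0.le
    rw [mul_add, mul_div_cancel₀ _ hlam0.ne'] at h5
    exact h5
  have h6 : (1 - δ) * lam * k ≤ lam * ((1 - 4 * η) * k) := by
    have h7 : 0 ≤ lam * k := by positivity
    nlinarith
  linarith

end

end Pool.Agent.Helper14.ER
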