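import Pool.Agent.Helper14.ER.Good

/-!
# Order of log L: the numbers of power-free words are almost multiplicative
-/

set_option autoImplicit false

namespace Pool.Agent.Helper14.ER

open Pool.Agent.Helper14.SK Pool.Agent.Helper18.SK

section

variable {α : Type} [DecidableEq α] [Fintype α]

theorem ratio_pow {n : ℕ} {x : ℝ} (hx : 0 ≤ x)
    (hrat : ∀ t, ((G α n t).card : ℝ) ≤ x * (G α n (t + 1)).card) (N : ℕ) :
    ∀ j ≤ N, ((G α n (N - j)).card : ℝ) ≤ x ^ j * (G α n N).card := by
  intro j
  induction j with
  | zero => intro _; simp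
  | succ j ih =>
    intro hj
    have h1 := ih (by omega)
    have h2 := hrat (N - (j + 1))
    rw [show N - (j + 1) + 1 = N - j by omega] at h2
    calc ((G α n (N - (j + 1))).card : ℝ) ≤ x * (G α n (N - j)).card := h2
      _ ≤ x * (x ^ j * (G α n N).card) := mul_le_mul_of_nonneg_left h1 hx
      _ = _ := by ring

theorem ratio_le {n : ℕ} {x : ℝ} (hx : 0 ≤ x)
    (hrat : ∀ t, ((G α n t).card : ℝ) ≤ x * (G α n (t + 1)).card) {i N : ℕ} (h : i ≤ N) :
    ((G α n i).card : ℝ) ≤ x ^ (N - i) * (G α n N).card := by
  have := ratio_pow hx hrat N (N - i) (by omega)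
  rwa [show N - (N - i) = i by omega] at this

/-- `W` has period `p` in the interval `[a, a + M)`. -/
def PerIn (p a M : ℕ) (W : List α) : Prop := ∀ j, j + p < M → W[a + j]? = W[a + (j + p)]?

omit [DecidableEq α] [Fintype α] in
theorem PerIn.inj {p a M d D : ℕ} (hp : 0 < p) {W1 W2 : List α} (h1 : PerIn p a M W1)
    (h2 : PerIn p a M W2) (hl1 : a + M ≤ W1.length)
    (hd : (d = a ∨ d = a + p) ∧ D + p = M) (h3 : W1.take d = W2.take d)
    (h4 : W1.drop (d + D) = W2.drop (d + D)) : W1 = W2 := by
  have hout : ∀ t, t < d ∨ d + D ≤ t → W1[t]? = W2[t]? := by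
    intro t ht
    rcases ht with ht | ht
    · have h5 := congrArg (fun l => l[t]?) h3
      beta_reduce at h5
      rwa [List.getElem?_take, List.getElem?_take, if_pos ht, if_pos ht] at h5
    · have h5 := congrArg (fun l => l[t - (d + D)]?) h4
      beta_reduce at h5
      rwa [List.getElem?_drop, List.getElem?_drop, show d + D + (t - (d + D)) = t by omega] at h5
  -- inside the interval
  have hin : ∀ t, t < M → W1[a + t]? = W2[a + t]? := by
    intro t ht
    have hr := Nat.mod_lt t hp
    have hdm := Nat.mod_add_div t p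
    rw [per_mod (fun t => W1[a + t]?) M p h1 t ht, per_mod (fun t => W2[a + t]?) M p h2 t ht]
    rcases hd.1 with hd1 | hd1
    · -- the last period is outside
      have key : ∀ t', D ≤ t' → t' < M → W1[a + t']? = W2[a + t']? := fun t' k1 k2 =>
        hout _ (Or.inr (by omega))
      -- a representative in the last period
      have hrep : ∃ c, D ≤ t % p + c * p ∧ t % p + c * p < M := by
        have e1 := Nat.mod_add_div (M - 1 - t % p) p
        have e2 := Nat.mod_lt (M - 1 - t % p) hp
        refine ⟨(M - 1 - t % p) / p, ?_, ?_⟩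
        · rw [mul_comm]
          omega
        · rw [mul_comm]
          omega
      obtain ⟨c, hc1, hc2⟩ := hrep
      have g1 := per_shift (fun t => W1[a + t]?) M p h1 c (t % p) hc2
      have g2 := per_shift (fun t => W2[a + t]?) M p h2 c (t % p) hc2
      beta_reduce at g1 g2
      rw [g1, g2]
      exact key _ hc1 hc2
    · exact hout _ (Or.inl (by omega))
  apply List.ext_getElem?
  intro t
  by_cases c : a ≤ t ∧ t < a + M
  · have := hin (t - a) (by omega)
    rwa [show a + (t - a) = t by omega] at this
  · apply hout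
    rcases hd with ⟨rfl | rfl, hD⟩ <;> omega

open Classical in
/-- Concatenation of power-free words. -/
theorem super {n : ℕ} (hn : 2 ≤ n) {x : ℝ} (hx : 0 < x) (hx1 : x < 1)
    (hrat : ∀ t, ((G α n t).card : ℝ) ≤ x * (G α n (t + 1)).card) (i j : ℕ) :
    ((G α n i).card : ℝ) * (G α n j).card ≤ (G α n (i + j)).card +
      (((n : ℝ) - 1) * x ^ (n - 1) + (x ^ (n - 1)) ^ 2) / (1 - x ^ (n - 1)) ^ 2 *
        ((G α n i).card * (G α n j).card) := by
  obtain ⟨n, rfl⟩ : ∃ n', n = n' + 2 := ⟨n - 2, by omega⟩
  rw [show n + 2 - 1 = n + 1 by omega]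
  set r := x ^ (n + 1) with hr
  have hr0 : 0 ≤ r := by positivity
  have hr1 : r < 1 := pow_lt_one₀ hx.le hx1 (by omega)
  set Ai := ((G α (n + 2) i).card : ℝ) with hAi
  set Aj := ((G α (n + 2) j).card : ℝ) with hAj
  have hA0 : 0 ≤ Ai * Aj := by positivity
  set I : Finset (List α) := (G α (n + 2) i ×ˢ G α (n + 2) j).image (fun p => p.1 ++ p.2) with hI
  have hIc : I.card = (G α (n + 2) i).card * (G α (n + 2) j).card := by
    rw [hI, Finset.card_image_of_injOn, Finset.card_product]
    rintro ⟨u, v⟩ h1 ⟨u', v'⟩ h2 h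
    rw [Finset.mem_coe, Finset.mem_product, mem_G (by omega), mem_G (by omega)] at h1 h2
    simp only at h1 h2 h
    obtain ⟨h3, h4⟩ := List.append_inj h (by rw [h1.1.2, h2.1.2])
    rw [h3, h4]
  have hmem : ∀ W ∈ I, ∃ u v : List α, W = u ++ v ∧ PFree (n + 2) u ∧ PFree (n + 2) v ∧
      u.length = i ∧ v.length = j := by
    intro W hW
    rw [hI, Finset.mem_image] at hW
    obtain ⟨⟨u, v⟩, h1, h2⟩ := hW
    rw [Finset.mem_product, mem_G (by omega), mem_G (by omega)] at h1
    exact ⟨u, v, h2.symm, h1.1.1, h1.2.1, h1.1.2, h1.2.2⟩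
  let Bad : ℕ → ℕ → Finset (List α) := fun p a =>
    I.filter (fun W => a + (n + 2) * p ≤ W.length ∧ PerIn p a ((n + 2) * p) W)
  have hcov : I ⊆ G α (n + 2) (i + j) ∪ (Finset.range (i + j)).biUnion (fun q =>
      (Finset.Ico (i + 1 - (n + 2) * (q + 1)) i).biUnion (fun a => Bad (q + 1) a)) := by
    intro W hW
    rw [Finset.mem_union]
    by_cases hf : PFree (n + 2) W
    · left
      obtain ⟨u, v, rfl, -, -, h3, h4⟩ := hmem W hW
      rw [mem_G (by omega)]
      exact ⟨hf, by rw [List.length_append, h3, h4]⟩
    · right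
      have hW' := hW
      obtain ⟨u, v, rfl, hu, hv, h3, h4⟩ := hmem W hW
      unfold PFree at hf
      push Not at hf
      obtain ⟨z, hz, hinf⟩ := hf
      have hzl : 1 ≤ z.length := List.length_pos_iff.2 hz
      obtain ⟨a, ha⟩ := at_of_infix hinf
      have hul : (List.replicate (n + 2) z).flatten.length = (n + 2) * z.length :=
        pow_length z (n + 2)
      have ha1 := ha.1
      rw [List.length_append, hul, h3, h4] at ha1
      have e0 : (n + 2) * z.length = n * z.length + 2 * z.length := by ring
      have a1 : a < i := by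
        by_contra hc
        exact hv z hz (ha.right (by omega)).inw
      have a2 : i < a + (n + 2) * z.length := by
        by_contra hc
        exact hu z hz (ha.left (by omega)).inw
      rw [Finset.mem_biUnion]
      refine ⟨z.length - 1, Finset.mem_range.2 (by omega), ?_⟩
      rw [Finset.mem_biUnion, show z.length - 1 + 1 = z.length by omega]
      refine ⟨a, Finset.mem_Ico.2 ⟨by omega, a1⟩, ?_⟩
      simp only [Bad]
      rw [Finset.mem_filter]
      refine ⟨hW', by rw [List.length_append]; omega, ?_⟩
      intro t ht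
      have := ha.per (a + t) (by omega) (by omega)
      rw [this]
      congr 1
      omega
  have hBad : ∀ p a, 0 < p → a < i → i < a + (n + 2) * p →
      ((Bad p a).card : ℝ) ≤ r ^ p * (Ai * Aj) := by
    intro p a hp ha1 ha2
    by_cases hlen : a + (n + 2) * p ≤ i + j
    swap
    · have : Bad p a = ∅ := by
        simp only [Bad]
        rw [Finset.filter_eq_empty_iff]
        intro W hW h
        obtain ⟨u, v, rfl, -, -, h3, h4⟩ := hmem W hW
        rw [List.length_append] at h
        omega
      rw [this, Finset.card_empty, Nat.cast_zero]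
      positivity
    have e0 : (n + 2) * p = (n + 1) * p + p := by ring
    obtain ⟨d, hd, hd1, hd2⟩ : ∃ d, (d = a ∨ d = a + p) ∧ d ≤ i ∧ i ≤ d + (n + 1) * p := by
      by_cases c : a + p ≤ i
      · exact ⟨a + p, Or.inr rfl, c, by omega⟩
      · have : p ≤ (n + 1) * p := Nat.le_mul_of_pos_left _ (by omega)
        exact ⟨a, Or.inl rfl, by omega, by omega⟩
    have hdlen : d + (n + 1) * p ≤ i + j := by
      rcases hd with rfl | rfl <;> omega
    have h1 : (Bad p a).card ≤
        (G α (n + 2) d).card * (G α (n + 2) (i + j - (d + (n + 1) * p))).card := by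
      rw [← Finset.card_product]
      refine Finset.card_le_card_of_injOn
        (fun W => (W.take d, W.drop (d + (n + 1) * p))) ?_ ?_
      · intro W hW
        simp only [Bad] at hW
        rw [Finset.mem_coe, Finset.mem_filter] at hW
        obtain ⟨u, v, rfl, k1, k2, k3, k4⟩ := hmem W hW.1
        rw [Finset.mem_coe, Finset.mem_product, mem_G (by omega), mem_G (by omega)]
        refine ⟨⟨?_, ?_⟩, ⟨?_, ?_⟩⟩
        · simp only
          rw [List.take_append_of_le_length (by omega)]
          exact k1.sub (List.take_prefix _ _).isInfix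
        · simp only [List.length_take, List.length_append]
          omega
        · simp only
          rw [List.drop_append, List.drop_eq_nil_of_le (by omega), List.nil_append]
          exact k2.sub (List.drop_suffix _ _).isInfix
        · simp only [List.length_drop, List.length_append]
          omega
      · intro W1 hW1 W2 hW2 h
        simp only [Bad] at hW1 hW2
        rw [Finset.mem_coe, Finset.mem_filter] at hW1 hW2
        simp only [Prod.mk.injEq] at h
        exact hW1.2.2.inj hp hW2.2.2 hW1.2.1 ⟨hd, by omega⟩ h.1 h.2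
    have h2 : ((G α (n + 2) d).card : ℝ) ≤ x ^ (i - d) * Ai := ratio_le hx.le hrat hd1
    have h3 : ((G α (n + 2) (i + j - (d + (n + 1) * p))).card : ℝ) ≤
        x ^ (j - (i + j - (d + (n + 1) * p))) * Aj := ratio_le hx.le hrat (by omega)
    calc ((Bad p a).card : ℝ) ≤
        ((G α (n + 2) d).card : ℝ) * ((G α (n + 2) (i + j - (d + (n + 1) * p))).card : ℝ) := by
          exact_mod_cast h1
      _ ≤ (x ^ (i - d) * Ai) * (x ^ (j - (i + j - (d + (n + 1) * p))) * Aj) :=
          mul_le_mul h2 h3 (by positivity) (by positivity)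
      _ = (x ^ (i - d) * x ^ (j - (i + j - (d + (n + 1) * p)))) * (Ai * Aj) := by ring
      _ = r ^ p * (Ai * Aj) := by
          rw [← pow_add, hr, ← pow_mul]
          congr 2
          omega
  set U := (Finset.range (i + j)).biUnion (fun q =>
      (Finset.Ico (i + 1 - (n + 2) * (q + 1)) i).biUnion (fun a => Bad (q + 1) a)) with hU
  have hUc : (U.card : ℝ) ≤ ((((n + 2 : ℕ) : ℝ) - 1) * r + r ^ 2) / (1 - r) ^ 2 * (Ai * Aj) := by
    have h1 : U.card ≤ ∑ q ∈ Finset.range (i + j),
        ∑ a ∈ Finset.Ico (i + 1 - (n + 2) * (q + 1)) i, (Bad (q + 1) a).card :=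
      Finset.card_biUnion_le.trans (Finset.sum_le_sum fun q _ => Finset.card_biUnion_le)
    have h2 : ∑ q ∈ Finset.range (i + j), ((q : ℝ) * r ^ q) ≤ r / (1 - r) ^ 2 := by
      rcases Nat.eq_zero_or_pos (i + j) with h0 | h0
      · rw [h0]
        simp only [Finset.range_zero, Finset.sum_empty]
        positivity
      · obtain ⟨M, hM⟩ : ∃ M, i + j = M + 1 := ⟨i + j - 1, by omega⟩
        rw [hM, Finset.sum_range_succ']
        simp only [Nat.cast_zero, zero_mul, add_zero]
        exact sum_one hr0 hr1 M
    calc (U.card : ℝ)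
        ≤ ∑ q ∈ Finset.range (i + j),
          ∑ a ∈ Finset.Ico (i + 1 - (n + 2) * (q + 1)) i, ((Bad (q + 1) a).card : ℝ) := by
          exact_mod_cast h1
      _ ≤ ∑ q ∈ Finset.range (i + j),
          ((((q + 1 : ℕ) : ℝ) * r ^ (q + 1)) * ((n + 1 : ℕ) * (Ai * Aj)) +
            ((q : ℝ) * r ^ q) * (r * (Ai * Aj))) := by
          refine Finset.sum_le_sum fun q _ => ?_
          calc ∑ a ∈ Finset.Ico (i + 1 - (n + 2) * (q + 1)) i, ((Bad (q + 1) a).card : ℝ)
              ≤ ∑ a ∈ Finset.Ico (i + 1 - (n + 2) * (q + 1)) i, r ^ (q + 1) * (Ai * Aj) := by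
                refine Finset.sum_le_sum fun a ha => ?_
                rw [Finset.mem_Ico] at ha
                exact hBad (q + 1) a (by omega) ha.2 (by omega)
            _ = ((Finset.Ico (i + 1 - (n + 2) * (q + 1)) i).card : ℝ) *
                (r ^ (q + 1) * (Ai * Aj)) := by
                rw [Finset.sum_const, nsmul_eq_mul]
            _ ≤ (((n + 1) * (q + 1) + q : ℕ) : ℝ) * (r ^ (q + 1) * (Ai * Aj)) := by
                refine mul_le_mul_of_nonneg_right ?_ (by positivity)
                rw [Nat.card_Ico]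
                have e0 : (n + 2) * (q + 1) = (n + 1) * (q + 1) + (q + 1) := by ring
                exact_mod_cast (by omega :
                  i - (i + 1 - (n + 2) * (q + 1)) ≤ (n + 1) * (q + 1) + q)
            _ = _ := by
                push_cast
                ring
      _ = (∑ q ∈ Finset.range (i + j), (((q + 1 : ℕ) : ℝ) * r ^ (q + 1))) *
          ((n + 1 : ℕ) * (Ai * Aj)) +
          (∑ q ∈ Finset.range (i + j), ((q : ℝ) * r ^ q)) * (r * (Ai * Aj)) := by
          rw [Finset.sum_add_distrib, Finset.sum_mul, Finset.sum_mul]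
      _ ≤ (r / (1 - r) ^ 2) * ((n + 1 : ℕ) * (Ai * Aj)) + (r / (1 - r) ^ 2) * (r * (Ai * Aj)) :=
          add_le_add (mul_le_mul_of_nonneg_right (sum_one hr0 hr1 _) (by positivity))
            (mul_le_mul_of_nonneg_right h2 (by positivity))
      _ = _ := by
          push_cast
          ring
  calc Ai * Aj = (I.card : ℝ) := by
        rw [hIc]
        push_cast
        rfl
    _ ≤ ((G α (n + 2) (i + j) ∪ U).card : ℝ) := by exact_mod_cast Finset.card_le_card hcov
    _ ≤ ((G α (n + 2) (i + j)).card : ℝ) + (U.card : ℝ) := by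
        exact_mod_cast Finset.card_union_le _ _
    _ ≤ _ := by linarith

open Classical in
/-- The words that contain a given word. -/
theorem in_card2 {n : ℕ} (hn : 1 ≤ n) {x K : ℝ} (hx : 0 ≤ x) (hK : 0 ≤ K)
    (hrat : ∀ t, ((G α n t).card : ℝ) ≤ x * (G α n (t + 1)).card)
    (hsup : ∀ i j, ((G α n i).card : ℝ) * (G α n j).card ≤ K * (G α n (i + j)).card)
    (T1 : List α) (N : ℕ) :
    (((G α n N).filter (fun y => T1 <:+: y)).card : ℝ) ≤
      (N + 1) * K * x ^ T1.length * (G α n N).card := by
  by_cases hT : T1.length ≤ N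
  · have hcov : (G α n N).filter (fun y => T1 <:+: y) ⊆
        (Finset.range (N - T1.length + 1)).biUnion (fun j =>
          ((G α n j) ×ˢ (G α n (N - T1.length - j))).image (fun st => st.1 ++ T1 ++ st.2)) := by
      intro y hy
      rw [Finset.mem_filter, mem_G hn] at hy
      obtain ⟨⟨hy1, hy2⟩, s, t, hst⟩ := hy
      have hl := congrArg List.length hst
      rw [List.length_append, List.length_append] at hl
      rw [Finset.mem_biUnion]
      refine ⟨s.length, Finset.mem_range.2 (by omega), ?_⟩
      rw [Finset.mem_image]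
      refine ⟨(s, t), ?_, hst⟩
      rw [Finset.mem_product, mem_G hn, mem_G hn]
      refine ⟨⟨hy1.sub ?_, rfl⟩, hy1.sub ?_, by simp only; omega⟩
      · exact ⟨[], T1 ++ t, by rw [← hst]; simp⟩
      · exact ⟨s ++ T1, [], by rw [← hst]; simp⟩
    have h1 : ((G α n N).filter (fun y => T1 <:+: y)).card ≤
        ∑ j ∈ Finset.range (N - T1.length + 1), (G α n j).card * (G α n (N - T1.length - j)).card := by
      refine (Finset.card_le_card hcov).trans (Finset.card_biUnion_le.trans ?_)
      refine Finset.sum_le_sum fun j _ => ?_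
      refine Finset.card_image_le.trans ?_
      rw [Finset.card_product]
    calc (((G α n N).filter (fun y => T1 <:+: y)).card : ℝ)
        ≤ ∑ j ∈ Finset.range (N - T1.length + 1),
          ((G α n j).card : ℝ) * ((G α n (N - T1.length - j)).card : ℝ) := by exact_mod_cast h1
      _ ≤ ∑ j ∈ Finset.range (N - T1.length + 1), K * (x ^ T1.length * (G α n N).card) := by
          refine Finset.sum_le_sum fun j hj => ?_
          rw [Finset.mem_range] at hj
          refine (hsup _ _).trans (mul_le_mul_of_nonneg_left ?_ hK)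
          rw [show j + (N - T1.length - j) = N - T1.length by omega]
          exact ratio_pow hx hrat N _ hT
      _ = ((N - T1.length + 1 : ℕ) : ℝ) * (K * (x ^ T1.length * (G α n N).card)) := by
          rw [Finset.sum_const, nsmul_eq_mul, Finset.card_range]
      _ ≤ ((N : ℝ) + 1) * (K * (x ^ T1.length * (G α n N).card)) := by
          refine mul_le_mul_of_nonneg_right ?_ (by positivity)
          exact_mod_cast (by omega : N - T1.length + 1 ≤ N + 1)
      _ = _ := by ring
  · rw [Finset.filter_false_of_mem]
    · simp only [Finset.card_empty, Nat.cast_zero]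
      positivity
    · intro y hy h
      rw [mem_G hn] at hy
      have := h.length_le
      omega

end

end Pool.Agent.Helper14.ER
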