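import Pool.Agent.Helper14.ER.Good2

/-!
# Order of log L: separators over three letters
-/

set_option autoImplicit false

namespace Pool.Agent.Helper14.ER

open Pool.Agent.Helper14.SK Pool.Agent.Helper18.SK

/-- A separator from a sequence of codes. -/
theorem sepm_of {α : Type} {n : ℕ} {e : Bool} (g : ℕ → ℕ) (M1 M2 M3 : ℕ) (φ : ℕ → α)
    (hφ : ∀ i j, φ (g i) = φ (g j) → g i = g j)
    (t1 : 1 ≤ M2) (v1p : 1 ≤ M1) (v1t : M1 < M2)
    (u1 : ∀ q, 0 < q → q < M2 → ¬ ∀ j < M2, q + j < M2 → g (M1 + (q + j)) = g (M1 + j))
    (c2 : ∀ q < M3, ¬ ∀ j < M2, q + j < M3 → g (M1 + M2 + (q + j)) = g (M1 + j))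
    (d1 : ∀ q < M2, ¬ ∀ j < M1, q + j < M2 → g (M1 + (q + j)) = g j)
    (e0 : ∀ q < M2, ¬ ∀ j < M3, q + j < M2 → g (M1 + (q + j)) = g (M1 + M2 + j))
    (e1 : ∀ q, 0 < q → q < M1 → ¬ ∀ j < M2, q + j < M1 → g (q + j) = g (M1 + j))
    (f1 : ∀ q, q + M1 ≤ M3 → ¬ ∀ j < M1, q + j < M3 → g (M1 + M2 + (q + j)) = g j)
    (f2 : ∀ q, 0 < q → q < M1 → ¬ ∀ j < M3, q + j < M1 → g (q + j) = g (M1 + M2 + j))
    (pf : ∀ p q, 0 < p → q + n * p ≤ M1 + M2 + M3 →
      ¬ ∀ j, q ≤ j → j + p < q + n * p → g j = g (j + p))
    (suf : ∀ p i, 0 < p → p < i → i ≤ M1 + M2 + M3 →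
      (∀ j, M1 + M2 + M3 - i ≤ j → j + p < M1 + M2 + M3 → g j = g (j + p)) → i < 2 * p)
    (pre : ∀ p i, 0 < p → p < i → i ≤ M1 + M2 + M3 →
      (∀ j, j + p < i → g j = g (j + p)) → i < 2 * p ∨ (e = true ∧ p = 1 ∧ i = 2)) :
    Sepm n e ((List.range M1).map (fun j => φ (g j)))
      ((List.range M2).map (fun j => φ (g (M1 + j))))
      ((List.range M3).map (fun j => φ (g (M1 + M2 + j)))) := by
  set V1 := (List.range M1).map (fun j => φ (g j)) with hV1
  set T := (List.range M2).map (fun j => φ (g (M1 + j))) with hT
  set V0 := (List.range M3).map (fun j => φ (g (M1 + M2 + j))) with hV0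
  have hl1 : V1.length = M1 := by rw [hV1, List.length_map, List.length_range]
  have hl2 : T.length = M2 := by rw [hT, List.length_map, List.length_range]
  have hl3 : V0.length = M3 := by rw [hV0, List.length_map, List.length_range]
  have g1 : ∀ j < M1, V1[j]? = some (φ (g j)) := by
    intro j hj
    rw [hV1, List.getElem?_map, List.getElem?_range hj]
    rfl
  have g2 : ∀ j < M2, T[j]? = some (φ (g (M1 + j))) := by
    intro j hj
    rw [hT, List.getElem?_map, List.getElem?_range hj]
    rfl
  have g3 : ∀ j < M3, V0[j]? = some (φ (g (M1 + M2 + j))) := by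
    intro j hj
    rw [hV0, List.getElem?_map, List.getElem?_range hj]
    rfl
  have hl : (V1 ++ T ++ V0).length = M1 + M2 + M3 := by
    rw [List.length_append, List.length_append, hl1, hl2, hl3]
  have g4 : ∀ j < M1 + M2 + M3, (V1 ++ T ++ V0)[j]? = some (φ (g j)) := by
    intro j hj
    by_cases c : j < M1
    · rw [List.append_assoc, List.getElem?_append_left (by omega), g1 j c]
    by_cases c' : j < M1 + M2
    · rw [List.append_assoc, List.getElem?_append_right (by omega),
        List.getElem?_append_left (by omega), hl1, g2 _ (by omega)]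
      congr 3
      omega
    · rw [List.getElem?_append_right (by rw [List.length_append]; omega), List.length_append, hl1,
        hl2, g3 _ (by omega)]
      congr 3
      omega
  constructor
  · rw [hl2]
    exact t1
  · rw [hl1]
    exact v1p
  · rw [hl1, hl2]
    exact v1t
  · intro q h0 hq hf
    rw [hl2] at hq
    apply u1 q h0 hq
    intro j hj hqj
    have h := hf j (by omega) (by omega)
    rw [g2 _ hqj, g2 _ hj] at h
    exact hφ _ _ (Option.some.inj h)
  · intro q hq hf
    rw [hl3] at hq
    apply c2 q hq
    intro j hj hqj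
    have h := hf j (by omega) (by omega)
    rw [g3 _ hqj, g2 _ hj] at h
    exact hφ _ _ (Option.some.inj h)
  · intro q hq hf
    rw [hl2] at hq
    apply d1 q hq
    intro j hj hqj
    have h := hf j (by omega) (by omega)
    rw [g2 _ hqj, g1 _ hj] at h
    exact hφ _ _ (Option.some.inj h)
  · intro q hq hf
    rw [hl2] at hq
    apply e0 q hq
    intro j hj hqj
    have h := hf j (by omega) (by omega)
    rw [g2 _ hqj, g3 _ hj] at h
    exact hφ _ _ (Option.some.inj h)
  · intro q h0 hq hf
    rw [hl1] at hq
    apply e1 q h0 hq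
    intro j hj hqj
    have h := hf j (by omega) (by omega)
    rw [g1 _ hqj, g2 _ hj] at h
    exact hφ _ _ (Option.some.inj h)
  · intro q hq hf
    rw [hl1, hl3] at hq
    apply f1 q hq
    intro j hj hqj
    have h := hf j (by omega) (by omega)
    rw [g3 _ hqj, g1 _ hj] at h
    exact hφ _ _ (Option.some.inj h)
  · intro q h0 hq hf
    rw [hl1] at hq
    apply f2 q h0 hq
    intro j hj hqj
    have h := hf j (by omega) (by omega)
    rw [g1 _ hqj, g3 _ hj] at h
    exact hφ _ _ (Option.some.inj h)
  · intro z hz hinf
    obtain ⟨q, hq⟩ := at_of_infix hinf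
    have hq1 := hq.1
    rw [hl, pow_length] at hq1
    apply pf z.length q (List.length_pos_iff.2 hz) hq1
    intro j hj1 hj2
    have h := hq.per j hj1 hj2
    rw [g4 _ (by omega), g4 _ (by omega)] at h
    exact hφ _ _ (Option.some.inj h)
  · intro p i hp hpi hi hj
    rw [hl] at hi hj
    apply suf p i hp hpi hi
    intro j hj1 hj2
    have h := hj j hj1 hj2
    rw [g4 _ (by omega), g4 _ (by omega)] at h
    exact hφ _ _ (Option.some.inj h)
  · intro p i hp hpi hi hj
    rw [hl] at hi
    apply pre p i hp hpi hi
    intro j hj1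
    have h := hj j hj1
    rw [g4 _ (by omega), g4 _ (by omega)] at h
    exact hφ _ _ (Option.some.inj h)

/-- The codes of `c b, c S, c c a a b a`, where `S` is a beginning of the Thue–Morse word. -/
def hB (s j : ℕ) : ℕ :=
  if j = 0 then 2 else if j = 1 then 1 else if j = 2 then 2 else
    if j < 3 + s then tm (j - 3) else if j < 3 + s + 2 then 2 else
      if j = 3 + s + 4 then 1 else 0

theorem hB_lt (s j : ℕ) : hB s j < 3 := by
  unfold hB
  have := tm_lt (j - 3)
  split_ifs <;> omega

theorem sepmB {α : Type} (a b c : α) (hab : a ≠ b) (hac : a ≠ c) (hbc : b ≠ c) {n : ℕ}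
    (hn : 3 ≤ n) (s : ℕ) (hs : 4 ≤ s) :
    ∃ V1 T V0 : List α, Sepm n false V1 T V0 ∧ V1.length = 2 ∧ T.length = 1 + s ∧
      V0.length = 6 := by
  let φ : ℕ → α := fun i => if i = 0 then a else if i = 1 then b else c
  have hφ : ∀ i j, i < 3 → j < 3 → φ i = φ j → i = j := by
    intro i j hi hj h
    simp only [φ] at h
    interval_cases i <;> interval_cases j <;> simp_all
  have v0 : hB s 0 = 2 := by simp [hB]
  have v1 : hB s 1 = 1 := by simp [hB]
  have v2 : hB s 2 = 2 := by simp [hB]
  have vS : ∀ j, 3 ≤ j → j < 3 + s → hB s j = tm (j - 3) := by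
    intro j h1 h2
    unfold hB
    rw [if_neg (by omega), if_neg (by omega), if_neg (by omega), if_pos h2]
  have vS2 : ∀ j, 3 ≤ j → j < 3 + s → hB s j < 2 := by
    intro j h1 h2
    rw [vS j h1 h2]
    exact tm_lt _
  have v3 : hB s 3 = 0 := by
    rw [vS 3 le_rfl (by omega)]
    rfl
  have v4 : hB s 4 = 1 := by
    rw [vS 4 (by omega) (by omega)]
    rfl
  have w1 : hB s (3 + s) = 2 := by
    unfold hB
    rw [if_neg (by omega), if_neg (by omega), if_neg (by omega), if_neg (by omega),
      if_pos (by omega)]
  have w2 : hB s (3 + s + 1) = 2 := by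
    unfold hB
    rw [if_neg (by omega), if_neg (by omega), if_neg (by omega), if_neg (by omega),
      if_pos (by omega)]
  have w3 : hB s (3 + s + 2) = 0 := by
    unfold hB
    rw [if_neg (by omega), if_neg (by omega), if_neg (by omega), if_neg (by omega),
      if_neg (by omega), if_neg (by omega)]
  have w4 : hB s (3 + s + 3) = 0 := by
    unfold hB
    rw [if_neg (by omega), if_neg (by omega), if_neg (by omega), if_neg (by omega),
      if_neg (by omega), if_neg (by omega)]
  have w5 : hB s (3 + s + 4) = 1 := by
    unfold hB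
    rw [if_neg (by omega), if_neg (by omega), if_neg (by omega), if_neg (by omega),
      if_neg (by omega), if_pos (by omega)]
  have w6 : hB s (3 + s + 5) = 0 := by
    unfold hB
    rw [if_neg (by omega), if_neg (by omega), if_neg (by omega), if_neg (by omega),
      if_neg (by omega), if_neg (by omega)]
  have two : ∀ j < 3 + s + 6, hB s j = 2 → j = 0 ∨ j = 2 ∨ j = 3 + s ∨ j = 3 + s + 1 := by
    intro j hj h
    by_contra hc
    push Not at hc
    obtain ⟨k1, k2, k3, k4⟩ := hc
    by_cases k5 : j = 1
    · subst k5
      omega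
    by_cases k6 : j < 3 + s
    · have := vS2 j (by omega) k6
      omega
    by_cases k7 : j = 3 + s + 2
    · rw [k7, w3] at h
      omega
    by_cases k8 : j = 3 + s + 3
    · rw [k8, w4] at h
      omega
    by_cases k9 : j = 3 + s + 4
    · rw [k9, w5] at h
      omega
    · have k10 : j = 3 + s + 5 := by omega
      rw [k10, w6] at h
      omega
  refine ⟨_, _, _, sepm_of (n := n) (e := false) (hB s) 2 (1 + s) 6 φ
    (fun i j h => hφ _ _ (hB_lt s i) (hB_lt s j) h) (by omega) (by omega) (by omega)
    ?_ ?_ ?_ ?_ ?_ ?_ ?_ ?_ ?_ ?_, by simp, by simp, by simp⟩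
  · -- `T` against itself
    intro q h0 hq h
    have := h 0 (by omega) (by omega)
    have h2 := vS2 (2 + (q + 0)) (by omega) (by omega)
    rw [show 2 + 0 = 2 from rfl, v2] at this
    omega
  · -- `T` in `V0`
    intro q hq h
    rw [show 2 + (1 + s) = 3 + s by omega] at h
    by_cases k0 : q = 0
    · subst k0
      have := h 1 (by omega) (by omega)
      rw [show 3 + s + (0 + 1) = 3 + s + 1 by omega, w2, show 2 + 1 = 3 from rfl, v3] at this
      omega
    by_cases k1 : q = 1
    · subst k1
      have := h 2 (by omega) (by omega)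
      rw [show 3 + s + (1 + 2) = 3 + s + 3 by omega, w4, show 2 + 2 = 4 from rfl, v4] at this
      omega
    · have := h 0 (by omega) (by omega)
      rw [show 2 + 0 = 2 from rfl, v2] at this
      have := two _ (by omega) this
      omega
  · -- `V1` in `T`
    intro q hq h
    by_cases k0 : q = 0
    · subst k0
      have := h 1 (by omega) (by omega)
      rw [show 2 + (0 + 1) = 3 from rfl, v3, v1] at this
      omega
    · have := h 0 (by omega) (by omega)
      have h2 := vS2 (2 + (q + 0)) (by omega) (by omega)
      rw [v0] at this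
      omega
  · -- `V0` in `T`
    intro q hq h
    rw [show 2 + (1 + s) = 3 + s by omega] at h
    by_cases k0 : q = 0
    · subst k0
      have := h 1 (by omega) (by omega)
      rw [show 2 + (0 + 1) = 3 from rfl, v3, w2] at this
      omega
    · have := h 0 (by omega) (by omega)
      have h2 := vS2 (2 + (q + 0)) (by omega) (by omega)
      rw [add_zero, add_zero, w1] at this
      rw [add_zero] at h2
      omega
  · -- `T` in `V1`
    intro q h0 hq h
    have k1 : q = 1 := by omega
    subst k1
    have := h 0 (by omega) (by omega)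
    rw [show 1 + 0 = 1 from rfl, v1, show 2 + 0 = 2 from rfl, v2] at this
    omega
  · -- `V1` in `V0`
    intro q hq h
    rw [show 2 + (1 + s) = 3 + s by omega] at h
    by_cases k0 : q = 0
    · subst k0
      have := h 1 (by omega) (by omega)
      rw [show 3 + s + (0 + 1) = 3 + s + 1 by omega, w2, v1] at this
      omega
    by_cases k1 : q = 1
    · subst k1
      have := h 1 (by omega) (by omega)
      rw [show 3 + s + (1 + 1) = 3 + s + 2 by omega, w3, v1] at this
      omega
    · have := h 0 (by omega) (by omega)
      rw [v0] at this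
      have := two _ (by omega) this
      omega
  · -- `V0` in `V1`
    intro q h0 hq h
    rw [show 2 + (1 + s) = 3 + s by omega] at h
    have k1 : q = 1 := by omega
    subst k1
    have := h 0 (by omega) (by omega)
    rw [show 1 + 0 = 1 from rfl, v1, add_zero, w1] at this
    omega
  · -- no powers
    intro p q hp hq h
    have hnp : 3 * p ≤ n * p := Nat.mul_le_mul_right _ hn
    have hno : ∀ t, q ≤ t → t < q + n * p → hB s t ≠ 2 := by
      intro t ht1 ht2 h2
      have hper : ∀ j, j + p < n * p → hB s (q + j) = hB s (q + (j + p)) := by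
        intro j hj
        have := h (q + j) (by omega) (by omega)
        rw [this]
        congr 1
        omega
      have hr := Nat.mod_lt (t - q) hp
      have hle := Nat.mod_le (t - q) p
      have e1 : hB s (q + (t - q) % p) = 2 := by
        have := per_mod (fun j => hB s (q + j)) (n * p) p hper (t - q) (by omega)
        beta_reduce at this
        rw [← this, show q + (t - q) = t by omega]
        exact h2
      set r := (t - q) % p with hrdef
      have e2 : hB s (q + (r + p)) = 2 := by rw [← hper r (by omega), e1]
      have e3 : hB s (q + (r + p + p)) = 2 := by rw [← hper (r + p) (by omega), e2]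
      have f1 := two _ (by omega) e1
      have f2 := two _ (by omega) e2
      have f3 := two _ (by omega) e3
      omega
    have hq3 : 3 ≤ q := by
      by_contra hc
      have h1 := hno 2
      have h2 := hno 0
      omega
    by_cases hqs : q + n * p ≤ 3 + s
    · refine tm_no_overlap p hp (q - 3) fun j hj => ?_
      have h1 := h (q + j) (by omega) (by omega)
      rw [vS _ (by omega) (by omega), vS _ (by omega) (by omega)] at h1
      rw [show q - 3 + j = q + j - 3 by omega, h1]
      congr 1
      omega
    · have hq5 : 3 + s + 2 ≤ q := by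
        by_contra hc
        have h1 := hno (3 + s)
        have h2 := hno (3 + s + 1)
        omega
      have hp1 : p = 1 := by omega
      subst hp1
      by_cases k1 : q = 3 + s + 2
      · have := h (3 + s + 3) (by omega) (by omega)
        rw [w4, show 3 + s + 3 + 1 = 3 + s + 4 by omega, w5] at this
        omega
      · have := h (3 + s + 3) (by omega) (by omega)
        rw [w4, show 3 + s + 3 + 1 = 3 + s + 4 by omega, w5] at this
        omega
  · -- ends
    intro p i hp hpi hi h
    by_contra hc
    push Not at hc
    by_cases k1 : p = 1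
    · subst k1
      have := h (3 + s + 4) (by omega) (by omega)
      rw [w5, show 3 + s + 4 + 1 = 3 + s + 5 by omega, w6] at this
      omega
    by_cases k2 : p = 2
    · subst k2
      have := h (3 + s + 2) (by omega) (by omega)
      rw [w3, show 3 + s + 2 + 2 = 3 + s + 4 by omega, w5] at this
      omega
    by_cases k3 : p = 3
    · subst k3
      have := h (3 + s + 1) (by omega) (by omega)
      rw [w2, show 3 + s + 1 + 3 = 3 + s + 4 by omega, w5] at this
      omega
    by_cases k4 : p = 4
    · subst k4
      have := h (3 + s + 1) (by omega) (by omega)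
      rw [w2, show 3 + s + 1 + 4 = 3 + s + 5 by omega, w6] at this
      omega
    by_cases k5 : p = 5
    · subst k5
      have := h (3 + s) (by omega) (by omega)
      rw [w1, w6] at this
      omega
    have h1 := h (3 + s + 1 - p) (by omega) (by omega)
    have h2 := h (3 + s - p) (by omega) (by omega)
    rw [show 3 + s + 1 - p + p = 3 + s + 1 by omega, w2] at h1
    rw [show 3 + s - p + p = 3 + s by omega, w1] at h2
    have f1 := two _ (by omega) h1
    have f2 := two _ (by omega) h2
    omega
  · -- beginnings
    intro p i hp hpi hi h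
    left
    by_contra hc
    push Not at hc
    by_cases k1 : p = 1
    · subst k1
      have := h 0 (by omega)
      rw [v0, v1] at this
      omega
    by_cases k2 : p = 2
    · subst k2
      have := h 1 (by omega)
      rw [v1, v3] at this
      omega
    have h1 := h 0 (by omega)
    rw [v0, zero_add] at h1
    have f1 := two _ (by omega) h1.symm
    omega

end Pool.Agent.Helper14.ER
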